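import Pool.Agent.X99.CK.Pol
import Pool.Agent.Y697.CJ.LAJ2
import Pool.Agent.Y687.JQ.Stm

/-!
# The joint law of the coranks: the block systems

After `Pool.Agent.Y697.CJ.LAJ` (helper697).
-/

set_option autoImplicit false

open scoped Classical

namespace Pool.Agent.X99.CK

open Finset Module Function
open Pool.Agent.Y703.CQ (prs c2)
open Pool.Agent.Y219.CQ (F bf bf_apply bf_symm bf_add bf_single mf mf_apply mA mC mZ mL pa pa_surj
  zx zx_of zx_not sum_zx mZ_symm mL_symm bf_l bf_r all_zero row1 row2)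
open Pool.Agent.Y697.CJ (Am Bm Cm fm BM BM_symm nd_BM dd sum_Cm finrank_JJ_le yy_card mf_add mf_symm
  Am_symm Bm_eq gi_eq)
open Pool.Agent.Y697.PQ (JJ mem_JJ gi cf)
open Pool.Agent.Y697.PP (YY mem_YY)

/-- the solutions of the block system with the mask `m` -/
def SolM {U J : Type} [Fintype U] [Fintype J] (m U1 : Finset U) (J1 : Finset J)
    (A : U → U → ZMod 2) (B : U → J → ZMod 2) (C : J → U → ZMod 2) (R : J → J → ZMod 2)
    (f : U → ZMod 2) (g : J → ZMod 2) (w : (U → ZMod 2) × (J → ZMod 2)) : Prop :=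
  (∀ u, u ∉ U1 → w.1 u = 0) ∧ (∀ u, u ∉ m → w.1 u = 0) ∧ (∀ k, k ∉ J1 → w.2 k = 0) ∧
    (∀ u ∈ U1, u ∈ m →
      ∑ v ∈ m, A u v * (w.1 v + w.1 u) + ∑ l, B u l * (w.2 l + w.1 u) + f u * w.1 u = 0) ∧
    (∀ k ∈ J1, ∑ u ∈ m, C k u * (w.1 u + w.2 k) + ∑ l, R k l * (w.2 l + w.2 k) +
      g k * w.2 k = 0)

/-- the number of the solutions -/
noncomputable def nS {U J : Type} [Fintype U] [Fintype J] (m U1 : Finset U) (J1 : Finset J)
    (A : U → U → ZMod 2) (B : U → J → ZMod 2) (C : J → U → ZMod 2) (R : J → J → ZMod 2)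
    (f : U → ZMod 2) (g : J → ZMod 2) : ℕ :=
  Nat.card {w : (U → ZMod 2) × (J → ZMod 2) // SolM m U1 J1 A B C R f g w}

section ker

variable {ι κ : Type} [Fintype ι] [Fintype κ]

/-- the kernel of the whole form -/
theorem mem_ker_mf (MA : ι → ι → F) (MC : ι → κ → F) (MS : κ → κ → F) (x : ι → F) (y : κ → F) :
    ((x, y) : (ι → F) × (κ → F)) ∈ LinearMap.ker (mf (bf MA) (bf MC) (bf MS)) ↔
      (∀ v, ∑ u, x u * MA u v + ∑ k, MC v k * y k = 0) ∧
      (∀ l, ∑ u, x u * MC u l + ∑ k, y k * MS k l = 0) := by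
  rw [LinearMap.mem_ker]
  constructor
  · intro h
    constructor
    · refine all_zero _ fun x' => ?_
      have h1 := LinearMap.congr_fun h (x', 0)
      rw [mf_apply] at h1
      simp only [map_zero, LinearMap.zero_apply, add_zero] at h1
      rw [bf_l, bf_r, ← sum_add_distrib] at h1
      rw [← h1]
      exact sum_congr rfl fun v _ => by rw [add_mul]
    · refine all_zero _ fun y' => ?_
      have h1 := LinearMap.congr_fun h (0, y')
      rw [mf_apply] at h1
      simp only [map_zero, LinearMap.zero_apply, add_zero, zero_add] at h1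
      rw [bf_l, bf_l, ← sum_add_distrib] at h1
      rw [← h1]
      exact sum_congr rfl fun v _ => by rw [add_mul]
  · rintro ⟨h1, h2⟩
    refine LinearMap.ext fun w' => ?_
    rw [mf_apply, LinearMap.zero_apply]
    have e1 : bf MA x w'.1 + bf MC w'.1 y = 0 := by
      rw [bf_l, bf_r, ← sum_add_distrib]
      refine sum_eq_zero fun v _ => ?_
      rw [← add_mul, h1, zero_mul]
    have e2 : bf MC x w'.2 + bf MS y w'.2 = 0 := by
      rw [bf_l, bf_l, ← sum_add_distrib]
      refine sum_eq_zero fun v _ => ?_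
      rw [← add_mul, h2, zero_mul]
    linear_combination e1 + e2

end ker

section main

variable {U J : Type} [Fintype U] [Fintype J] [LinearOrder J]

theorem BM_add (U1 : Finset U) (J1 : Finset J) (m : Finset U)
    (A : U → U → F) (B : U → J → F) (C : J → U → F) (f : U → F) (g : J → F) (α : prs J1 → F) :
    BM U1 J1 m A B C f g + mf 0 0 (pa J1 α).1 =
      mf (bf (mA U1 (Am m A) (Bm m B) (fm m f))) (bf (mC U1 J1 (Cm m C)))
        (bf fun k l => mL J1 α k l + mZ J1 (Cm m C) g k l) := by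
  have h1 : (bf fun k l => mL J1 α k l + mZ J1 (Cm m C) g k l) =
      bf (mZ J1 (Cm m C) g) + bf (mL J1 α) := by
    rw [← bf_add]
    congr 1
    funext k l
    exact add_comm _ _
  rw [h1, mf_add]
  rfl

theorem mem_ker_iff (U1 : Finset U) (J1 : Finset J) (m : Finset U)
    (A : U → U → F) (B : U → J → F) (C : J → U → F) (f : U → F) (g : J → F)
    (hA : ∀ u ∈ U1, ∀ v ∈ U1, A u v = A v u) (hB : ∀ u ∈ U1, ∀ k ∈ J1, B u k = C k u)
    (α : prs J1 → F) (x : U1 → F) (y : J1 → F) :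
    ((x, y) : (U1 → F) × (J1 → F)) ∈
      LinearMap.ker (BM U1 J1 m A B C f g + mf 0 0 (pa J1 α).1) ↔
    SolM m U1 J1 A B C (Pool.Agent.Y703.CQ.ext α) f g (zx U1 x, zx J1 y) := by
  rw [BM_add, mem_ker_mf]
  have e1 : ∀ u ∈ m, ∀ (h : U → F), ∑ v, Am m A u v * h v = ∑ v ∈ m, A u v * h v := by
    intro u hu h
    have : ∑ v ∈ m, A u v * h v = ∑ v, if v ∈ m then A u v * h v else 0 := by
      rw [← sum_filter]
      congr 1
      ext v
      simp
    rw [this]
    refine sum_congr rfl fun v _ => ?_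
    unfold Am
    simp only [hu, true_and]
    rw [ite_mul, zero_mul]
  have e2 : ∀ (k : J) (h : U → F), ∑ u, Cm m C k u * h u = ∑ u ∈ m, C k u * h u := by
    intro k h
    have : ∑ v ∈ m, C k v * h v = ∑ v, if v ∈ m then C k v * h v else 0 := by
      rw [← sum_filter]
      congr 1
      ext v
      simp
    rw [this]
    refine sum_congr rfl fun v _ => ?_
    unfold Cm
    rw [ite_mul, zero_mul]
  have e3 : ∀ u ∈ m, ∀ (h : J → F), ∑ l, Bm m B u l * h l = ∑ l, B u l * h l := by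
    intro u hu h
    refine sum_congr rfl fun l _ => ?_
    unfold Bm
    rw [if_pos hu]
  have e4 : ∀ u, u ∉ m → ∀ (h : U → F) (h' : J → F) (a : F),
      ∑ v, Am m A u v * h v + ∑ l, Bm m B u l * h' l + fm m f u * a = a := by
    intro u hu h h' a
    unfold Am Bm fm
    simp only [hu, false_and, if_false, zero_mul, sum_const_zero, zero_add, one_mul]
  unfold SolM
  simp only
  constructor
  · rintro ⟨h1, h2⟩
    refine ⟨fun u hu => zx_not U1 x hu, ?_, fun k hk => zx_not J1 y hk, ?_, ?_⟩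
    · intro u hu
      by_cases hu1 : u ∈ U1
      · have h3 := h1 ⟨u, hu1⟩
        rw [← row1 U1 J1 (Am m A) (Bm m B) (Cm m C) (fm m f) (Am_symm hA) (Bm_eq hB)] at h3
        rw [e4 u hu] at h3
        exact h3
      · exact zx_not U1 x hu1
    · intro u hu1 hu
      have h3 := h1 ⟨u, hu1⟩
      rw [← row1 U1 J1 (Am m A) (Bm m B) (Cm m C) (fm m f) (Am_symm hA) (Bm_eq hB)] at h3
      rw [e1 u hu, e3 u hu] at h3
      unfold fm at h3
      rw [if_pos hu] at h3
      exact h3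
    · intro k hk
      have h3 := h2 ⟨k, hk⟩
      rw [← row2 U1 J1 (Cm m C) g α x y ⟨k, hk⟩, e2] at h3
      exact h3
  · rintro ⟨-, h1, -, h2, h3⟩
    constructor
    · intro u
      rw [← row1 U1 J1 (Am m A) (Bm m B) (Cm m C) (fm m f) (Am_symm hA) (Bm_eq hB)]
      by_cases hu : (u : U) ∈ m
      · rw [e1 u hu, e3 u hu]
        unfold fm
        rw [if_pos hu]
        exact h2 u u.2 hu
      · rw [e4 u hu]
        exact h1 u hu
    · intro k
      rw [← row2 U1 J1 (Cm m C) g α x y k, e2]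
      exact h3 k k.2

/-- the number of the solutions in terms of the corank -/
theorem nS_eq (U1 : Finset U) (J1 : Finset J) (m : Finset U)
    (A : U → U → F) (B : U → J → F) (C : J → U → F) (f : U → F) (g : J → F)
    (hA : ∀ u ∈ U1, ∀ v ∈ U1, A u v = A v u) (hB : ∀ u ∈ U1, ∀ k ∈ J1, B u k = C k u)
    (α : prs J1 → F) :
    nS m U1 J1 A B C (Pool.Agent.Y703.CQ.ext α) f g =
      2 ^ finrank (ZMod 2) (LinearMap.ker (BM U1 J1 m A B C f g + mf 0 0 (pa J1 α).1)) := by
  have h0 : Nat.card (LinearMap.ker (BM U1 J1 m A B C f g + mf 0 0 (pa J1 α).1)) =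
      2 ^ finrank (ZMod 2) (LinearMap.ker (BM U1 J1 m A B C f g + mf 0 0 (pa J1 α).1)) := by
    rw [Module.natCard_eq_pow_finrank (K := ZMod 2), Nat.card_zmod]
  rw [← h0]
  unfold nS
  refine (Nat.card_congr {
    toFun := fun w => ⟨(zx U1 w.1.1, zx J1 w.1.2),
      (mem_ker_iff U1 J1 m A B C f g hA hB α w.1.1 w.1.2).1 w.2⟩
    invFun := fun w => ⟨(fun u => w.1.1 u, fun k => w.1.2 k), by
      rw [mem_ker_iff U1 J1 m A B C f g hA hB α]
      have e1 : zx U1 (fun u => w.1.1 u) = w.1.1 := by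
        funext u
        by_cases hu : u ∈ U1
        · exact zx_of U1 (fun u => w.1.1 u) ⟨u, hu⟩
        · rw [zx_not U1 _ hu, w.2.1 u hu]
      have e2 : zx J1 (fun u => w.1.2 u) = w.1.2 := by
        funext u
        by_cases hu : u ∈ J1
        · exact zx_of J1 (fun u => w.1.2 u) ⟨u, hu⟩
        · rw [zx_not J1 _ hu, w.2.2.2.1 u hu]
      rw [e1, e2]
      exact w.2⟩
    left_inv := fun w => Subtype.ext (Prod.ext (funext fun u => zx_of U1 _ u)
      (funext fun u => zx_of J1 _ u))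
    right_inv := fun w => Subtype.ext (Prod.ext (funext fun u => ?_) (funext fun u => ?_)) }).symm
  · by_cases hu : u ∈ U1
    · exact zx_of U1 (fun u => w.1.1 u) ⟨u, hu⟩
    · rw [w.2.1 u hu]
      exact zx_not U1 _ hu
  · by_cases hu : u ∈ J1
    · exact zx_of J1 (fun u => w.1.2 u) ⟨u, hu⟩
    · rw [w.2.2.2.1 u hu]
      exact zx_not J1 _ hu

/-- **the probability that the random symmetric completions have given coranks for all the masks** -/
theorem t_KLA (M : ℕ) (r : Fin M → ℕ) (ε : ℝ) (hε : 0 < ε) : ∃ R : ℕ, ∀ (U J : Type) [Fintype U]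
    [Fintype J] [LinearOrder J] (U1 : Finset U) (J1 : Finset J), (∃ l, l ∉ J1) →
    ∀ (m : Fin M → Finset U)
    (A : U → U → ZMod 2) (B : U → J → ZMod 2) (C : J → U → ZMod 2) (f : U → ZMod 2)
    (g : J → ZMod 2),
    (∀ u ∈ U1, ∀ v ∈ U1, A u v = A v u) → (∀ u ∈ U1, ∀ k ∈ J1, B u k = C k u) →
    (∀ w : U → ZMod 2, (∀ u, u ∉ U1 → w u = 0) → (∃ u, w u ≠ 0) →
      ∃ k ∈ J1, ∑ u, w u * C k u ≠ 0) →
    2 * U1.card + R ≤ J1.card →
    (∀ i j, i ≠ j → 2 * U1.card + R ≤
      (J1.filter fun k => ∑ u ∈ m i, C k u + ∑ u ∈ m j, C k u ≠ 0).card) →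
    |((univ.filter fun α : prs J1 → ZMod 2 =>
      ∀ i, nS (m i) U1 J1 A B C (Pool.Agent.Y703.CQ.ext α) f g = 2 ^ r i).card : ℝ) /
        2 ^ (prs J1).card - ∏ i, pr (r i)| ≤ ε := by
  obtain ⟨R, hR⟩ := thmK M r ε hε
  refine ⟨R, ?_⟩
  intro U J _ _ _ U1 J1 hJ m A B C f g hA hB hC hJ1 hm
  have e1 : finrank F (U1 → F) = U1.card := by
    rw [finrank_fintype_fun_eq_card, Fintype.card_coe]
  have e2 : finrank F (J1 → F) = J1.card := by
    rw [finrank_fintype_fun_eq_card, Fintype.card_coe]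
  have e3 : finrank (ZMod 2) ((U1 → F) × (J1 → F)) = U1.card + J1.card := by
    rw [Module.finrank_prod, e1, e2]
  have e4 : finrank (ZMod 2) (LinearMap.ker (LinearMap.snd (ZMod 2) (U1 → F) (J1 → F))) =
      U1.card := by
    have h1 := LinearMap.finrank_range_add_finrank_ker (LinearMap.snd (ZMod 2) (U1 → F) (J1 → F))
    rw [LinearMap.range_eq_top.2 (LinearMap.snd_surjective), finrank_top, e2, e3] at h1
    omega
  have key := hR ((U1 → F) × (J1 → F)) (LinearMap.ker (LinearMap.snd (ZMod 2) (U1 → F) (J1 → F)))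
    (fun k => BM U1 J1 (m k) A B C f g) (2 * U1.card + (J1.card - (2 * U1.card + R))) J1.card
    (fun k => BM_symm U1 J1 (m k) A B C f g hA) (fun k => nd_BM (m k) hC)
    (fun k l hkl => (finrank_JJ_le (m k) (m l)).trans (by
      have h5 := hm k l hkl
      have h6 : (J1.filter fun j => dd (m k) (m l) C j ≠ 0).card =
        (J1.filter fun k' => ∑ u ∈ m k, C k' u + ∑ u ∈ m l, C k' u ≠ 0).card := rfl
      omega)) (by rw [e4]; omega) (by rw [e3, e4]) (by omega)
  have hpos : 0 < ((YY (LinearMap.ker (LinearMap.snd (ZMod 2) (U1 → F) (J1 → F)))).card : ℝ) := by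
    rw [Nat.cast_pos, Finset.card_pos]
    refine ⟨0, mem_YY.2 ⟨fun _ _ => rfl, fun _ _ => rfl⟩⟩
  obtain ⟨P, hP⟩ : ∃ P : LinearMap.BilinForm (ZMod 2) ((U1 → F) × (J1 → F)) → Prop,
      ∀ Y, P Y ↔ ∀ k, finrank (ZMod 2) (LinearMap.ker (BM U1 J1 (m k) A B C f g + Y)) = r k :=
    ⟨_, fun _ => Iff.rfl⟩
  have h1 : |(((YY (LinearMap.ker (LinearMap.snd (ZMod 2) (U1 → F) (J1 → F)))).filter P).card : ℝ) /
      ((YY (LinearMap.ker (LinearMap.snd (ZMod 2) (U1 → F) (J1 → F)))).card : ℝ) -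
        ∏ i, pr (r i)| ≤ ε := by
    rw [div_sub' hpos.ne', abs_div, abs_of_pos hpos, div_le_iff₀ hpos, mul_comm _ (∏ i, pr (r i))]
    refine le_trans (le_of_eq ?_) key
    congr 4
    ext Y
    simp only [Finset.mem_filter, hP]
  rw [yy_card] at h1
  refine le_trans (le_of_eq ?_) h1
  congr 2
  rw [← Pool.Agent.Y759.CX.fr_comp (pa J1) (pa_surj J1 hJ)]
  unfold Pool.Agent.Y759.CX.fr
  have h6 : Nat.card (prs J1 → F) = 2 ^ (prs J1).card := by
    rw [Nat.card_fun, Nat.card_eq_fintype_card, Nat.card_eq_fintype_card, ZMod.card,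
      Fintype.card_coe]
  rw [h6, Nat.card_eq_fintype_card, Fintype.card_subtype]
  push_cast
  congr 3
  ext α
  simp only [Finset.mem_filter, hP, nS_eq U1 J1 _ A B C f g hA hB α]
  refine and_congr_right fun _ => forall_congr' fun i => ?_
  exact ⟨fun h => Nat.pow_right_injective le_rfl h, fun h => by rw [h]⟩

end main

end Pool.Agent.X99.CK
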