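import Pool.Agent.X99.GJ.Asy
import Pool.Agent.X99.CK.LA

/-! The joint count of the coranks in a box (after `Pool.Agent.X99.GJ.Box`). -/

set_option autoImplicit false

open scoped Classical

namespace Pool.Agent.X99.CK

open Finset
open Pool.Agent.Y703.CQ (nr sg prs HB S_EQ ext c2)
open Pool.Agent.X99.GQ
open Pool.Agent.X99.GJ

variable {P : Par}

/-- the kernel vectors of the matrix of the set `S`, supported on the split primes of `S` -/
def SolK (P : Par) (f : ℕ → ZMod 2) (S : Finset ℕ) (x : ℕ → ZMod 2) : Prop :=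
  (∀ q, ¬ (q ∈ S ∧ q % P.N ∈ P.A) → x q = 0) ∧ Sol P f S x

/-- the number of the kernel vectors -/
noncomputable def nK (P : Par) (f : ℕ → ZMod 2) (S : Finset ℕ) : ℕ :=
  Nat.card {x : ℕ → ZMod 2 // SolK P f S x}

/-- the corank of the matrix of `S ∆ U` is `r U` for all the masks -/
def GK (P : Par) (f : ℕ → ZMod 2) (𝒰 : Finset (Finset ℕ)) (r : Finset ℕ → ℕ) (S : Finset ℕ) : Prop :=
  ∀ U ∈ 𝒰, nK P f (symmDiff S U) = 2 ^ r U

section one
variable {ι : Type} [Fintype ι] [LinearOrder ι] {J1 : Finset ι} {S₁ T : Finset ℕ} {p : ι → ℕ}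
  (f : ℕ → ZMod 2)

theorem nK_eq (hO : Ok P) (hT : T ⊆ S₁) (hp : Function.Injective p)
    (hpr : ∀ i, (p i).Prime ∧ p i ≠ 2)
    (hd : ∀ i, p i ∉ S₁) (hJ : ∀ i, p i % P.N ∈ P.A ↔ i ∈ J1) :
    nK P f (T ∪ univ.image p) = nS (pt S₁ T) (ue P S₁) J1
      (fun u v : S₁ => nr u v) (fun (u : S₁) l => nr u (p l)) (fun k (u : S₁) => nr (p k) u)
      (Pool.Agent.Y703.CQ.ext fun e : prs J1 => nr (p e.1.1) (p e.1.2))
      (fun u : S₁ => f u) (fun k => f (p k)) := by
  have hdT : ∀ i, p i ∉ T := fun i hi => hd i (hT hi)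
  have hsol : ∀ x : ℕ → ZMod 2, Sol P f (T ∪ univ.image p) x ↔
      (∀ u : S₁, (u : ℕ) ∈ T → (u : ℕ) % P.N ∈ P.A →
        ∑ v ∈ pt S₁ T, nr u v * (cu P x v + x u) +
        ∑ l, nr u (p l) * (cu P x (p l) + x u) + f u * x u = 0) ∧
      (∀ k ∈ J1, ∑ u ∈ pt S₁ T, nr (p k) u * (cu P x u + x (p k)) +
        ∑ l, Pool.Agent.Y703.CQ.ext (fun e : prs J1 => nr (p e.1.1) (p e.1.2)) k l *
          (cu P x (p l) + x (p k)) + f (p k) * x (p k) = 0) := by
    intro x
    have hs : ∀ h : ℕ → ZMod 2, ∑ x ∈ T ∪ univ.image p, h x =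
        ∑ u ∈ pt S₁ T, h u + ∑ l, h (p l) := by
      intro h
      rw [sum_un hp hdT, Finset.sum_coe_sort T (fun x => h x), sum_pt hT]
    unfold Sol
    constructor
    · intro h
      refine ⟨fun u huT hu => ?_, fun k hk => ?_⟩
      · have := h u (Finset.mem_union_left _ huT) hu
        rw [hs] at this
        exact this
      · have := h (p k) (Finset.mem_union_right _ (Finset.mem_image_of_mem _ (Finset.mem_univ _)))
          ((hJ k).2 hk)
        rw [hs] at this
        rw [ext_sum hO hpr hJ k hk (fun l => cu P x (p l))]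
        exact this
    · rintro ⟨h1, h2⟩ y hy hy1
      rw [hs]
      rw [Finset.mem_union, Finset.mem_image] at hy
      rcases hy with hy | ⟨k, -, rfl⟩
      · exact h1 ⟨y, hT hy⟩ hy hy1
      · have hk := (hJ k).1 hy1
        have := h2 k hk
        rw [ext_sum hO hpr hJ k hk (fun l => cu P x (p l))] at this
        exact this
  -- a vector supported on the split primes
  have hcu : ∀ x : ℕ → ZMod 2, (∀ q, ¬ (q ∈ T ∪ univ.image p ∧ q % P.N ∈ P.A) → x q = 0) →
      ∀ q, cu P x q = x q := by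
    intro x hx q
    unfold cu
    split_ifs with h8
    · rfl
    · exact (hx q fun h => h8 h.2).symm
  have hmem : ∀ q, q ∈ T ∪ univ.image p ↔ q ∈ T ∨ ∃ l, p l = q := by
    intro q
    rw [Finset.mem_union, Finset.mem_image]
    simp
  unfold nK nS
  let inv : ((S₁ → ZMod 2) × (ι → ZMod 2)) → ℕ → ZMod 2 := fun w n =>
    if h : n ∈ S₁ then w.1 ⟨n, h⟩ else if h : ∃ l, p l = n then w.2 h.choose else 0
  have i1 : ∀ w (u : S₁), inv w u = w.1 u := by
    intro w u
    simp only [inv]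
    rw [dif_pos u.2]
  have i2 : ∀ w l, inv w (p l) = w.2 l := by
    intro w l
    have hex : ∃ l', p l' = p l := ⟨l, rfl⟩
    simp only [inv]
    rw [dif_neg (hd l), dif_pos hex]
    exact congrArg w.2 (hp hex.choose_spec)
  have i3 : ∀ w n, n ∉ S₁ → (∀ l, p l ≠ n) → inv w n = 0 := by
    intro w n h1 h2
    simp only [inv]
    rw [dif_neg h1, dif_neg fun ⟨l, hl⟩ => h2 l hl]
  refine Nat.card_congr {
    toFun := fun x => ⟨(fun u => x.1 u, fun l => x.1 (p l)), ?_⟩
    invFun := fun w => ⟨inv w.1, ?_⟩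
    left_inv := fun x => ?_
    right_inv := fun w => ?_ }
  · obtain ⟨x, hx0, hx⟩ := x
    have hc := hcu x hx0
    rw [hsol] at hx
    refine ⟨fun u hu => ?_, fun u hu => ?_, fun k hk => ?_, fun u hu huT => ?_, fun k hk => ?_⟩
    · exact hx0 _ fun h => hu ((mem_ue u).2 h.2)
    · refine hx0 _ fun h => ?_
      rcases (hmem _).1 h.1 with h1 | ⟨l, h1⟩
      · exact hu ((mem_pt u).2 h1)
      · exact hd l (h1 ▸ u.2)
    · exact hx0 _ fun h => hk ((hJ k).1 h.2)
    · have := hx.1 u ((mem_pt u).1 huT) ((mem_ue u).1 hu)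
      simp only [hc] at this
      exact this
    · have := hx.2 k hk
      simp only [hc] at this
      exact this
  · obtain ⟨w, h1, h2, h3, h4, h5⟩ := w
    have hsup : ∀ q, ¬ (q ∈ T ∪ univ.image p ∧ q % P.N ∈ P.A) → inv w q = 0 := by
      intro q hq
      by_cases hqS : q ∈ S₁
      · have e := i1 w ⟨q, hqS⟩
        rw [show inv w q = w.1 ⟨q, hqS⟩ from e]
        by_cases hqT : q ∈ T
        · refine h1 _ fun h => hq ⟨(hmem q).2 (Or.inl hqT), (mem_ue _).1 h⟩
        · exact h2 _ fun h => hqT ((mem_pt _).1 h)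
      · by_cases hl : ∃ l, p l = q
        · obtain ⟨l, rfl⟩ := hl
          rw [i2]
          exact h3 l fun h => hq ⟨(hmem _).2 (Or.inr ⟨l, rfl⟩), (hJ l).2 h⟩
        · exact i3 w q hqS fun l h => hl ⟨l, h⟩
    have hc := hcu _ hsup
    refine ⟨hsup, ?_⟩
    rw [hsol]
    refine ⟨fun u huT hu => ?_, fun k hk => ?_⟩
    · simp only [hc, i1, i2]
      exact h4 u ((mem_ue u).2 hu) ((mem_pt u).2 huT)
    · simp only [hc, i1, i2]
      exact h5 k hk
  · refine Subtype.ext (funext fun q => ?_)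
    obtain ⟨x, hx0, hx⟩ := x
    by_cases hqS : q ∈ S₁
    · exact i1 _ ⟨q, hqS⟩
    · by_cases hl : ∃ l, p l = q
      · obtain ⟨l, rfl⟩ := hl
        exact i2 _ l
      · have h0 : x q = 0 := hx0 q fun h => by
          rcases (hmem _).1 h.1 with h1 | h1
          · exact hqS (hT h1)
          · exact hl h1
        show inv _ q = x q
        rw [h0]
        exact i3 _ q hqS fun l h => hl ⟨l, h⟩
  · refine Subtype.ext (Prod.ext (funext fun u => ?_) (funext fun l => ?_))
    · exact i1 _ u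
    · exact i2 _ l

end one

/-- **The joint count of the coranks in a box.** -/
theorem t_KBOX (hO : Ok P) (hEQ : S_EQ) (f : ℕ → ZMod 2) {W : Finset ℕ}
    {𝒰 : Finset (Finset ℕ)} (hUW : ∀ U ∈ 𝒰, U ⊆ W) (r : Finset ℕ → ℕ) :
    BXA P W 𝒰 (GK P f 𝒰 r) (∏ U ∈ 𝒰, pr (r U)) := by
  intro ε hε
  obtain ⟨M, hM⟩ : ∃ M, 𝒰.card = M := ⟨_, rfl⟩
  -- the masks
  set e : 𝒰 ≃ Fin M := Finset.equivFinOfCardEq hM with he
  set Vm : Fin M → Finset ℕ := fun i => ((e.symm i : 𝒰) : Finset ℕ) with hVm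
  obtain ⟨R₀, hLA⟩ := t_KLA M (fun i => r (Vm i)) ε hε
  have hcc : ∏ i, pr (r (Vm i)) = ∏ U ∈ 𝒰, pr (r U) := by
    rw [← Finset.prod_coe_sort 𝒰 (fun U => pr (r U))]
    exact Equiv.prod_comp e.symm (fun U : 𝒰 => pr (r U))
  rw [hcc] at hLA
  set cc : ℝ := ∏ U ∈ 𝒰, pr (r U) with hccd
  refine ⟨R₀, ?_⟩
  intro ι _ _ J1 C X κ S₀ hκ hCX hHB hS₁ hC hdis hne
  set S₁ := S₀ ∪ W with hS₁d
  set R : ℝ := 2 ^ (prs J1).card * (κ * ∏ j, (X j : ℝ)) with hR
  have hR0 : 0 ≤ R := mul_nonneg (by positivity)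
    (mul_nonneg hκ (Finset.prod_nonneg fun j _ => by positivity))
  have hVU : ∀ i, Vm i ∈ 𝒰 := fun i => (e.symm i).2
  have hVW : ∀ i, Vm i ⊆ W := fun i => hUW _ (hVU i)
  have hVi : ∀ i j, i ≠ j → Vm i ≠ Vm j := by
    intro i j hij h
    exact hij (e.symm.injective (Subtype.ext h))
  have hVs : ∀ U ∈ 𝒰, ∃ i, Vm i = U := by
    intro U hU
    refine ⟨e ⟨U, hU⟩, ?_⟩
    simp only [hVm, Equiv.symm_apply_apply]
  -- facts on tuples
  have hinj : ∀ p ∈ Fintype.piFinset C, Function.Injective p := by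
    intro p hp i j hij
    rw [Fintype.mem_piFinset] at hp
    by_contra hne
    have h1 := Finset.disjoint_left.1 (hdis i j hne) (hp i)
    rw [hij] at h1
    exact h1 (hp j)
  have hJ : ∀ p ∈ Fintype.piFinset C, ∀ i, p i % P.N ∈ P.A ↔ i ∈ J1 := by
    intro p hp i
    rw [Fintype.mem_piFinset] at hp
    exact (hC i _ (hp i)).2.2.2.symm
  have hd : ∀ p ∈ Fintype.piFinset C, ∀ i, p i ∉ S₁ := by
    intro p hp i
    rw [Fintype.mem_piFinset] at hp
    exact (hC i _ (hp i)).2.2.1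
  have hpr : ∀ p ∈ Fintype.piFinset C, ∀ i, (p i).Prime ∧ p i ≠ 2 := by
    intro p hp i
    rw [Fintype.mem_piFinset] at hp
    exact ⟨(hC i _ (hp i)).1, (hC i _ (hp i)).2.1⟩
  have hU1 : (ue P S₁).card ≤ S₁.card := by
    refine (Finset.card_le_univ _).trans ?_
    rw [Fintype.card_coe]
  have hgd : ∀ p ∈ Fintype.piFinset C, (GK P f 𝒰 r (S₀ ∪ univ.image p) ↔
      ∀ i, nS (pt S₁ (symmDiff S₀ (Vm i))) (ue P S₁) J1
      (fun u v : S₁ => nr u v) (fun (u : S₁) l => nr u (p l)) (fun k (u : S₁) => nr (p k) u)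
      (Pool.Agent.Y703.CQ.ext fun e : prs J1 => nr (p e.1.1) (p e.1.2))
      (fun u : S₁ => f u) (fun k => f (p k)) = 2 ^ r (Vm i)) := by
    intro p hp
    have hP : ∀ x ∈ univ.image p, x ∉ S₀ ∪ W := by
      intro x hx
      rw [Finset.mem_image] at hx
      obtain ⟨i, -, rfl⟩ := hx
      exact hd p hp i
    have h1 : ∀ i, nK P f (symmDiff (S₀ ∪ univ.image p) (Vm i)) =
        nS (pt S₁ (symmDiff S₀ (Vm i))) (ue P S₁) J1
        (fun u v : S₁ => nr u v) (fun (u : S₁) l => nr u (p l)) (fun k (u : S₁) => nr (p k) u)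
        (Pool.Agent.Y703.CQ.ext fun e : prs J1 => nr (p e.1.1) (p e.1.2))
        (fun u : S₁ => f u) (fun k => f (p k)) := by
      intro i
      rw [sd_union (hVW i) hP]
      exact nK_eq f hO (sd_sub (hVW i)) (hinj p hp) (hpr p hp) (hd p hp) (hJ p hp)
    unfold GK
    constructor
    · intro h i
      rw [← h1 i]
      exact h _ (hVU i)
    · intro h U hU
      obtain ⟨i, rfl⟩ := hVs U hU
      rw [h1 i]
      exact h i
  -- the part with given labels
  have h1 : ∀ β : ι → Lb S₁, LJ P R₀ S₁ 𝒰 J1 β →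
      |(((Fintype.piFinset C).filter fun p => (fun i => lb f S₁ (p i)) = β ∧
          GK P f 𝒰 r (S₀ ∪ univ.image p)).card : ℝ) -
        cc * (((Fintype.piFinset C).filter fun p =>
          (fun i => lb f S₁ (p i)) = β).card : ℝ)| ≤
      ε * (((Fintype.piFinset C).filter fun p => (fun i => lb f S₁ (p i)) = β).card : ℝ) + R := by
    intro β hβ
    by_cases hemp : ((Fintype.piFinset C).filter fun p => (fun i => lb f S₁ (p i)) = β) = ∅
    · have he2 : ((Fintype.piFinset C).filter fun p => (fun i => lb f S₁ (p i)) = β ∧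
          GK P f 𝒰 r (S₀ ∪ univ.image p)) = ∅ := by
        rw [← Finset.filter_filter, hemp, Finset.filter_empty]
      rw [he2, hemp]
      simpa using hR0
    obtain ⟨p₀, hp₀⟩ := Finset.nonempty_iff_ne_empty.2 hemp
    rw [Finset.mem_filter] at hp₀
    obtain ⟨hp₀, hp₀β⟩ := hp₀
    set C' : ι → Finset ℕ := fun i => (C i).filter fun q => lb f S₁ q = β i with hC'
    have hpi : (Fintype.piFinset C).filter (fun p => (fun i => lb f S₁ (p i)) = β) =
        Fintype.piFinset C' := by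
      ext p
      simp only [Finset.mem_filter, Fintype.mem_piFinset, hC']
      constructor
      · rintro ⟨h2, h3⟩ i
        exact ⟨h2 i, congrFun h3 i⟩
      · intro h2
        exact ⟨fun i => (h2 i).1, funext fun i => (h2 i).2⟩
    have h2 := hLA S₁ ι (ue P S₁) J1 hne (fun i => pt S₁ (symmDiff S₀ (Vm i)))
      (fun u v => nr u v) (fun u l => (β l).1 u) (fun k u => (β k).2.1 u) (fun u => f u)
      (fun k => (β k).2.2)
      (by
        intro u hu v hv
        exact nr_symm (hS₁ u u.2).1 (hO.mod4 ((mem_ue u).1 hu)) (hS₁ v v.2).1 (hS₁ v v.2).2)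
      (by
        intro u hu k hk
        have h3 := congrFun hp₀β k
        rw [← h3]
        exact nr_symm (hS₁ u u.2).1 (hO.mod4 ((mem_ue u).1 hu)) (hpr p₀ hp₀ k).1 (hpr p₀ hp₀ k).2)
      (by
        rintro w hw0 ⟨u, hu⟩
        have hu8 : (u : ℕ) % P.N ∈ P.A := by
          by_contra h8
          exact hu (hw0 u fun hu' => h8 ((mem_ue u).1 hu'))
        obtain ⟨k, hk, hk2⟩ := hβ.1 w ⟨u, hu8, hu⟩
        refine ⟨k, hk, ?_⟩
        rw [Finset.sum_filter] at hk2
        intro h0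
        apply hk2
        refine Eq.trans ?_ h0
        refine Finset.sum_congr rfl fun v _ => ?_
        split_ifs with h8
        · rfl
        · rw [hw0 v fun hv => h8 ((mem_ue v).1 hv), zero_mul])
      (by
        have h3 := hβ.2.1
        omega)
      (by
        intro i j hij
        have h3 := hβ.2.2 (Vm i) (hVU i) (Vm j) (hVU j) (hVi i j hij)
        have h4 : (J1.filter fun k => ∑ u ∈ pt S₁ (symmDiff S₀ (Vm i)), (β k).2.1 u +
            ∑ u ∈ pt S₁ (symmDiff S₀ (Vm j)), (β k).2.1 u ≠ 0) =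
            (J1.filter fun k => ∑ u ∈ pt S₁ (symmDiff (Vm i) (Vm j)), (β k).2.1 u ≠ 0) := by
          refine Finset.filter_congr fun k _ => ?_
          rw [add_pt, sd_sd]
        rw [h4]
        omega)
    obtain ⟨Q, hQ⟩ : ∃ Q : (prs J1 → ZMod 2) → Prop, ∀ α, Q α ↔ ∀ i,
      nS (pt S₁ (symmDiff S₀ (Vm i))) (ue P S₁)
      J1 (fun u v : S₁ => nr u v) (fun (u : S₁) l => (β l).1 u) (fun k (u : S₁) => (β k).2.1 u)
      (Pool.Agent.Y703.CQ.ext α) (fun u : S₁ => f u) (fun k => (β k).2.2) = 2 ^ r (Vm i) :=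
      ⟨_, fun _ => Iff.rfl⟩
    have h3 := hEQ ι J1 C' X κ hκ
      (fun i => (Finset.card_le_card (Finset.filter_subset _ _)).trans (hCX i))
      (HB_sub hHB fun i q => lb f S₁ q = β i) Q
    have h4 : ((Fintype.piFinset C).filter fun p => (fun i => lb f S₁ (p i)) = β ∧
        GK P f 𝒰 r (S₀ ∪ univ.image p)) = ((Fintype.piFinset C').filter fun p =>
          Q fun e => nr (p e.1.1) (p e.1.2)) := by
      rw [← hpi, Finset.filter_filter]
      refine Finset.filter_congr fun p hp => ?_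
      refine and_congr_right fun hl => ?_
      rw [hgd p hp, hQ]
      subst hl
      exact Iff.rfl
    have h5 : (((Fintype.piFinset C').card : ℕ) : ℝ) = ∏ j, ((C' j).card : ℝ) := by
      rw [Fintype.card_piFinset]
      push_cast
      rfl
    rw [h4, hpi, h5]
    have h2' : |((univ.filter Q).card : ℝ) / 2 ^ (prs J1).card - cc| ≤ ε := by
      rw [Finset.filter_congr fun α _ => hQ α]
      exact h2
    set n : ℝ := (((Fintype.piFinset C').filter fun p =>
          Q fun e => nr (p e.1.1) (p e.1.2)).card : ℝ) with hn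
    set q : ℝ := ((univ.filter Q).card : ℝ) / 2 ^ (prs J1).card with hq
    set P' : ℝ := ∏ j, ((C' j).card : ℝ) with hP
    have hP0 : 0 ≤ P' := Finset.prod_nonneg fun j _ => by positivity
    have h6 : |n - cc * P'| ≤ |n - q * P'| + |q - cc| * P' := by
      have h7 : n - cc * P' = (n - q * P') + (q - cc) * P' := by ring
      have h8 : |(q - cc) * P'| = |q - cc| * P' := by rw [abs_mul, abs_of_nonneg hP0]
      rw [h7, ← h8]
      exact abs_add_le _ _
    have h7 : |q - cc| * P' ≤ ε * P' := mul_le_mul_of_nonneg_right h2' hP0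
    have h8 : |n - q * P'| ≤ R := h3
    linarith
  -- sum over the labels
  set LL := univ.filter (fun β : ι → Lb S₁ => LJ P R₀ S₁ 𝒰 J1 β) with hLL
  have hfib : ∀ T : (ι → ℕ) → Prop,
      (((Fintype.piFinset C).filter fun p => NdJ P R₀ W 𝒰 S₀ (univ.image p) ∧ T p).card : ℝ) =
      ∑ β ∈ LL, (((Fintype.piFinset C).filter fun p =>
        (fun i => lb f S₁ (p i)) = β ∧ T p).card : ℝ) := by
    intro T
    rw [Finset.card_eq_sum_card_fiberwise (f := fun (p : ι → ℕ) (i : ι) => lb f S₁ (p i))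
      (t := LL) (by
        intro p hp
        rw [Finset.mem_coe, Finset.mem_filter] at hp
        rw [Finset.mem_coe, hLL, Finset.mem_filter]
        exact ⟨Finset.mem_univ _, (ndJ_iff f R₀ hUW (hinj p hp.1) (hJ p hp.1)).1 hp.2.1⟩)]
    push_cast
    refine Finset.sum_congr rfl fun β hβ => ?_
    rw [hLL, Finset.mem_filter] at hβ
    congr 2
    ext p
    simp only [Finset.mem_filter]
    constructor
    · rintro ⟨⟨h3, h4, h4'⟩, h5⟩
      exact ⟨h3, h5, h4'⟩
    · rintro ⟨h3, h4, h5⟩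
      refine ⟨⟨h3, ?_, h5⟩, h4⟩
      refine (ndJ_iff f R₀ hUW (hinj p h3) (hJ p h3)).2 ?_
      rw [← hS₁d, h4]
      exact hβ.2
  have hf1 := hfib fun p => GK P f 𝒰 r (S₀ ∪ univ.image p)
  have hf2 := hfib fun _ => True
  simp only [and_true] at hf2
  rw [hf1, hf2, Finset.mul_sum, ← Finset.sum_sub_distrib]
  refine (Finset.abs_sum_le_sum_abs _ _).trans ?_
  refine (Finset.sum_le_sum fun β hβ => h1 β (Finset.mem_filter.1 hβ).2).trans ?_
  rw [Finset.sum_add_distrib, ← Finset.mul_sum, Finset.sum_const, nsmul_eq_mul]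
  have h5 : ((LL.card : ℕ) : ℝ) ≤ 2 ^ ((2 * S₁.card + 1) * Fintype.card ι) := by
    have h6 : LL.card ≤ Fintype.card (ι → Lb S₁) := Finset.card_le_univ _
    rw [Fintype.card_fun, Fintype.card_prod, Fintype.card_prod, Fintype.card_fun, ZMod.card,
      Fintype.card_coe, ← pow_succ, ← pow_add, ← pow_mul] at h6
    have h7 : (S₁.card + (S₁.card + 1)) * Fintype.card ι = (2 * S₁.card + 1) * Fintype.card ι := by
      ring
    rw [h7] at h6
    exact_mod_cast h6
  have h6 := mul_le_mul_of_nonneg_right h5 hR0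
  rw [pow_add, mul_assoc]
  linarith

/-- **the joint law of the coranks** -/
theorem KDEN (hO : Ok P) {h : ℝ} (hh0 : 0 ≤ h) (hH : HAL P h) (hh : h < al P)
    {W : Finset ℕ} {𝒰 : Finset (Finset ℕ)} (hW : OkW P W 𝒰) (f : ℕ → ZMod 2)
    (r : Finset ℕ → ℕ) :
    Filter.Tendsto (fun X : ℕ => (((Icc 1 X).filter fun D => Squarefree D ∧ Cl P D.primeFactors ∧
        GK P f 𝒰 r D.primeFactors).card : ℝ) /
      (((Icc 1 X).filter fun D => Squarefree D ∧ Cl P D.primeFactors).card : ℝ)) Filter.atTop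
      (nhds (∏ U ∈ 𝒰, pr (r U))) :=
  law_num hO hh0 hH hh hW (Finset.prod_nonneg fun U _ => pr_nonneg _)
    (Finset.prod_le_one (fun U _ => pr_nonneg _) fun U _ => pr_le_one _)
    (t_KBOX hO Pool.Agent.Y356.CQ.t_EQ f hW.2 r)

end Pool.Agent.X99.CK
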