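import Pool.Agent.X99.CK.LocA
import Pool.Agent.X99.CK.Box
import Pool.Agent.X99.C49.Jnt

/-!
# The orders of the isogeny Selmer groups in terms of the corank
-/

set_option autoImplicit false
set_option linter.style.haveILetI false

open Finset

namespace Pool.Agent.X99.CK

open Pool.Agent.X99.C49
open Pool.Agent.Y700 (PC)
open Pool.Agent.X99.GQ (Par Ok HAL Cl Gd Sol Sp In cu)
open Pool.Agent.Y703.CQ (nr)

/-- the kernel -/
noncomputable def kerF (Q P : Finset ℕ) : Finset (Finset ℕ) := by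
  classical exact P.powerset.filter fun J => Ker Q P J

theorem mem_kerF {Q P J : Finset ℕ} : J ∈ kerF Q P ↔ Ker Q P J := by
  classical
  unfold kerF
  rw [Finset.mem_filter, Finset.mem_powerset]
  exact ⟨fun h => h.2, fun h => ⟨h.1, h⟩⟩

/-- the quartics -/
def SF (a b : ℤ) : Set ℤ :=
  {d : ℤ | Squarefree d ∧ d ∣ b ∧ Qu ℝ a b d ∧ ∀ (p : ℕ) [Fact p.Prime], Qu ℚ_[p] a b d}

/-- the classes of the kernel and their translates -/
noncomputable def img (c : ℤ) (Q P : Finset ℕ) : Finset ℤ :=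
  ((kerF Q P).image fun J => ((∏ q ∈ J, q : ℕ) : ℤ)) ∪
    ((kerF Q P).image fun J => c * ((∏ q ∈ J, q : ℕ) : ℤ))

theorem mem_img {c z : ℤ} {Q P : Finset ℕ} : z ∈ img c Q P ↔
    ∃ J, Ker Q P J ∧ (z = ((∏ q ∈ J, q : ℕ) : ℤ) ∨ z = c * ((∏ q ∈ J, q : ℕ) : ℤ)) := by
  unfold img
  rw [Finset.mem_union, Finset.mem_image, Finset.mem_image]
  constructor
  · rintro (⟨J, hJ, rfl⟩ | ⟨J, hJ, rfl⟩)
    · exact ⟨J, mem_kerF.1 hJ, Or.inl rfl⟩
    · exact ⟨J, mem_kerF.1 hJ, Or.inr rfl⟩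
  · rintro ⟨J, hJ, rfl | rfl⟩
    · exact Or.inl ⟨J, mem_kerF.2 hJ, rfl⟩
    · exact Or.inr ⟨J, mem_kerF.2 hJ, rfl⟩

theorem prod_inj {Q P : Finset ℕ} (H : Dat Q P) {J J' : Finset ℕ} (hJ : J ⊆ P) (hJ' : J' ⊆ P)
    (h : ((∏ q ∈ J, q : ℕ) : ℤ) = ((∏ q ∈ J', q : ℕ) : ℤ)) : J = J' := by
  have h1 : (∏ q ∈ J, q : ℕ) = ∏ q ∈ J', q := by exact_mod_cast h
  have h2 := congrArg Nat.primeFactors h1
  rwa [Nat.primeFactors_prod fun q hq => (H.hP q (hJ hq)).1,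
    Nat.primeFactors_prod fun q hq => (H.hP q (hJ' hq)).1] at h2

theorem card_img {c : ℤ} {Q P : Finset ℕ} (H : Dat Q P) (hc : c = 7 ∨ c = -7) :
    (img c Q P).card = 2 * (kerF Q P).card := by
  have hc0 : c ≠ 0 := by omega
  have hdis : Disjoint ((kerF Q P).image fun J => ((∏ q ∈ J, q : ℕ) : ℤ))
      ((kerF Q P).image fun J => c * ((∏ q ∈ J, q : ℕ) : ℤ)) := by
    rw [Finset.disjoint_left]
    intro z h1 h2
    rw [Finset.mem_image] at h1 h2
    obtain ⟨J, hJ, rfl⟩ := h1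
    obtain ⟨J', hJ', h3⟩ := h2
    have k1 := prodJ4 H (mem_kerF.1 hJ).1
    have k2 := prodJ4 H (mem_kerF.1 hJ').1
    have k3 : (0 : ℤ) ≤ ((∏ q ∈ J, q : ℕ) : ℤ) := Int.natCast_nonneg _
    have k4 : (0 : ℤ) ≤ ((∏ q ∈ J', q : ℕ) : ℤ) := Int.natCast_nonneg _
    rcases hc with rfl | rfl <;> omega
  unfold img
  rw [Finset.card_union_of_disjoint hdis, Finset.card_image_of_injOn, Finset.card_image_of_injOn]
  · ring
  · intro J hJ J' hJ' h
    simp only at h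
    exact prod_inj H (mem_kerF.1 (Finset.mem_coe.1 hJ)).1 (mem_kerF.1 (Finset.mem_coe.1 hJ')).1
      (mul_left_cancel₀ hc0 h)
  · intro J hJ J' hJ' h
    exact prod_inj H (mem_kerF.1 (Finset.mem_coe.1 hJ)).1 (mem_kerF.1 (Finset.mem_coe.1 hJ')).1 h

theorem prod_dvd_Mn {Q P J : Finset ℕ} (hJ : J ⊆ P) :
    ((∏ q ∈ J, q : ℕ) : ℤ) ∣ (Mn Q P : ℤ) := by
  rw [Int.natCast_dvd_natCast]
  exact Finset.prod_dvd_prod_of_subset _ _ _ (hJ.trans Finset.subset_union_right)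

theorem sqf7 {Q P J : Finset ℕ} (H : Dat Q P) (hM : Squarefree (Mn Q P)) (hJ : J ⊆ P) :
    Squarefree ((∏ q ∈ J, q : ℕ) : ℤ) ∧ Squarefree (7 * ((∏ q ∈ J, q : ℕ) : ℤ)) := by
  have h1 : Squarefree (∏ q ∈ J, q) := hM.squarefree_of_dvd
    (Finset.prod_dvd_prod_of_subset _ _ _ (hJ.trans Finset.subset_union_right))
  have h2 : Nat.Coprime 7 (∏ q ∈ J, q) := by
    rw [Nat.coprime_prod_right_iff]
    intro q hq
    obtain ⟨h3, h4, -⟩ := H.hP q (hJ hq)
    rw [Nat.coprime_primes (by norm_num) h3]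
    rintro rfl
    exact absurd h4 (by norm_num)
  refine ⟨Int.squarefree_natCast.2 h1, ?_⟩
  have h3 : Squarefree (7 * ∏ q ∈ J, q) :=
    (Nat.squarefree_mul h2).2 ⟨(by norm_num : Nat.Prime 7).squarefree, h1⟩
  have h4 : (7 * ((∏ q ∈ J, q : ℕ) : ℤ)) = ((7 * ∏ q ∈ J, q : ℕ) : ℤ) := by push_cast; ring
  rw [h4]
  exact Int.squarefree_natCast.2 h3

/-- **the first Selmer group** -/
theorem SF_A {Q P : Finset ℕ} (H : Dat Q P) (hM : Squarefree (Mn Q P)) :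
    SF (21 * (Mn Q P : ℤ)) (112 * (Mn Q P : ℤ) ^ 2) = (img 7 Q P : Set ℤ) := by
  have hM4 := Mn4 H
  have hM0' : (0 : ℤ) ≤ (Mn Q P : ℤ) := Int.natCast_nonneg _
  have hMpos : (0 : ℤ) < (Mn Q P : ℤ) := by omega
  have hb : (112 * (Mn Q P : ℤ) ^ 2 : ℤ) ≠ 0 := by positivity
  have hab : (21 * (Mn Q P : ℤ)) ^ 2 - 4 * (112 * (Mn Q P : ℤ) ^ 2) ≠ 0 := by nlinarith
  ext z
  rw [Finset.mem_coe, mem_img]
  constructor
  · rintro ⟨hz, hzb, hR, hp⟩
    have hz0 : z ≠ 0 := hz.ne_zero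
    have hLR := lp_of_qu (tp_real _ _) hzb hz0 (by exact_mod_cast hz0) (by exact_mod_cast hb) hR
    have hLp : ∀ (l : ℕ) [Fact l.Prime],
        PC (21 * (Mn Q P : ℤ)) (112 * (Mn Q P : ℤ) ^ 2) l z := fun l _ =>
      pc_of_lp hab (lp_of_qu (tp_padic l _ _) hzb hz0 (by exact_mod_cast hz0)
        (by exact_mod_cast hb) (hp l))
    refine selAK H hz ?_ hLp
    obtain ⟨X, Y, r, hX, hY, hr⟩ := hLR
    by_contra hcon
    push Not at hcon
    have hzR : (z : ℝ) ≤ 0 := by exact_mod_cast hcon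
    have hX1 : X < 0 := by
      refine lt_of_le_of_ne ?_ hX
      rw [hr]
      exact mul_nonpos_of_nonpos_of_nonneg hzR (sq_nonneg r)
    have hMR : (0 : ℝ) < ((Mn Q P : ℤ) : ℝ) := by exact_mod_cast hMpos
    generalize ((Mn Q P : ℤ)) = M at *
    push_cast at hY
    have h1 : 0 < X ^ 2 + 21 * M * X + 112 * (M : ℝ) ^ 2 := by
      nlinarith [sq_nonneg (2 * X + 21 * M), mul_pos hMR hMR]
    have h2 : X * (X ^ 2 + 21 * M * X + 112 * (M : ℝ) ^ 2) < 0 := mul_neg_of_neg_of_pos hX1 h1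
    nlinarith [sq_nonneg Y]
  · rintro ⟨J, hJ, hz⟩
    obtain ⟨s1, s2⟩ := sqf7 H hM hJ.1
    obtain ⟨l1, l2⟩ := locA H hJ
    obtain ⟨k, hk⟩ := prod_dvd_Mn (Q := Q) hJ.1
    rcases hz with hz | hz
    · have hdv : z ∣ 112 * (Mn Q P : ℤ) ^ 2 := by
        rw [hz]
        exact (Dvd.intro _ hk.symm).mul_left (112 * (Mn Q P : ℤ)) |>.trans
          (Dvd.intro_left 1 (by ring))
      rw [hz] at hdv ⊢
      exact ⟨s1, hdv, qu_of_lp hdv s1.ne_zero l2, fun p _ => qu_of_lp hdv s1.ne_zero (l1 p)⟩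
    · have hdv : z ∣ 112 * (Mn Q P : ℤ) ^ 2 := by
        rw [hz, hk]
        exact ⟨16 * k * (((∏ q ∈ J, q : ℕ) : ℤ) * k), by ring⟩
      rw [hz] at hdv ⊢
      have e : (112 * (Mn Q P : ℤ) ^ 2 : ℤ) = 7 * (4 * (Mn Q P : ℤ)) ^ 2 := by ring
      exact ⟨s2, hdv, qu_of_lp hdv s2.ne_zero (lp_mul (by exact_mod_cast hb) e l2),
        fun p _ => qu_of_lp hdv s2.ne_zero (lp_mul (by exact_mod_cast hb) e (l1 p))⟩

/-- **the second Selmer group** -/
theorem SF_B {Q P : Finset ℕ} (H : Dat Q P) (hM : Squarefree (Mn Q P)) :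
    SF (-42 * (Mn Q P : ℤ)) (-7 * (Mn Q P : ℤ) ^ 2) = (img (-7) Q P : Set ℤ) := by
  have hM4 := Mn4 H
  have hM0' : (0 : ℤ) ≤ (Mn Q P : ℤ) := Int.natCast_nonneg _
  have hMpos : (0 : ℤ) < (Mn Q P : ℤ) := by omega
  have hb : (-7 * (Mn Q P : ℤ) ^ 2 : ℤ) ≠ 0 := by
    have : 0 < (Mn Q P : ℤ) ^ 2 := by positivity
    omega
  have hab : (-42 * (Mn Q P : ℤ)) ^ 2 - 4 * (-7 * (Mn Q P : ℤ) ^ 2) ≠ 0 := by
    have : 0 < (Mn Q P : ℤ) ^ 2 := by positivity
    nlinarith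
  ext z
  rw [Finset.mem_coe, mem_img]
  constructor
  · rintro ⟨hz, hzb, -, hp⟩
    have hz0 : z ≠ 0 := hz.ne_zero
    refine selBK H hz fun l _ => ?_
    exact pc_of_lp hab (lp_of_qu (tp_padic l _ _) hzb hz0 (by exact_mod_cast hz0)
        (by exact_mod_cast hb) (hp l))
  · rintro ⟨J, hJ, hz⟩
    obtain ⟨s1, s2⟩ := sqf7 H hM hJ.1
    obtain ⟨l1, l2⟩ := locB H hJ
    obtain ⟨k, hk⟩ := prod_dvd_Mn (Q := Q) hJ.1
    rcases hz with hz | hz
    · have hdv : z ∣ -7 * (Mn Q P : ℤ) ^ 2 := by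
        rw [hz, hk]
        exact ⟨-7 * k * (((∏ q ∈ J, q : ℕ) : ℤ) * k), by ring⟩
      rw [hz] at hdv ⊢
      exact ⟨s1, hdv, qu_of_lp hdv s1.ne_zero l2, fun p _ => qu_of_lp hdv s1.ne_zero (l1 p)⟩
    · have hdv : z ∣ -7 * (Mn Q P : ℤ) ^ 2 := by
        rw [hz, hk]
        exact ⟨k * (((∏ q ∈ J, q : ℕ) : ℤ) * k), by ring⟩
      have s3 : Squarefree (-7 * ((∏ q ∈ J, q : ℕ) : ℤ)) := by
        have e : (-7 * ((∏ q ∈ J, q : ℕ) : ℤ)) = -(7 * ((∏ q ∈ J, q : ℕ) : ℤ)) := by ring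
        rw [e, ← Int.squarefree_natAbs, Int.natAbs_neg, Int.squarefree_natAbs]
        exact s2
      rw [hz] at hdv ⊢
      exact ⟨s3, hdv, qu_of_lp hdv s3.ne_zero (lp_mul (by exact_mod_cast hb) rfl l2),
        fun p _ => qu_of_lp hdv s3.ne_zero (lp_mul (by exact_mod_cast hb) rfl (l1 p))⟩

open Classical in
/-- a row of the matrix -/
theorem row {D : ℕ} (h : Fam D) (x : ℕ → ZMod 2) (p : ℕ) (_hp : p ∈ SPr D) :
    ∑ q ∈ D.primeFactors, nr p q * (cu P28 x q + x p) + n4 p * x p =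
      if x p = 1 then n4 p + ∑ l ∈ (IP D ∪ SPr D) \ ((SPr D).filter fun q => x q = 1), nq p l
      else ∑ q ∈ (SPr D).filter (fun q => x q = 1), nq p q := by
  have hU := union_eq D
  have hcu : ∀ q ∈ D.primeFactors, cu P28 x q =
      if q ∈ (SPr D).filter (fun q => x q = 1) then 1 else 0 := by
    intro q hq
    unfold cu
    by_cases hA : q % P28.N ∈ P28.A
    · rw [if_pos hA]
      have hqS := (mem_A_iff h hq).1 hA
      have hv : ∀ z : ZMod 2, z = 0 ∨ z = 1 := by decide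
      rcases hv (x q) with h0 | h0
      · rw [if_neg, h0]
        rw [mem_filter]
        rintro ⟨-, h1⟩
        rw [h0] at h1
        exact absurd h1 (by decide)
      · rw [if_pos, h0]
        rw [mem_filter]
        exact ⟨hqS, h0⟩
    · rw [if_neg hA, if_neg]
      rw [mem_filter]
      rintro ⟨h1, -⟩
      exact hA ((mem_A_iff h hq).2 h1)
  have hv : ∀ z : ZMod 2, z = 0 ∨ z = 1 := by decide
  set J := (SPr D).filter fun q => x q = 1 with hJ
  have hJS : J ⊆ D.primeFactors := by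
    rw [← hU]
    exact (filter_subset _ _).trans subset_union_right
  rcases hv (x p) with h0 | h0
  · rw [if_neg (by rw [h0]; decide), h0, mul_zero, add_zero]
    have e1 : ∀ q ∈ D.primeFactors, nr p q * (cu P28 x q + 0) = if q ∈ J then nq p q else 0 := by
      intro q hq
      rw [hcu q hq, nr_eq, add_zero]
      split_ifs
      · rw [mul_one]
      · rw [mul_zero]
    rw [sum_congr rfl e1, ← sum_filter]
    congr 1
    rw [filter_mem_eq_inter, inter_eq_right.2 hJS]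
  · rw [if_pos h0, h0, mul_one, hU]
    have e1 : ∀ q ∈ D.primeFactors, nr p q * (cu P28 x q + 1) =
        if ¬ q ∈ J then nq p q else 0 := by
      intro q hq
      rw [hcu q hq, nr_eq]
      by_cases hqJ : q ∈ J
      · rw [if_pos hqJ, if_neg (not_not.2 hqJ)]
        have : (1 : ZMod 2) + 1 = 0 := by decide
        rw [this, mul_zero]
      · rw [if_neg hqJ, if_pos hqJ, zero_add, mul_one]
    rw [sum_congr rfl e1, ← sum_filter, add_comm]
    congr 1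
    rw [← sdiff_eq_filter]

open Classical in
/-- **the number of the kernel vectors** -/
theorem nK_ker {D : ℕ} (h : Fam D) : nK P28 n4 D.primeFactors = (kerF (IP D) (SPr D)).card := by
  have hU := union_eq D
  have hSsub : ∀ q, q ∈ SPr D → q ∈ D.primeFactors := fun q hq => by
    rw [← hU]
    exact mem_union_right _ hq
  have hiff : ∀ q, (q ∈ D.primeFactors ∧ q % P28.N ∈ P28.A) ↔ q ∈ SPr D := fun q =>
    ⟨fun h1 => (mem_A_iff h h1.1).1 h1.2, fun h1 => ⟨hSsub q h1, (mem_A_iff h (hSsub q h1)).2 h1⟩⟩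
  have hv : ∀ z : ZMod 2, z = 0 ∨ z = 1 := by decide
  unfold nK
  have e : Nat.card {J : Finset ℕ // J ∈ kerF (IP D) (SPr D)} = (kerF (IP D) (SPr D)).card := by
    rw [Nat.card_eq_fintype_card, Fintype.card_coe]
  rw [← e]
  have hx1 : ∀ (J : Finset ℕ) (q : ℕ), (if q ∈ J then (1 : ZMod 2) else 0) = 1 ↔ q ∈ J := by
    intro J q
    split_ifs with h1
    · exact iff_of_true rfl h1
    · exact iff_of_false (by decide) h1
  have hJf : ∀ J : Finset ℕ, J ⊆ SPr D →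
      (SPr D).filter (fun q => (if q ∈ J then (1 : ZMod 2) else 0) = 1) = J := by
    intro J hJ
    ext q
    rw [mem_filter, hx1]
    exact ⟨fun h => h.2, fun h => ⟨hJ h, h⟩⟩
  refine Nat.card_congr {
    toFun := fun x => ⟨(SPr D).filter fun q => x.1 q = 1, ?_⟩
    invFun := fun J => ⟨fun q => if q ∈ J.1 then 1 else 0, ?_⟩
    left_inv := fun x => ?_
    right_inv := fun J => Subtype.ext (hJf J.1 (mem_kerF.1 J.2).1) }
  · obtain ⟨x, hx0, hx⟩ := x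
    rw [mem_kerF]
    refine ⟨filter_subset _ _, fun q hq => ?_, fun q hq => ?_⟩
    · obtain ⟨h1, h2⟩ := mem_sdiff.1 hq
      obtain ⟨hqD, hqA⟩ := (hiff q).2 h1
      have h3 := hx q hqD hqA
      rw [row h x q h1, if_neg] at h3
      · exact h3
      · intro h4
        exact h2 (mem_filter.2 ⟨h1, h4⟩)
    · obtain ⟨h1, h2⟩ := mem_filter.1 hq
      obtain ⟨hqD, hqA⟩ := (hiff q).2 h1
      have h3 := hx q hqD hqA
      rw [row h x q h1, if_pos h2] at h3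
      exact h3
  · obtain ⟨J, hJ'⟩ := J
    have hJ := mem_kerF.1 hJ'
    refine ⟨fun q hq => ?_, fun q hq hqA => ?_⟩
    · rw [hiff] at hq
      exact if_neg fun h1 => hq (hJ.1 h1)
    · have hqS := (mem_A_iff h hq).1 hqA
      rw [row h _ q hqS, hJf J hJ.1]
      by_cases hqJ : q ∈ J
      · rw [if_pos ((hx1 J q).2 hqJ)]
        exact hJ.2.2 q hqJ
      · rw [if_neg (fun h => hqJ ((hx1 J q).1 h))]
        exact hJ.2.1 q (mem_sdiff.2 ⟨hqS, hqJ⟩)
  · obtain ⟨x, hx0, hx⟩ := x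
    refine Subtype.ext (funext fun q => ?_)
    show (if q ∈ (SPr D).filter (fun q => x q = 1) then (1 : ZMod 2) else 0) = x q
    by_cases hq : q ∈ SPr D
    · rcases hv (x q) with h0 | h0
      · rw [if_neg, h0]
        rw [mem_filter, h0]
        rintro ⟨-, h1⟩
        exact absurd h1 (by decide)
      · rw [if_pos (mem_filter.2 ⟨hq, h0⟩), h0]
    · rw [if_neg fun h1 => hq (mem_filter.1 h1).1]
      exact (hx0 q fun h1 => hq ((hiff q).1 h1)).symm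

/-- **the orders of the isogeny Selmer groups** -/
theorem sel_card {D : ℕ} (h : Fam D) :
    (SF (21 * (D : ℤ)) (112 * (D : ℤ) ^ 2)).ncard = 2 * nK P28 n4 D.primeFactors ∧
    (SF (-42 * (D : ℤ)) (-7 * (D : ℤ) ^ 2)).ncard = 2 * nK P28 n4 D.primeFactors := by
  have H := dat h
  have hM := Mn_eq h
  have hsq : Squarefree (Mn (IP D) (SPr D)) := by
    rw [hM]
    exact h.1
  have h1 := SF_A H hsq
  have h2 := SF_B H hsq
  rw [hM] at h1 h2
  rw [h1, h2, Set.ncard_coe_finset, Set.ncard_coe_finset, card_img H (Or.inl rfl),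
    card_img H (Or.inr rfl), nK_ker h]
  exact ⟨rfl, rfl⟩

end Pool.Agent.X99.CK
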