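import Mathlib
import Pool.Agent.X99.CK.Set

/-!
# The joint law of the coranks for the twists of `X_0(49)` by sums of two squares
-/

set_option autoImplicit false
set_option linter.unusedSectionVars false
set_option linter.style.haveILetI false

open Finset Filter

namespace Pool.Agent.X99.CK

open Pool.Agent.X99.C49
open Pool.Agent.X99.GQ (Par Ok HAL Cl Gd SS)
open Pool.Agent.X99.GJ (star star_pf fc OkW)
open Pool.Agent.Y697.PQ (gi cf)

open Classical in
/-- **the joint law of the coranks** -/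
theorem jointK (𝒢 : Finset ℕ) (hG : ∀ m ∈ 𝒢, Fam m) (r : ℕ → ℕ) :
    Tendsto (fun X : ℕ => (((Icc 1 X).filter fun D => Fam D ∧
        ∀ m ∈ 𝒢, nK P28 n4 (star m D).primeFactors = 2 ^ r m).card : ℝ) /
        (((Icc 1 X).filter fun D => Fam D).card : ℝ)) atTop (nhds (∏ m ∈ 𝒢, pr (r m))) := by
  have e1 : Pool.Agent.X99.GQ.al P28 = 1 / 4 := by
    unfold Pool.Agent.X99.GQ.al
    have h1 : P28.A.card = 3 := by decide
    have h2 : Nat.totient P28.N = 12 := by decide
    rw [h1, h2]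
    norm_num
  set V : ℕ → Finset ℕ := fun m => m.primeFactors with hV
  have hprod : ∀ m ∈ 𝒢, ∏ q ∈ V m, q = m := fun m hm =>
    Nat.prod_primeFactors_of_squarefree (hG m hm).1
  have hinj : Set.InjOn V 𝒢 := by
    intro a ha b hb hab
    rw [← hprod a ha, ← hprod b hb, hab]
  have hW : OkW P28 (𝒢.biUnion V) (𝒢.image V) := by
    refine ⟨?_, ?_⟩
    · intro u hu
      obtain ⟨m, hm, hu⟩ := Finset.mem_biUnion.1 hu
      obtain ⟨h1, h2, -⟩ := Nat.mem_primeFactors.1 hu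
      exact ⟨h1, (cop28 (hG m hm)).2 u h1 h2⟩
    · intro U hU
      obtain ⟨a, ha, rfl⟩ := Finset.mem_image.1 hU
      exact Finset.subset_biUnion_of_mem V ha
  have hp := KDEN ok28 (h := 1 / 2 ^ (Fintype.card (Fin 2) + 1)) (by positivity)
    (Pool.Agent.X99.GQ.Ha.t_HAL ok28 rc28) (by rw [e1, Fintype.card_fin]; norm_num) hW n4
    (fun U => r (∏ q ∈ U, q))
  have e2 : ∏ U ∈ 𝒢.image V, pr (r (∏ q ∈ U, q)) = ∏ m ∈ 𝒢, pr (r m) := by
    rw [Finset.prod_image hinj]
    exact Finset.prod_congr rfl fun m hm => by rw [hprod m hm]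
  rw [e2] at hp
  refine hp.congr fun X => congrArg₂ (fun a b : ℕ => (a : ℝ) / (b : ℝ)) ?_ ?_
  · refine fc _ fun D _ => ?_
    rw [← and_assoc, fam_iff]
    refine and_congr_right fun hD => ?_
    unfold GK
    constructor
    · intro h m hm
      have h1 := h (V m) (Finset.mem_image_of_mem V hm)
      simp only at h1
      rw [hprod m hm] at h1
      rw [(star_pf (hG m hm).1 hD.1).2.1]
      exact h1
    · intro h U hU
      obtain ⟨m, hm, rfl⟩ := Finset.mem_image.1 hU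
      have h1 := h m hm
      rw [(star_pf (hG m hm).1 hD.1).2.1] at h1
      show nK P28 n4 (symmDiff D.primeFactors (V m)) = 2 ^ r (∏ q ∈ V m, q)
      rw [hprod m hm]
      exact h1
  · exact fc _ fun D _ => fam_iff D

/-! ### the total mass -/

/-- the values of the generating function -/
noncomputable def sn (n : ℕ) : ℝ := ∑' r : ℕ, cf r * ((1 / 2 : ℝ) ^ n) ^ r

theorem cf_le (r : ℕ) : cf r ≤ 2 * (1 / 2 : ℝ) ^ r := by
  induction r with
  | zero => simp [cf]
  | succ r ih =>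
    rcases Nat.eq_zero_or_pos r with rfl | hr
    · simp [cf]
      norm_num
    · rw [cf]
      have h := Pool.Agent.Y697.PQ.pm1 r
      have h1 : (2 : ℝ) ≤ 2 ^ (r + 1) - 1 := by
        have h2 : (2 : ℝ) ^ 2 ≤ 2 ^ (r + 1) := pow_le_pow_right₀ (by norm_num) (by omega)
        linarith
      rw [div_le_iff₀ (by linarith), pow_succ]
      have h3 : (0 : ℝ) < (1 / 2) ^ r := by positivity
      nlinarith

theorem summ (n : ℕ) : Summable fun r : ℕ => cf r * ((1 / 2 : ℝ) ^ n) ^ r := by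
  refine Summable.of_nonneg_of_le (fun r => mul_nonneg (Pool.Agent.Y697.PQ.cf_pos r).le
    (by positivity)) (fun r => ?_) ((summable_geometric_of_lt_one (by norm_num)
      (by norm_num : (1 / 2 : ℝ) < 1)).mul_left 2)
  have h1 : ((1 / 2 : ℝ) ^ n) ^ r ≤ 1 := pow_le_one₀ (by positivity)
    (pow_le_one₀ (by norm_num) (by norm_num))
  calc cf r * ((1 / 2 : ℝ) ^ n) ^ r ≤ (2 * (1 / 2 : ℝ) ^ r) * 1 :=
        mul_le_mul (cf_le r) h1 (by positivity) (by positivity)
    _ = _ := mul_one _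

theorem sn_succ (n : ℕ) : sn n = (1 + (1 / 2 : ℝ) ^ (n + 1)) * sn (n + 1) := by
  have h1 := (summ n).tsum_eq_zero_add
  have h2 := (summ (n + 1)).tsum_eq_zero_add
  have h3 : ∀ r : ℕ, cf (r + 1) * ((1 / 2 : ℝ) ^ n) ^ (r + 1) =
      cf (r + 1) * ((1 / 2 : ℝ) ^ (n + 1)) ^ (r + 1) +
        (1 / 2 : ℝ) ^ (n + 1) * (cf r * ((1 / 2 : ℝ) ^ (n + 1)) ^ r) := by
    intro r
    have h4 : cf r = cf (r + 1) * (2 ^ (r + 1) - 1) := by
      have h := Pool.Agent.Y697.PQ.pm1 r
      rw [cf, div_mul_cancel₀]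
      linarith
    rw [h4]
    have h5 : ((1 / 2 : ℝ) ^ n) ^ (r + 1) = ((1 / 2 : ℝ) ^ (n + 1)) ^ (r + 1) * 2 ^ (r + 1) := by
      rw [← mul_pow]
      congr 1
      rw [pow_succ]
      ring
    rw [h5, pow_succ ((1 / 2 : ℝ) ^ (n + 1)) r]
    ring
  unfold sn
  rw [h1]
  simp only [h3]
  rw [Summable.tsum_add ((summable_nat_add_iff 1).2 (summ (n + 1))) ((summ (n + 1)).mul_left _),
    tsum_mul_left]
  have h6 : cf 0 * ((1 / 2 : ℝ) ^ n) ^ 0 = cf 0 * ((1 / 2 : ℝ) ^ (n + 1)) ^ 0 := by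
    rw [pow_zero, pow_zero]
  rw [h6, ← add_assoc, ← h2]
  ring

theorem sn_prod (n : ℕ) : sn 0 = (∏ i ∈ range n, (1 + (1 / 2 : ℝ) ^ (i + 1))) * sn n := by
  induction n with
  | zero => simp
  | succ n ih =>
    rw [Finset.prod_range_succ, mul_assoc, ← sn_succ, ← ih]

theorem sn_lim : Tendsto sn atTop (nhds 1) := by
  have hb : ∀ n, 1 ≤ sn n ∧ sn n ≤ 1 + (1 / 2 : ℝ) ^ n * sn 0 := by
    intro n
    have h1 := (summ n).tsum_eq_zero_add
    have h0 : cf 0 * ((1 / 2 : ℝ) ^ n) ^ 0 = 1 := by simp [cf]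
    rw [h0] at h1
    have hnn : ∀ r, 0 ≤ cf (r + 1) * ((1 / 2 : ℝ) ^ n) ^ (r + 1) := fun r =>
      mul_nonneg (Pool.Agent.Y697.PQ.cf_pos _).le (by positivity)
    constructor
    · unfold sn
      rw [h1]
      have : 0 ≤ ∑' r : ℕ, cf (r + 1) * ((1 / 2 : ℝ) ^ n) ^ (r + 1) := tsum_nonneg hnn
      linarith
    · unfold sn
      rw [h1, ← tsum_mul_left]
      have hs0 := summ 0
      have h2 : ∑' r : ℕ, cf (r + 1) * ((1 / 2 : ℝ) ^ n) ^ (r + 1) ≤
          ∑' r : ℕ, (1 / 2 : ℝ) ^ n * (cf r * ((1 / 2 : ℝ) ^ 0) ^ r) := by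
        refine Summable.tsum_le_tsum (fun r => ?_) ((summable_nat_add_iff 1).2 (summ n))
          (hs0.mul_left _)
        have h3 : cf (r + 1) ≤ cf r := by
          have h := Pool.Agent.Y697.PQ.pm1 r
          rw [cf, div_le_iff₀ (by linarith)]
          have := Pool.Agent.Y697.PQ.cf_pos r
          have h5 : (2 : ℝ) ^ 1 ≤ 2 ^ (r + 1) := pow_le_pow_right₀ (by norm_num) (by omega)
          nlinarith
        have h4 : ((1 / 2 : ℝ) ^ n) ^ (r + 1) ≤ (1 / 2 : ℝ) ^ n := by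
          rw [pow_succ]
          refine mul_le_of_le_one_left (by positivity) (pow_le_one₀ (by positivity)
            (pow_le_one₀ (by norm_num) (by norm_num)))
        rw [pow_zero, one_pow, mul_one, mul_comm ((1 / 2 : ℝ) ^ n)]
        exact mul_le_mul h3 h4 (by positivity) (Pool.Agent.Y697.PQ.cf_pos r).le
      linarith
  have h2 : Tendsto (fun n : ℕ => 1 + (1 / 2 : ℝ) ^ n * sn 0) atTop (nhds (1 + 0 * sn 0)) :=
    tendsto_const_nhds.add ((tendsto_pow_atTop_nhds_zero_of_lt_one (by norm_num)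
      (by norm_num)).mul_const _)
  rw [zero_mul, add_zero] at h2
  exact tendsto_of_tendsto_of_tendsto_of_le_of_le tendsto_const_nhds h2 (fun n => (hb n).1)
    (fun n => (hb n).2)

theorem euler (n : ℕ) : (∏ i ∈ range n, (1 + (1 / 2 : ℝ) ^ (i + 1))) *
    (∏ i ∈ range n, (1 - (1 / 2 : ℝ) ^ (2 * i + 1))) = ∏ i ∈ range n, (1 - (1 / 2 : ℝ) ^ (n + i + 1)) := by
  have hpos : ∀ k : ℕ, (0 : ℝ) < 1 - (1 / 2 : ℝ) ^ (k + 1) := by
    intro k
    have : (1 / 2 : ℝ) ^ (k + 1) < 1 := pow_lt_one₀ (by norm_num) (by norm_num) (by omega)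
    linarith
  have key : ∀ n : ℕ, (∏ i ∈ range n, (1 - (1 / 2 : ℝ) ^ (i + 1))) *
      ((∏ i ∈ range n, (1 + (1 / 2 : ℝ) ^ (i + 1))) *
        (∏ i ∈ range n, (1 - (1 / 2 : ℝ) ^ (2 * i + 1)))) =
      ∏ i ∈ range (2 * n), (1 - (1 / 2 : ℝ) ^ (i + 1)) := by
    intro n
    induction n with
    | zero => simp
    | succ n ih =>
      have e2 : 2 * (n + 1) = 2 * n + 1 + 1 := by ring
      rw [e2]
      simp only [Finset.prod_range_succ]
      rw [← ih]
      have h1 : (1 - (1 / 2 : ℝ) ^ (2 * n + 1 + 1)) =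
          (1 - (1 / 2 : ℝ) ^ (n + 1)) * (1 + (1 / 2 : ℝ) ^ (n + 1)) := by
        have : (1 / 2 : ℝ) ^ (2 * n + 1 + 1) = (1 / 2 : ℝ) ^ (n + 1) * (1 / 2 : ℝ) ^ (n + 1) := by
          rw [← pow_add]
          congr 1
          ring
        rw [this]
        ring
      rw [h1]
      ring
  have h2 : ∏ i ∈ range (2 * n), (1 - (1 / 2 : ℝ) ^ (i + 1)) =
      (∏ i ∈ range n, (1 - (1 / 2 : ℝ) ^ (i + 1))) *
        ∏ i ∈ range n, (1 - (1 / 2 : ℝ) ^ (n + i + 1)) := by
    rw [two_mul, Finset.prod_range_add]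
  have h3 : (∏ i ∈ range n, (1 - (1 / 2 : ℝ) ^ (i + 1))) ≠ 0 :=
    Finset.prod_ne_zero_iff.2 fun i _ => (hpos i).ne'
  have h4 := key n
  rw [h2] at h4
  exact mul_left_cancel₀ h3 h4

theorem tail_lim : Tendsto (fun n : ℕ => ∏ i ∈ range n, (1 - (1 / 2 : ℝ) ^ (n + i + 1))) atTop
    (nhds 1) := by
  have hb : ∀ n : ℕ, 1 - (1 / 2 : ℝ) ^ n ≤ ∏ i ∈ range n, (1 - (1 / 2 : ℝ) ^ (n + i + 1)) := by
    intro n
    have h : ∀ k : ℕ, 1 - (1 / 2 : ℝ) ^ n * (1 - (1 / 2 : ℝ) ^ k) ≤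
        ∏ i ∈ range k, (1 - (1 / 2 : ℝ) ^ (n + i + 1)) := by
      intro k
      induction k with
      | zero => simp
      | succ k ih =>
        rw [Finset.prod_range_succ]
        have h1 : (1 / 2 : ℝ) ^ (n + k + 1) ≤ 1 := pow_le_one₀ (by norm_num) (by norm_num)
        have h2 : (1 / 2 : ℝ) ^ (n + k + 1) = (1 / 2 : ℝ) ^ n * (1 / 2 : ℝ) ^ k / 2 := by
          rw [pow_succ, pow_add]
          ring
        have h3 : (1 / 2 : ℝ) ^ (k + 1) = (1 / 2 : ℝ) ^ k / 2 := by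
          rw [pow_succ]
          ring
        have h4 : (0 : ℝ) ≤ (1 / 2 : ℝ) ^ n := by positivity
        have h5 : (0 : ℝ) ≤ (1 / 2 : ℝ) ^ k := by positivity
        have h6 : (1 / 2 : ℝ) ^ k ≤ 1 := pow_le_one₀ (by norm_num) (by norm_num)
        have h7 : (0 : ℝ) ≤ 1 - (1 / 2 : ℝ) ^ (n + k + 1) := by linarith
        refine le_trans ?_ (mul_le_mul_of_nonneg_right ih h7)
        rw [h2, h3]
        nlinarith [mul_nonneg h4 h5, mul_nonneg (mul_nonneg h4 h4) (mul_nonneg h5 (sub_nonneg.2 h6))]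
    refine le_trans ?_ (h n)
    have h1 : (0 : ℝ) ≤ (1 / 2 : ℝ) ^ n := by positivity
    nlinarith
  have hu : ∀ n : ℕ, ∏ i ∈ range n, (1 - (1 / 2 : ℝ) ^ (n + i + 1)) ≤ 1 := by
    intro n
    refine Finset.prod_le_one (fun i _ => ?_) fun i _ => ?_
    · have : (1 / 2 : ℝ) ^ (n + i + 1) ≤ 1 := pow_le_one₀ (by norm_num) (by norm_num)
      linarith
    · have : (0 : ℝ) ≤ (1 / 2 : ℝ) ^ (n + i + 1) := by positivity
      linarith
  have h2 : Tendsto (fun n : ℕ => 1 - (1 / 2 : ℝ) ^ n) atTop (nhds (1 - 0)) :=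
    tendsto_const_nhds.sub (tendsto_pow_atTop_nhds_zero_of_lt_one (by norm_num) (by norm_num))
  rw [sub_zero] at h2
  exact tendsto_of_tendsto_of_tendsto_of_le_of_le h2 tendsto_const_nhds hb hu

theorem gi_prod : Tendsto (fun n : ℕ => ∏ i ∈ range n, (1 - (1 / 2 : ℝ) ^ (2 * i + 1))) atTop
    (nhds gi) := by
  have h := (Pool.Agent.Y948.CQ.c2_main gi Pool.Agent.Y697.CJ.gi_eq).1
  rw [tendsto_iff_dist_tendsto_zero]
  refine squeeze_zero (fun _ => dist_nonneg) (fun n => ?_)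
    (tendsto_pow_atTop_nhds_zero_of_lt_one (r := (1 / 4 : ℝ)) (by norm_num) (by norm_num))
  rw [Real.dist_eq]
  exact h n

theorem gi_sn : gi * sn 0 = 1 := by
  have h1 : Tendsto (fun n : ℕ => (∏ i ∈ range n, (1 - (1 / 2 : ℝ) ^ (2 * i + 1))) * sn 0) atTop
      (nhds (gi * sn 0)) := gi_prod.mul_const _
  have h2 : Tendsto (fun n : ℕ => (∏ i ∈ range n, (1 - (1 / 2 : ℝ) ^ (n + i + 1))) * sn n) atTop
      (nhds (1 * 1)) := tail_lim.mul sn_lim
  rw [mul_one] at h2
  refine tendsto_nhds_unique h1 (h2.congr fun n => ?_)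
  rw [← euler n, sn_prod n]
  ring

/-- **the probabilities sum to one** -/
theorem hasSum_pr : HasSum pr 1 := by
  have h1 := (summ 0).hasSum.mul_left gi
  have h2 : (∑' r : ℕ, cf r * ((1 / 2 : ℝ) ^ 0) ^ r) = sn 0 := rfl
  rw [h2, gi_sn] at h1
  have e : pr = fun r => gi * (cf r * ((1 / 2 : ℝ) ^ 0) ^ r) := by
    funext r
    rw [pow_zero, one_pow, mul_one, pr]
  rw [e]
  exact h1

/-- the number of the kernel vectors is a power of `2` -/
theorem nK_pow (P : Par) (f : ℕ → ZMod 2) (S : Finset ℕ) : ∃ k : ℕ, nK P f S = 2 ^ k := by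
  classical
  let K : Submodule (ZMod 2) (ℕ → ZMod 2) :=
    { carrier := {x | SolK P f S x}
      add_mem' := by
        rintro x y ⟨hx0, hx⟩ ⟨hy0, hy⟩
        refine ⟨fun q hq => ?_, fun p hp hpA => ?_⟩
        · rw [Pi.add_apply, hx0 q hq, hy0 q hq, add_zero]
        · have h1 := hx p hp hpA
          have h2 := hy p hp hpA
          have hc : ∀ q, Pool.Agent.X99.GQ.cu P (x + y) q =
              Pool.Agent.X99.GQ.cu P x q + Pool.Agent.X99.GQ.cu P y q := by
            intro q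
            unfold Pool.Agent.X99.GQ.cu
            split_ifs
            · rfl
            · rw [add_zero]
          simp only [hc, Pi.add_apply]
          have e : ∀ q, Pool.Agent.Y703.CQ.nr p q * (Pool.Agent.X99.GQ.cu P x q +
              Pool.Agent.X99.GQ.cu P y q + (x p + y p)) =
              Pool.Agent.Y703.CQ.nr p q * (Pool.Agent.X99.GQ.cu P x q + x p) +
              Pool.Agent.Y703.CQ.nr p q * (Pool.Agent.X99.GQ.cu P y q + y p) := fun q => by ring
          simp only [e]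
          rw [Finset.sum_add_distrib]
          linear_combination h1 + h2
      zero_mem' := by
        refine ⟨fun q _ => rfl, fun p hp hpA => ?_⟩
        have hc : ∀ q, Pool.Agent.X99.GQ.cu P (0 : ℕ → ZMod 2) q = 0 := by
          intro q
          unfold Pool.Agent.X99.GQ.cu
          split_ifs <;> rfl
        simp only [hc, Pi.zero_apply, add_zero, mul_zero, Finset.sum_const_zero]
      smul_mem' := by
        rintro c x ⟨hx0, hx⟩
        have hv : ∀ z : ZMod 2, z = 0 ∨ z = 1 := by decide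
        rcases hv c with rfl | rfl
        · rw [zero_smul]
          refine ⟨fun q _ => rfl, fun p hp hpA => ?_⟩
          have hc : ∀ q, Pool.Agent.X99.GQ.cu P (0 : ℕ → ZMod 2) q = 0 := by
            intro q
            unfold Pool.Agent.X99.GQ.cu
            split_ifs <;> rfl
          simp only [hc, Pi.zero_apply, add_zero, mul_zero, Finset.sum_const_zero]
        · rw [one_smul]
          exact ⟨hx0, hx⟩ }
  have hK : ∀ x : K, ∀ q, q ∉ S → x.1 q = 0 := fun x q hq => x.2.1 q fun h => hq h.1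
  have hfin : Finite K := by
    refine Finite.of_injective (fun x : K => fun q : S => x.1 q) fun x y h => ?_
    refine Subtype.ext (funext fun q => ?_)
    by_cases hq : q ∈ S
    · exact congrFun h ⟨q, hq⟩
    · rw [hK x q hq, hK y q hq]
  have hM : Module.Finite (ZMod 2) K := Module.Finite.of_finite
  refine ⟨Module.finrank (ZMod 2) K, ?_⟩
  have h1 : Nat.card K = 2 ^ Module.finrank (ZMod 2) K := by
    rw [Module.natCard_eq_pow_finrank (K := ZMod 2), Nat.card_zmod]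
  exact h1

end Pool.Agent.X99.CK
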