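import Pool.Agent.Y668.Desc
import Pool.Agent.TeamU.B1
import Pool.Agent.X99.CK.Set

/-!
# The bound for the rank by the two Selmer groups of a 2-isogeny, with the torsion points

After `Pool.Agent.Y668.Desc`.
-/

set_option autoImplicit false
set_option linter.unusedSectionVars false

namespace Pool.Agent.X99.CK

open WeierstrassCurve Pool.Agent.H918R3 Pool.Agent.H918R3.TB1
open Pool.Agent.Y668

open Classical in
/-- the number of the classes modulo `2` if there is a point of order two -/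
theorem count2 {a b : ℚ} (hb : b ≠ 0) (hfg : AddGroup.FG (Wt a b).toAffine.Point)
    (T : Finset (Wt a b).toAffine.Point)
    (hT : ∀ g : (Wt a b).toAffine.Point, ∃ t ∈ T, ∃ q : (Wt a b).toAffine.Point,
      g = t + (q + q)) :
    2 ^ (Module.finrank ℤ (Wt a b).toAffine.Point + 1) ≤ T.card := by
  have : Module.Finite ℤ (Wt a b).toAffine.Point := Module.Finite.iff_addGroup_fg.mpr hfg
  have h1 := Pool.Agent.TeamU.card_quot_two (Wt a b).toAffine.Point
  set R := (zsmulAddGroupHom (α := (Wt a b).toAffine.Point) 2).range with hR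
  set N := (zsmulAddGroupHom (α := (Wt a b).toAffine.Point) 2).ker with hN
  -- the point of order two
  have hns : (Wt a b).toAffine.Nonsingular 0 0 := by
    rw [Affine.nonsingular_zero]
    exact ⟨rfl, Or.inr hb⟩
  set P : (Wt a b).toAffine.Point := Affine.Point.some 0 0 hns with hP
  have hP2 : P + P = 0 := by
    rw [add_eq_zero_iff_eq_neg, hP, Affine.Point.neg_some]
    congr 1
    show (0 : ℚ) = -0 - 0 * 0 - 0
    norm_num
  have hP0 : P ≠ 0 := Affine.Point.some_ne_zero _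
  have hmem : ∀ x : (Wt a b).toAffine.Point, x ∈ N ↔ x + x = 0 := by
    intro x
    rw [hN, AddMonoidHom.mem_ker]
    show (2 : ℤ) • x = 0 ↔ _
    rw [two_zsmul]
  -- the quotient is covered by `T`
  have hle : Nat.card ((Wt a b).toAffine.Point ⧸ R) ≤ T.card := by
    have hs : Function.Surjective
        (fun t : T => (QuotientAddGroup.mk (s := R) (t : (Wt a b).toAffine.Point))) := by
      intro x
      obtain ⟨g, rfl⟩ := QuotientAddGroup.mk_surjective x
      obtain ⟨t, ht, q, hq⟩ := hT g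
      refine ⟨⟨t, ht⟩, ?_⟩
      show (QuotientAddGroup.mk (s := R) t) = QuotientAddGroup.mk g
      rw [QuotientAddGroup.eq]
      refine ⟨q, ?_⟩
      show (2 : ℤ) • q = -t + g
      rw [hq, two_zsmul]
      abel
    have h2 := Nat.card_le_card_of_surjective _ hs
    rwa [Nat.card_eq_fintype_card (α := T), Fintype.card_coe] at h2
  have hpos : 0 < Nat.card ((Wt a b).toAffine.Point ⧸ R) := by
    have hfin : Finite ((Wt a b).toAffine.Point ⧸ R) := by
      have hs : Function.Surjective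
          (fun t : T => (QuotientAddGroup.mk (s := R) (t : (Wt a b).toAffine.Point))) := by
        intro x
        obtain ⟨g, rfl⟩ := QuotientAddGroup.mk_surjective x
        obtain ⟨t, ht, q, hq⟩ := hT g
        refine ⟨⟨t, ht⟩, ?_⟩
        show (QuotientAddGroup.mk (s := R) t) = QuotientAddGroup.mk g
        rw [QuotientAddGroup.eq]
        refine ⟨q, ?_⟩
        show (2 : ℤ) • q = -t + g
        rw [hq, two_zsmul]
        abel
      exact Finite.of_surjective _ hs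
    exact Nat.card_pos
  rw [h1] at hle hpos
  have hker : 2 ≤ Nat.card N := by
    have hfinN : Finite N := by
      apply Nat.finite_of_card_ne_zero
      intro h0
      rw [h0, mul_zero] at hpos
      exact lt_irrefl _ hpos
    have hinj : Function.Injective (fun b : Bool => if b then (⟨P, (hmem P).2 hP2⟩ : N) else 0) := by
      intro x y hxy
      rcases x <;> rcases y
      · rfl
      · exfalso
        simp only [Bool.false_eq_true, if_false, if_true] at hxy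
        exact hP0 (congrArg Subtype.val hxy).symm
      · exfalso
        simp only [Bool.false_eq_true, if_false, if_true] at hxy
        exact hP0 (congrArg Subtype.val hxy)
      · rfl
    have h2 := Nat.card_le_card_of_injective _ hinj
    rwa [Nat.card_eq_fintype_card, Fintype.card_bool] at h2
  calc 2 ^ (Module.finrank ℤ (Wt a b).toAffine.Point + 1) =
        2 ^ Module.finrank ℤ (Wt a b).toAffine.Point * 2 := pow_succ _ _
    _ ≤ 2 ^ Module.finrank ℤ (Wt a b).toAffine.Point * Nat.card N :=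
        Nat.mul_le_mul_left _ hker
    _ ≤ T.card := hle

section field

variable {L : Type} [Field L] [DecidableEq L] [CharZero L] [Algebra ℚ L]

/-- the counting argument -/
theorem desc_aux2 [NumberField L] {a b : ℚ} (hb : b ≠ 0) (hd : a ^ 2 - 4 * b ≠ 0) {e1 e2 : L}
    (hs : e1 + e2 = -algebraMap ℚ L a) (hp : e1 * e2 = algebraMap ℚ L b) (hne : e1 ≠ e2)
    (hsq : ∀ c : ℚ, c ≠ 0 → IsSquare (algebraMap ℚ L c) →
      IsSquare c ∨ IsSquare (c * (a ^ 2 - 4 * b)))
    (Z1 Z2 : Finset ℤ) (h1 : ∀ P : (Wt a b).toAffine.Point, ∃ z ∈ Z1, IsSquare (al a b P * z))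
    (h2 : ∀ X : ℚ, X ≠ 0 → (X = 1 ∨
      ∃ Y : ℚ, Y ^ 2 = X ^ 3 + (-2 * a) * X ^ 2 + (a ^ 2 - 4 * b) * X) →
      ∃ z ∈ Z2, IsSquare (X * z) ∨ IsSquare (X * (a ^ 2 - 4 * b) * z)) (hz1 : ∀ z ∈ Z1, z ≠ 0)
    (hz2 : ∀ z ∈ Z2, z ≠ 0) :
    2 ^ (Module.finrank ℤ (Wt a b).toAffine.Point + 1) ≤ Z1.card * Z2.card := by
  classical
  have h20 : (2 : L) ≠ 0 := two_ne_zero
  -- finite generation
  have he0 : e1 * e2 ≠ 0 := by
    rw [hp]
    exact (map_ne_zero _).2 hb
  have he1 : e1 ≠ 0 := left_ne_zero_of_mul he0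
  have he2 : e2 ≠ 0 := right_ne_zero_of_mul he0
  have hfg : AddGroup.FG (Wt a b).toAffine.Point := by
    have hK : AddGroup.FG (Pool.Agent.H437R2.Man.MW.crv (-e1) 0 (-e2)).toAffine.Point :=
      Pool.Agent.H437R2.Man.MW.pt_fg (neg_ne_zero.2 he1) (fun h => hne (neg_injective h))
        (neg_ne_zero.2 he2).symm
    have heq : Pool.Agent.H437R2.Man.MW.crv (-e1) 0 (-e2) = (Wt a b).baseChange L := by
      rw [← crv_eq hs hp]
      simp only [Pool.Agent.H437R2.Man.MW.crv, crv]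
      congr 1 <;> ring
    rw [heq] at hK
    exact Pool.Agent.H64R2.DCMW.fg_of_inj _ (emb_inj (L := L) a b) hK
  -- representatives
  let S1 : Finset ℤ := Z1
  obtain ⟨t1, ht1⟩ : ∃ t1 : ℤ → (Wt a b).toAffine.Point, ∀ z : ℤ,
      (∃ P, IsSquare (al a b P * z)) → IsSquare (al a b (t1 z) * z) :=
    ⟨fun z => if h : ∃ P, IsSquare (al a b P * z) then h.choose else 0, fun z h => by
      simp only [dif_pos h]
      exact h.choose_spec⟩
  obtain ⟨t2, ht2⟩ : ∃ t2 : ℤ → (Wt a b).toAffine.Point, ∀ z : ℤ,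
      (∃ P X, NX a b P X ∧ (IsSquare (X * z) ∨ IsSquare (X * (a ^ 2 - 4 * b) * z))) →
        ∃ X, NX a b (t2 z) X ∧ (IsSquare (X * z) ∨ IsSquare (X * (a ^ 2 - 4 * b) * z)) :=
    ⟨fun z => if h : ∃ P X, NX a b P X ∧ (IsSquare (X * z) ∨
        IsSquare (X * (a ^ 2 - 4 * b) * z)) then h.choose else 0, fun z h => by
      simp only [dif_pos h]
      exact h.choose_spec⟩
  set T : Finset (Wt a b).toAffine.Point := (Z1 ×ˢ Z2).image (fun z => t1 z.1 + t2 z.2) with hT
  have hcard : T.card ≤ Z1.card * Z2.card := by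
    rw [← Finset.card_product]
    exact Finset.card_image_le
  refine (count2 hb hfg T fun g => ?_).trans hcard
  obtain ⟨z1, hz1m, hz1s⟩ := h1 g
  have hz10 : (z1 : ℚ) ≠ 0 := by exact_mod_cast hz1 z1 hz1m
  have ht := ht1 z1 ⟨g, hz1s⟩
  -- `g - t1` is in `N`
  have hN : IsSquare (al a b (g - t1 z1)) := by
    have h3 := al_add (two_ne_zero : (2 : ℚ) ≠ 0) g (-(t1 z1))
    rw [← sub_eq_add_neg, al_neg] at h3
    have h4 := (h3.mul hz1s).mul ht
    have hg0 := al_ne hb g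
    have ht0 := al_ne hb (t1 z1)
    have h5 : al a b (g - t1 z1) * (al a b g * al a b (t1 z1)) * (al a b g * z1) *
        (al a b (t1 z1) * z1) = al a b (g - t1 z1) * (al a b g * al a b (t1 z1) * z1) ^ 2 := by
      ring
    rw [h5] at h4
    have h6 := h4.div (IsSquare.sq (al a b g * al a b (t1 z1) * z1))
    rwa [mul_div_assoc, div_self (pow_ne_zero 2 (mul_ne_zero (mul_ne_zero hg0 ht0) hz10)),
      mul_one] at h6
  obtain ⟨X, hX⟩ := NX_of _ hN
  have hX0 := NX_ne hd hX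
  obtain ⟨z2, hz2m, hz2s⟩ := h2 X hX0 (NX_dual hX)
  have hz20 : (z2 : ℚ) ≠ 0 := by exact_mod_cast hz2 z2 hz2m
  obtain ⟨X2, hX2, hX2s⟩ := ht2 z2 ⟨_, X, hX, hz2s⟩
  have hX20 := NX_ne hd hX2
  refine ⟨t1 z1 + t2 z2, Finset.mem_image.2 ⟨(z1, z2), Finset.mem_product.2 ⟨hz1m, hz2m⟩, rfl⟩, ?_⟩
  -- the difference
  set R := g - t1 z1 - t2 z2 with hR
  have hal2 : IsSquare (al a b (t2 z2)) := by
    rcases hX2 with ⟨h0, _⟩ | ⟨w, q, hn, h0, hq, _⟩
    · rw [h0, al_zero]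
      exact ⟨1, by ring⟩
    · rw [h0, al_some]
      split_ifs with hw
      · have : w = 0 := pow_eq_zero_iff (two_ne_zero) |>.1 hw
        rw [this] at hq
        exact ⟨q, by rw [← sq, hq]; ring⟩
      · exact IsSquare.sq w
  have hRs : IsSquare (al a b R) := by
    have h3 := al_add (two_ne_zero : (2 : ℚ) ≠ 0) (g - t1 z1) (-(t2 z2))
    rw [← sub_eq_add_neg, al_neg] at h3
    have h4 := h3.div (hN.mul hal2)
    rwa [mul_div_assoc, div_self (mul_ne_zero (al_ne hb _) (al_ne hb _)), mul_one] at h4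
  obtain ⟨XR, hXR⟩ := NX_of _ hRs
  have hXR0 := NX_ne hd hXR
  have hXRL : IsSquare (algebraMap ℚ L XR) := by
    have k1 := NX_dl hs hp hX
    have k2 := NX_dl hs hp hX2
    have k3 := NX_dl hs hp hXR
    have k4 := dlW_add h20 (crv_eq hs hp) (emb L a b (g - t1 z1)) (emb L a b (-(t2 z2)))
    rw [← map_add, ← sub_eq_add_neg, ← hR, map_neg, dlW_neg] at k4
    have k0 : ∀ Y : ℚ, (IsSquare (Y * z2) ∨ IsSquare (Y * (a ^ 2 - 4 * b) * z2)) →
        IsSquare (algebraMap ℚ L (Y * z2)) := by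
      intro Y hY
      rcases hY with hY | hY
      · exact hY.map (algebraMap ℚ L)
      · have h3 := hY.map (algebraMap ℚ L)
        have h4 : algebraMap ℚ L (Y * (a ^ 2 - 4 * b) * z2) =
            algebraMap ℚ L (Y * z2) * (e1 - e2) ^ 2 := by
          have h5 : (e1 - e2) ^ 2 = algebraMap ℚ L (a ^ 2 - 4 * b) := by
            rw [map_sub, map_mul, map_pow, map_ofNat, ← hp]
            have : (algebraMap ℚ L a) = -(e1 + e2) := by linear_combination hs
            rw [this]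
            ring
          rw [h5, ← map_mul]
          congr 1
          ring
        rw [h4] at h3
        have h5 := h3.div (IsSquare.sq (e1 - e2))
        rwa [mul_div_assoc, div_self (pow_ne_zero 2 (sub_ne_zero.2 hne)), mul_one] at h5
    have k5 : IsSquare (algebraMap ℚ L (X * X2)) := by
      have h3 := (k0 X hz2s).mul (k0 X2 hX2s)
      rw [← map_mul] at h3
      have h4 : X * z2 * (X2 * z2) = X * X2 * (z2 : ℚ) ^ 2 := by ring
      rw [h4, map_mul, map_pow] at h3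
      have h5 := h3.div (IsSquare.sq (algebraMap ℚ L (z2 : ℚ)))
      rwa [mul_div_assoc, div_self (pow_ne_zero 2 ((map_ne_zero _).2 hz20)), mul_one] at h5
    rw [map_mul] at k5
    have n1 : dlW e1 0 e2 (emb L a b (g - t1 z1)) ≠ 0 := dlW_ne he1 hne _
    have n2 : dlW e1 0 e2 (emb L a b (t2 z2)) ≠ 0 := dlW_ne he1 hne _
    have n3 : dlW e1 0 e2 (emb L a b R) ≠ 0 := dlW_ne he1 hne _
    have n4 : algebraMap ℚ L X ≠ 0 := (map_ne_zero _).2 hX0
    have n5 : algebraMap ℚ L X2 ≠ 0 := (map_ne_zero _).2 hX20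
    set d1 := dlW e1 0 e2 (emb L a b (g - t1 z1))
    set d2 := dlW e1 0 e2 (emb L a b (t2 z2))
    set d3 := dlW e1 0 e2 (emb L a b R)
    have k6 := (((k1.mul k2).mul k3).mul k4).mul k5
    have h7 : d1 * algebraMap ℚ L X * (d2 * algebraMap ℚ L X2) * (d3 * algebraMap ℚ L XR) *
        (d3 * (d1 * d2)) * (algebraMap ℚ L X * algebraMap ℚ L X2) =
        algebraMap ℚ L XR * (d1 * d2 * d3 * algebraMap ℚ L X * algebraMap ℚ L X2) ^ 2 := by ring
    rw [h7] at k6
    have k7 := k6.div (IsSquare.sq (d1 * d2 * d3 * algebraMap ℚ L X * algebraMap ℚ L X2))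
    rwa [mul_div_assoc, div_self (pow_ne_zero 2 (mul_ne_zero (mul_ne_zero (mul_ne_zero
      (mul_ne_zero n1 n2) n3) n4) n5)), mul_one] at k7
  obtain ⟨Q, hQ⟩ := NX_half hb hd hXR (hsq XR hXR0 hXRL)
  refine ⟨Q, ?_⟩
  rw [← hQ, hR]
  abel

end field

/-- **the bound for the rank** -/
theorem desc2 {a b : ℚ} (hb : b ≠ 0) (hd : a ^ 2 - 4 * b ≠ 0) (Z1 Z2 : Finset ℤ)
    (h1 : ∀ P : (Wt a b).toAffine.Point, ∃ z ∈ Z1, IsSquare (al a b P * z))
    (h2 : ∀ X : ℚ, X ≠ 0 → (X = 1 ∨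
      ∃ Y : ℚ, Y ^ 2 = X ^ 3 + (-2 * a) * X ^ 2 + (a ^ 2 - 4 * b) * X) →
      ∃ z ∈ Z2, IsSquare (X * z) ∨ IsSquare (X * (a ^ 2 - 4 * b) * z)) (hz1 : ∀ z ∈ Z1, z ≠ 0)
    (hz2 : ∀ z ∈ Z2, z ≠ 0) :
    2 ^ (Module.finrank ℤ (Wt a b).toAffine.Point + 1) ≤ Z1.card * Z2.card := by
  classical
  by_cases hsq : IsSquare (a ^ 2 - 4 * b)
  · obtain ⟨r, hr⟩ := hsq
    have hr0 : r ≠ 0 := by
      rintro rfl
      exact hd (by rw [hr]; ring)
    refine desc_aux2 (L := ℚ) hb hd (e1 := (-a + r) / 2) (e2 := (-a - r) / 2) ?_ ?_ ?_ ?_ Z1 Z2 h1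
      h2 hz1 hz2
    · change _ = -a
      ring
    · change _ = b
      linear_combination (1 / 4 : ℚ) * hr
    · intro h
      apply hr0
      linear_combination h
    · intro c _ hc
      exact Or.inl hc
  · have hF : Fact (∀ r : ℚ, r ^ 2 ≠ (a ^ 2 - 4 * b) + 0 * r) :=
      ⟨fun r hr => hsq ⟨r, by linear_combination -hr⟩⟩
    have hnf : NumberField (QuadraticAlgebra ℚ (a ^ 2 - 4 * b) 0) :=
      { to_charZero := inferInstance
        to_finiteDimensional := inferInstance }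
    set ω : QuadraticAlgebra ℚ (a ^ 2 - 4 * b) 0 := ⟨0, 1⟩ with hω
    have hω2 : ω * ω = algebraMap ℚ _ (a ^ 2 - 4 * b) := by
      rw [quad_map, hω, QuadraticAlgebra.mk_mul_mk]
      congr 1 <;> ring
    have h20 : (2 : QuadraticAlgebra ℚ (a ^ 2 - 4 * b) 0) ≠ 0 := two_ne_zero
    have hω0 : ω ≠ 0 := by
      intro h0
      have := congrArg QuadraticAlgebra.im h0
      simp [hω] at this
    set A := algebraMap ℚ (QuadraticAlgebra ℚ (a ^ 2 - 4 * b) 0) a with hA
    set B := algebraMap ℚ (QuadraticAlgebra ℚ (a ^ 2 - 4 * b) 0) b with hB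
    have hD : algebraMap ℚ (QuadraticAlgebra ℚ (a ^ 2 - 4 * b) 0) (a ^ 2 - 4 * b) =
        A ^ 2 - 4 * B := by
      rw [map_sub, map_mul, map_pow, map_ofNat]
    rw [hD] at hω2
    refine desc_aux2 (L := QuadraticAlgebra ℚ (a ^ 2 - 4 * b) 0) hb hd (e1 := (-A + ω) / 2)
      (e2 := (-A - ω) / 2) ?_ ?_ ?_ ?_ Z1 Z2 h1 h2 hz1 hz2
    · field_simp
      ring
    · rw [div_mul_div_comm, div_eq_iff (mul_ne_zero h20 h20)]
      linear_combination -hω2
    · intro h
      apply hω0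
      have h5 : (-A + ω) / 2 * 2 = (-A - ω) / 2 * 2 := by rw [h]
      rw [div_mul_cancel₀ _ h20, div_mul_cancel₀ _ h20] at h5
      have h6 : 2 * ω = 0 := by linear_combination h5
      exact (mul_eq_zero.1 h6).resolve_left h20
    · intro c _ hc
      exact quad_sq _ c hc



/-! ### the twists -/

open Pool.Agent.X99.C49

/-- the squarefree part of a rational number -/
theorem exists_sqf {x : ℚ} (hx : x ≠ 0) : ∃ (z : ℤ) (r : ℚ), Squarefree z ∧ r ≠ 0 ∧ x = z * r ^ 2 := by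
  set n : ℤ := x.num * x.den with hn
  have hn0 : n ≠ 0 := mul_ne_zero (Rat.num_ne_zero.2 hx) (by exact_mod_cast x.den_nz)
  obtain ⟨s, t, hst, hs⟩ := Nat.sq_mul_squarefree n.natAbs
  have hden : (x.den : ℚ) ≠ 0 := by exact_mod_cast x.den_nz
  have hxn : x = (n : ℚ) / (x.den : ℚ) ^ 2 := by
    rw [hn]
    push_cast
    have := Rat.num_div_den x
    field_simp
    rw [eq_comm, ← div_eq_iff hden]
    exact this
  have ht0 : (t : ℚ) ≠ 0 := by
    intro h0
    have : t = 0 := by exact_mod_cast h0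
    rw [this] at hst
    apply hn0
    rw [← Int.natAbs_eq_zero, ← hst]
    ring
  refine ⟨n.sign * s, t / x.den, ?_, div_ne_zero ht0 hden, ?_⟩
  · rw [← Int.squarefree_natAbs, Int.natAbs_mul, Int.natAbs_sign_of_ne_zero hn0, one_mul,
      Int.natAbs_natCast]
    exact hs
  · have h1 : (n : ℚ) = n.sign * (t ^ 2 * s) := by
      have h2 : n = n.sign * (n.natAbs : ℤ) := (Int.sign_mul_natAbs n).symm
      have h3 : ((n.natAbs : ℤ) : ℚ) = t ^ 2 * s := by
        rw [← hst]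
        push_cast
        ring
      calc (n : ℚ) = ((n.sign * (n.natAbs : ℤ) : ℤ) : ℚ) := by rw [← h2]
        _ = n.sign * ((n.natAbs : ℤ) : ℚ) := by push_cast; ring
        _ = _ := by rw [h3]
    refine hxn.trans ?_
    rw [h1]
    push_cast
    field_simp

theorem lp_Q {a b z : ℤ} (K : Type) [Field K] [CharZero K] (h : LP ℚ a b z) : LP K a b z := by
  obtain ⟨X, Y, r, hX, hY, hr⟩ := h
  refine ⟨(X : K), (Y : K), (r : K), by exact_mod_cast hX, ?_, ?_⟩
  · exact_mod_cast congrArg (fun q : ℚ => (q : K)) hY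
  · exact_mod_cast congrArg (fun q : ℚ => (q : K)) hr

/-- **the rank is at most twice the corank** -/
theorem rank_le {D : ℕ} (h : Fam D) :
    2 ^ (Module.finrank ℤ (Wt ((21 * (D : ℤ) : ℤ) : ℚ) ((112 * (D : ℤ) ^ 2 : ℤ) : ℚ)).toAffine.Point)
      ≤ nK P28 n4 D.primeFactors ^ 2 := by
  classical
  have H := dat h
  have hMD := Mn_eq h
  have hM4 := Mn4 H
  rw [hMD] at hM4
  have hDpos : (0 : ℤ) < (D : ℤ) := by omega
  have hD2 : (0 : ℤ) < (D : ℤ) ^ 2 := by positivity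
  have hb : (112 * (D : ℤ) ^ 2 : ℤ) ≠ 0 := by positivity
  have hab : (21 * (D : ℤ)) ^ 2 - 4 * (112 * (D : ℤ) ^ 2) ≠ 0 := by nlinarith
  have hab' : (-42 * (D : ℤ)) ^ 2 - 4 * (-7 * (D : ℤ) ^ 2) ≠ 0 := by nlinarith
  have hbQ : ((112 * (D : ℤ) ^ 2 : ℤ) : ℚ) ≠ 0 := by exact_mod_cast hb
  have hdQ : ((21 * (D : ℤ) : ℤ) : ℚ) ^ 2 - 4 * ((112 * (D : ℤ) ^ 2 : ℤ) : ℚ) ≠ 0 := by
    exact_mod_cast hab
  have hKe : Ker (IP D) (SPr D) ∅ := by
    refine ⟨Finset.empty_subset _, fun p _ => Finset.sum_empty, fun p hp => ?_⟩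
    exact absurd hp (Finset.notMem_empty p)
  -- a rational point with a given class
  have selA' : ∀ z : ℤ, Squarefree z → LP ℚ (21 * (D : ℤ)) (112 * (D : ℤ) ^ 2) z →
      z ∈ img 7 (IP D) (SPr D) := by
    intro z hz hl
    have hdv : ∀ (l : ℕ) [Fact l.Prime],
        Pool.Agent.Y700.PC (21 * (Mn (IP D) (SPr D) : ℤ)) (112 * (Mn (IP D) (SPr D) : ℤ) ^ 2) l z := by
      intro l _
      rw [hMD]
      exact pc_of_lp hab (lp_Q ℚ_[l] hl)
    have hz0 : 0 < z := by
      obtain ⟨X, Y, r, hX, hY, hr⟩ := lp_Q ℝ hl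
      by_contra hcon
      push Not at hcon
      have hzR : (z : ℝ) ≤ 0 := by exact_mod_cast hcon
      have hX1 : X < 0 := by
        refine lt_of_le_of_ne ?_ hX
        rw [hr]
        exact mul_nonpos_of_nonpos_of_nonneg hzR (sq_nonneg r)
      have hMR : (0 : ℝ) < ((D : ℤ) : ℝ) := by exact_mod_cast hDpos
      generalize (D : ℤ) = M at *
      push_cast at hY
      have h1 : 0 < X ^ 2 + 21 * M * X + 112 * (M : ℝ) ^ 2 := by
        nlinarith [sq_nonneg (2 * X + 21 * M), mul_pos hMR hMR]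
      have h2 : X * (X ^ 2 + 21 * M * X + 112 * (M : ℝ) ^ 2) < 0 := mul_neg_of_neg_of_pos hX1 h1
      nlinarith [sq_nonneg Y]
    exact mem_img.2 (selAK H hz hz0 hdv)
  have selB' : ∀ z : ℤ, Squarefree z → LP ℚ (-42 * (D : ℤ)) (-7 * (D : ℤ) ^ 2) z →
      ∃ J, Ker (IP D) (SPr D) J ∧
        (z = ((∏ q ∈ J, q : ℕ) : ℤ) ∨ z = -7 * ((∏ q ∈ J, q : ℕ) : ℤ)) := by
    intro z hz hl
    refine selBK H hz fun l _ => ?_
    rw [hMD]
    exact pc_of_lp hab' (lp_Q ℚ_[l] hl)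
  have key := desc2 hbQ hdQ (img 7 (IP D) (SPr D))
    ((kerF (IP D) (SPr D)).image fun J => ((∏ q ∈ J, q : ℕ) : ℤ)) ?_ ?_ ?_ ?_
  · rw [card_img H (Or.inl rfl), Finset.card_image_of_injOn (by
      intro J hJ J' hJ' h
      exact prod_inj H (mem_kerF.1 (Finset.mem_coe.1 hJ)).1 (mem_kerF.1 (Finset.mem_coe.1 hJ')).1 h),
      ← nK_ker h, pow_succ] at key
    have e : 2 * nK P28 n4 D.primeFactors * nK P28 n4 D.primeFactors =
      nK P28 n4 D.primeFactors ^ 2 * 2 := by ring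
    rw [e] at key
    exact Nat.le_of_mul_le_mul_right key (by norm_num)
  · intro P
    cases P with
    | zero =>
      refine ⟨1, mem_img.2 ⟨∅, hKe, Or.inl ?_⟩, ⟨1, ?_⟩⟩
      · rw [Finset.prod_empty]; rfl
      · show (1 : ℚ) * ((1 : ℤ) : ℚ) = 1 * 1
        norm_num
    | some x y hn =>
      have hy := Wt_eqn.mp hn.1
      rw [al_some]
      by_cases hx : x = 0
      · rw [if_pos hx]
        refine ⟨7, mem_img.2 ⟨∅, hKe, Or.inr ?_⟩, ⟨28 * (D : ℚ), ?_⟩⟩
        · rw [Finset.prod_empty]; rfl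
        · push_cast
          ring
      · rw [if_neg hx]
        obtain ⟨z, r, hz, hr0, hr⟩ := exists_sqf hx
        refine ⟨z, selA' z hz ⟨x, y, r, hx, hy, hr⟩, ⟨z * r, ?_⟩⟩
        rw [hr]
        ring
  · intro X hX hX'
    have main : ∀ Y : ℚ, Y ^ 2 = X ^ 3 + (-2 * ((21 * (D : ℤ) : ℤ) : ℚ)) * X ^ 2 +
        (((21 * (D : ℤ) : ℤ) : ℚ) ^ 2 - 4 * ((112 * (D : ℤ) ^ 2 : ℤ) : ℚ)) * X →
        ∃ z ∈ ((kerF (IP D) (SPr D)).image fun J => ((∏ q ∈ J, q : ℕ) : ℤ)), IsSquare (X * z) ∨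
          IsSquare (X * (((21 * (D : ℤ) : ℤ) : ℚ) ^ 2 - 4 * ((112 * (D : ℤ) ^ 2 : ℤ) : ℚ)) * z) := by
      intro Y hY
      obtain ⟨z, r, hz, hr0, hr⟩ := exists_sqf hX
      obtain ⟨J, hJ, hzJ⟩ := selB' z hz ⟨X, Y, r, hX, by
        rw [hY]
        push_cast
        ring, hr⟩
      refine ⟨_, Finset.mem_image.2 ⟨J, mem_kerF.2 hJ, rfl⟩, ?_⟩
      rcases hzJ with h1 | h1
      · left
        refine ⟨z * r, ?_⟩
        rw [hr, ← h1]
        ring
      · right
        refine ⟨7 * D * ((∏ q ∈ J, q : ℕ) : ℤ) * r, ?_⟩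
        rw [hr, h1]
        push_cast
        ring
    rcases hX' with hX' | ⟨Y, hY⟩
    · refine ⟨1, Finset.mem_image.2 ⟨∅, mem_kerF.2 hKe, by rw [Finset.prod_empty]; rfl⟩, Or.inl ?_⟩
      rw [hX']
      exact ⟨1, by norm_num⟩
    · exact main Y hY
  · intro z hz h0
    obtain ⟨J, hJ, h1 | h1⟩ := mem_img.1 hz
    · have := prodJ4 H hJ.1
      omega
    · have := prodJ4 H hJ.1
      omega
  · intro z hz h0
    obtain ⟨J, hJ, h1⟩ := Finset.mem_image.1 hz
    have := prodJ4 H (mem_kerF.1 hJ).1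
    omega

end Pool.Agent.X99.CK
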