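import Mathlib
import Pool.Agent.X99.CK.Jn
import Pool.Agent.X99.CK.Rank

/-!
# The law of the half Selmer rank
-/

set_option autoImplicit false
set_option linter.unusedSectionVars false
set_option linter.style.haveILetI false

open Finset Filter

namespace Pool.Agent.X99.CK

open Pool.Agent.X99.C49
open Pool.Agent.X99.GQ (Par Ok HAL Cl Gd SS)
open Pool.Agent.X99.GJ (star star_pf star_one fc OkW)
open Pool.Agent.Y697.PQ (gi cf)

/-- the corank -/
noncomputable def kk (D : ℕ) : ℕ := Nat.log 2 (nK P28 n4 D.primeFactors)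

theorem nK_kk (D : ℕ) : nK P28 n4 D.primeFactors = 2 ^ kk D := by
  obtain ⟨k, hk⟩ := nK_pow P28 n4 D.primeFactors
  unfold kk
  rw [hk, Nat.log_pow (by norm_num)]

open Classical in
/-- the proportion of the members of the family -/
noncomputable def pX (S : Set ℕ) (X : ℕ) : ℝ :=
  (((Icc 1 X).filter fun D => Fam D ∧ D ∈ S).card : ℝ) / (((Icc 1 X).filter fun D => Fam D).card : ℝ)

theorem fam_one : Fam 1 := by
  refine ⟨squarefree_one, fun p hp h => ?_⟩
  rw [Nat.dvd_one] at h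
  exact absurd h hp.one_lt.ne'

open Classical in
theorem den_pos {X : ℕ} (hX : 1 ≤ X) : 0 < (((Icc 1 X).filter fun D => Fam D).card : ℝ) := by
  rw [Nat.cast_pos, Finset.card_pos]
  exact ⟨1, Finset.mem_filter.2 ⟨Finset.mem_Icc.2 ⟨le_rfl, hX⟩, fam_one⟩⟩

theorem pX_mono {S T : Set ℕ} (h : ∀ D, Fam D → D ∈ S → D ∈ T) (X : ℕ) : pX S X ≤ pX T X := by
  classical
  unfold pX
  refine div_le_div_of_nonneg_right (Nat.cast_le.2 (Finset.card_le_card fun D hD => ?_))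
    (Nat.cast_nonneg _)
  rw [Finset.mem_filter] at hD ⊢
  exact ⟨hD.1, hD.2.1, h D hD.2.1 hD.2.2⟩

theorem pX_congr {S T : Set ℕ} (h : ∀ D, Fam D → (D ∈ S ↔ D ∈ T)) (X : ℕ) : pX S X = pX T X :=
  le_antisymm (pX_mono (fun D hD => (h D hD).1) X) (pX_mono (fun D hD => (h D hD).2) X)

theorem pX_univ {X : ℕ} (hX : 1 ≤ X) : pX Set.univ X = 1 := by
  classical
  unfold pX
  rw [div_eq_one_iff_eq (den_pos hX).ne']
  refine congrArg Nat.cast (fc _ fun D _ => ?_)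
  simp

theorem pX_nonneg (S : Set ℕ) (X : ℕ) : 0 ≤ pX S X :=
  div_nonneg (Nat.cast_nonneg _) (Nat.cast_nonneg _)

theorem pX_add {S T : Set ℕ} (h : Disjoint S T) (X : ℕ) : pX (S ∪ T) X = pX S X + pX T X := by
  classical
  unfold pX
  rw [← add_div]
  congr 1
  rw [← Nat.cast_add, ← Finset.card_union_of_disjoint]
  · congr 2
    ext D
    simp only [Finset.mem_filter, Finset.mem_union, Set.mem_union]
    tauto
  · rw [Finset.disjoint_left]
    intro D h1 h2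
    rw [Finset.mem_filter] at h1 h2
    exact Set.disjoint_left.1 h h1.2.2 h2.2.2

theorem pX_bi {ι : Type} (I : Finset ι) (S : ι → Set ℕ)
    (h : ∀ i ∈ I, ∀ j ∈ I, i ≠ j → Disjoint (S i) (S j)) (X : ℕ) :
    pX (⋃ i ∈ I, S i) X = ∑ i ∈ I, pX (S i) X := by
  classical
  induction I using Finset.induction_on with
  | empty =>
    unfold pX
    simp
  | insert a I ha ih =>
    rw [Finset.set_biUnion_insert, pX_add, Finset.sum_insert ha,
      ih fun i hi j hj => h i (Finset.mem_insert_of_mem hi) j (Finset.mem_insert_of_mem hj)]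
    rw [Set.disjoint_iUnion₂_right]
    intro i hi
    exact h a (Finset.mem_insert_self _ _) i (Finset.mem_insert_of_mem hi)
      fun e => ha (e ▸ hi)

/-- **the joint law** -/
theorem lawK (𝒢 : Finset ℕ) (hG : ∀ m ∈ 𝒢, Fam m) (r : ℕ → ℕ) :
    Tendsto (pX {D | ∀ m ∈ 𝒢, kk (star m D) = r m}) atTop (nhds (∏ m ∈ 𝒢, pr (r m))) := by
  classical
  refine (jointK 𝒢 hG r).congr fun X => ?_
  unfold pX
  congr 2
  refine fc _ fun D _ => ?_
  refine and_congr_right fun _ => ?_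
  rw [Set.mem_ofPred_eq]
  refine forall_congr' fun m => forall_congr' fun hm => ?_
  rw [nK_kk]
  exact ⟨fun h => Nat.pow_right_injective le_rfl h, fun h => by rw [h]⟩

/-- **the law of the vector is bounded by boxes** -/
theorem lawBox (𝒢 : Finset ℕ) (hG : ∀ m ∈ 𝒢, Fam m) (B : ℕ → Finset ℕ) :
    Tendsto (pX {D | ∀ m ∈ 𝒢, kk (star m D) ∈ B m}) atTop
      (nhds (∏ m ∈ 𝒢, ∑ r ∈ B m, pr r)) := by
  classical
  have h1 : ∏ m ∈ 𝒢, ∑ r ∈ B m, pr r = ∑ p ∈ 𝒢.pi B, ∏ m ∈ 𝒢.attach, pr (p m.1 m.2) :=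
    Finset.prod_sum 𝒢 B fun _ r => pr r
  rw [h1]
  -- the extension of a choice
  let ex : (∀ m ∈ 𝒢, ℕ) → ℕ → ℕ := fun p m => if h : m ∈ 𝒢 then p m h else 0
  have hex : ∀ (p : ∀ m ∈ 𝒢, ℕ) (m : ℕ) (hm : m ∈ 𝒢), ex p m = p m hm := fun p m hm => dif_pos hm
  have h2 : ∀ p : ∀ m ∈ 𝒢, ℕ, ∏ m ∈ 𝒢.attach, pr (p m.1 m.2) = ∏ m ∈ 𝒢, pr (ex p m) := by
    intro p
    rw [← Finset.prod_attach 𝒢]
    exact Finset.prod_congr rfl fun m _ => by rw [hex p m.1 m.2]
  have h3 : ∀ X, pX {D | ∀ m ∈ 𝒢, kk (star m D) ∈ B m} X =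
      ∑ p ∈ 𝒢.pi B, pX {D | ∀ m ∈ 𝒢, kk (star m D) = ex p m} X := by
    intro X
    rw [← pX_bi]
    · refine pX_congr (fun D _ => ?_) X
      rw [Set.mem_iUnion₂]
      constructor
      · intro h
        refine ⟨fun m _ => kk (star m D), Finset.mem_pi.2 fun m hm => h m hm, fun m hm => ?_⟩
        exact (hex (fun m _ => kk (star m D)) m hm).symm
      · rintro ⟨p, hp, h⟩ m hm
        rw [h m hm, hex p m hm]
        exact Finset.mem_pi.1 hp m hm
    · intro p _ p' _ hne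
      rw [Set.disjoint_left]
      intro D h h'
      refine hne (funext fun m => funext fun hm => ?_)
      rw [← hex p m hm, ← hex p' m hm, ← h m hm, ← h' m hm]
  have h4 : Tendsto (fun X => ∑ p ∈ 𝒢.pi B, pX {D | ∀ m ∈ 𝒢, kk (star m D) = ex p m} X) atTop
      (nhds (∑ p ∈ 𝒢.pi B, ∏ m ∈ 𝒢, pr (ex p m))) :=
    tendsto_finsetSum _ fun p _ => lawK 𝒢 hG (ex p)
  rw [Finset.sum_congr rfl fun p _ => h2 p]
  exact h4.congr fun X => (h3 X).symm

/-- **the rank** -/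
theorem rank_kk {D : ℕ} (h : Fam D) :
    Module.finrank ℤ (Pool.Agent.Y668.Wt ((21 * (D : ℤ) : ℤ) : ℚ)
      ((112 * (D : ℤ) ^ 2 : ℤ) : ℚ)).toAffine.Point ≤ 2 * kk D := by
  have h1 := rank_le h
  rw [nK_kk, ← pow_mul] at h1
  have h2 := (Nat.pow_le_pow_iff_right (by norm_num)).1 h1
  omega

/-- the corank zero -/
theorem kk_zero (D : ℕ) : kk D = 0 ↔ Gd P28 n4 D.primeFactors := by
  have h1 : kk D = 0 ↔ nK P28 n4 D.primeFactors = 1 := by
    rw [nK_kk]
    constructor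
    · intro h
      rw [h, pow_zero]
    · intro h
      exact Nat.pow_right_injective le_rfl (h.trans (pow_zero 2).symm)
  rw [h1]
  unfold nK
  rw [Nat.card_eq_one_iff_unique]
  constructor
  · rintro ⟨hsub, ⟨y⟩⟩ x hx p hp hpA
    classical
    obtain ⟨x', hx'⟩ : ∃ x' : ℕ → ZMod 2, ∀ q,
        x' q = if q ∈ D.primeFactors ∧ q % P28.N ∈ P28.A then x q else 0 := ⟨_, fun _ => rfl⟩
    have h2 : SolK P28 n4 D.primeFactors x' := by
      refine ⟨fun q hq => by rw [hx', if_neg hq], fun q hq hqA => ?_⟩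
      have h3 := hx q hq hqA
      have h5 : x' q = x q := by rw [hx', if_pos ⟨hq, hqA⟩]
      rw [← h3, h5]
      congr 1
      refine Finset.sum_congr rfl fun l hl => ?_
      congr 2
      unfold Pool.Agent.X99.GQ.cu
      by_cases hlA : l % P28.N ∈ P28.A
      · rw [if_pos hlA, if_pos hlA, hx', if_pos ⟨hl, hlA⟩]
      · rw [if_neg hlA, if_neg hlA]
    have h0 : SolK P28 n4 D.primeFactors (fun _ => 0) := by
      refine ⟨fun q _ => rfl, fun q hq hqA => ?_⟩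
      have hc : ∀ l, Pool.Agent.X99.GQ.cu P28 (fun _ => (0 : ZMod 2)) l = 0 := by
        intro l
        unfold Pool.Agent.X99.GQ.cu
        split_ifs <;> rfl
      simp only [hc, add_zero, mul_zero, Finset.sum_const_zero]
    have h4 := congrArg (fun z : {x : ℕ → ZMod 2 // SolK P28 n4 D.primeFactors x} => z.1 p)
      (Subsingleton.elim (⟨_, h2⟩ : {x : ℕ → ZMod 2 // SolK P28 n4 D.primeFactors x}) ⟨_, h0⟩)
    simp only at h4
    rw [hx', if_pos ⟨hp, hpA⟩] at h4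
    exact h4
  · intro h
    have hz : ∀ x : {x : ℕ → ZMod 2 // SolK P28 n4 D.primeFactors x}, x.1 = fun _ => 0 := by
      intro x
      funext q
      by_cases hq : q ∈ D.primeFactors ∧ q % P28.N ∈ P28.A
      · exact h x.1 x.2.2 q hq.1 hq.2
      · exact x.2.1 q hq
    refine ⟨⟨fun x y => Subtype.ext ((hz x).trans (hz y).symm)⟩, ⟨⟨fun _ => 0, ?_⟩⟩⟩
    refine ⟨fun q _ => rfl, fun q hq hqA => ?_⟩
    have hc : ∀ l, Pool.Agent.X99.GQ.cu P28 (fun _ => (0 : ZMod 2)) l = 0 := by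
      intro l
      unfold Pool.Agent.X99.GQ.cu
      split_ifs <;> rfl
    simp only [hc, add_zero, mul_zero, Finset.sum_const_zero]

/-- **the joint law for arbitrary sets** -/
theorem lawSet (𝒢 : Finset ℕ) (hG : ∀ m ∈ 𝒢, Fam m) (A : ℕ → Set ℕ) :
    Tendsto (pX {D | ∀ m ∈ 𝒢, kk (star m D) ∈ A m}) atTop
      (nhds (∏ m ∈ 𝒢, ∑' r, (A m).indicator pr r)) := by
  classical
  have hs : ∀ m, HasSum ((A m).indicator pr) (∑' r, (A m).indicator pr r) := fun m =>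
    (hasSum_pr.summable.indicator (A m)).hasSum
  set a : ℝ := ∏ m ∈ 𝒢, ∑' r, (A m).indicator pr r with ha
  have l1 : Tendsto (fun R : ℕ => ∏ m ∈ 𝒢, ∑ r ∈ (range R).filter (· ∈ A m), pr r) atTop
      (nhds a) := by
    refine tendsto_finsetProd _ fun m _ => ?_
    refine (hs m).tendsto_sum_nat.congr fun R => ?_
    rw [Finset.sum_filter]
    exact Finset.sum_congr rfl fun r _ => by rw [Set.indicator_apply]
  have l2 : Tendsto (fun R : ℕ => ∏ _m ∈ 𝒢, ∑ r ∈ range R, pr r) atTop (nhds (∏ _m ∈ 𝒢, 1)) :=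
    tendsto_finsetProd _ fun m _ => hasSum_pr.tendsto_sum_nat
  rw [Finset.prod_const_one] at l2
  rw [Metric.tendsto_atTop]
  intro ε hε
  obtain ⟨R₁, hR₁⟩ := Metric.tendsto_atTop.1 l1 (ε / 4) (by positivity)
  obtain ⟨R₂, hR₂⟩ := Metric.tendsto_atTop.1 l2 (ε / 4) (by positivity)
  set R := max R₁ R₂ with hR
  have g1 := hR₁ R (le_max_left _ _)
  have g2 := hR₂ R (le_max_right _ _)
  have t1 := lawBox 𝒢 hG fun m => (range R).filter (· ∈ A m)
  have t2 := lawBox 𝒢 hG fun _ => range R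
  obtain ⟨X₁, hX₁⟩ := Metric.tendsto_atTop.1 t1 (ε / 4) (by positivity)
  obtain ⟨X₂, hX₂⟩ := Metric.tendsto_atTop.1 t2 (ε / 4) (by positivity)
  refine ⟨max 1 (max X₁ X₂), fun X hX => ?_⟩
  have k1 := hX₁ X (le_trans (le_trans (le_max_left _ _) (le_max_right _ _)) hX)
  have k2 := hX₂ X (le_trans (le_trans (le_max_right _ _) (le_max_right _ _)) hX)
  have hX1 : 1 ≤ X := le_trans (le_max_left _ _) hX
  have lo : pX {D | ∀ m ∈ 𝒢, kk (star m D) ∈ (range R).filter (· ∈ A m)} X ≤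
      pX {D | ∀ m ∈ 𝒢, kk (star m D) ∈ A m} X := by
    refine pX_mono (fun D _ h => ?_) X
    exact fun m hm => (Finset.mem_filter.1 (h m hm)).2
  have hi : pX {D | ∀ m ∈ 𝒢, kk (star m D) ∈ A m} X ≤
      pX {D | ∀ m ∈ 𝒢, kk (star m D) ∈ (range R).filter (· ∈ A m)} X +
        (1 - pX {D | ∀ m ∈ 𝒢, kk (star m D) ∈ range R} X) := by
    have e1 : pX Set.univ X = pX {D | ∀ m ∈ 𝒢, kk (star m D) ∈ range R} X +
        pX {D | ∀ m ∈ 𝒢, kk (star m D) ∈ range R}ᶜ X := by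
      rw [← pX_add disjoint_compl_right, Set.union_compl_self]
    rw [pX_univ hX1] at e1
    have e2 : pX {D | ∀ m ∈ 𝒢, kk (star m D) ∈ A m} X ≤
        pX ({D | ∀ m ∈ 𝒢, kk (star m D) ∈ (range R).filter (· ∈ A m)} ∪
          {D | ∀ m ∈ 𝒢, kk (star m D) ∈ range R}ᶜ) X := by
      refine pX_mono (fun D _ h => ?_) X
      by_cases h1 : D ∈ {D | ∀ m ∈ 𝒢, kk (star m D) ∈ range R}
      · refine Or.inl fun m hm => Finset.mem_filter.2 ⟨h1 m hm, h m hm⟩
      · exact Or.inr h1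
    rw [pX_add] at e2
    · linarith
    · rw [Set.disjoint_left]
      intro D h1 h2
      exact h2 fun m hm => (Finset.mem_filter.1 (h1 m hm)).1
  rw [Real.dist_eq, abs_lt] at g1 g2 k1 k2 ⊢
  constructor <;> linarith [g1.1, g1.2, g2.1, g2.2, k1.1, k1.2, k2.1, k2.2]

end Pool.Agent.X99.CK
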