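import Mathlib
import Pool.Agent.X99.CK.Law

/-!
# The law of large numbers for the twists of almost all the members
-/

set_option autoImplicit false
set_option linter.unusedSectionVars false
set_option linter.style.haveILetI false

open Finset Filter

namespace Pool.Agent.X99.CK

open Pool.Agent.X99.C49
open Pool.Agent.X99.GQ (Par Ok HAL Cl Gd SS)
open Pool.Agent.X99.GJ (star star_pf star_one fc OkW)
open Pool.Agent.Y697.PQ (gi cf)

open Classical in
/-- the average over the members of the family -/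
noncomputable def av (g : ℕ → ℝ) (X : ℕ) : ℝ :=
  (∑ D ∈ (Icc 1 X).filter fun D => Fam D, g D) / (((Icc 1 X).filter fun D => Fam D).card : ℝ)

theorem av_add (g h : ℕ → ℝ) (X : ℕ) : av (fun D => g D + h D) X = av g X + av h X := by
  unfold av
  rw [Finset.sum_add_distrib, add_div]

theorem av_mul (c : ℝ) (g : ℕ → ℝ) (X : ℕ) : av (fun D => c * g D) X = c * av g X := by
  unfold av
  rw [← Finset.mul_sum, mul_div_assoc]

theorem av_sum {ι : Type} (I : Finset ι) (g : ι → ℕ → ℝ) (X : ℕ) :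
    av (fun D => ∑ i ∈ I, g i D) X = ∑ i ∈ I, av (g i) X := by
  unfold av
  rw [Finset.sum_comm, Finset.sum_div]

theorem av_const (c : ℝ) {X : ℕ} (hX : 1 ≤ X) : av (fun _ => c) X = c := by
  unfold av
  rw [Finset.sum_const, nsmul_eq_mul, mul_div_assoc, mul_comm, div_mul_cancel₀]
  exact (den_pos hX).ne'

theorem av_mono {g h : ℕ → ℝ} (H : ∀ D, Fam D → g D ≤ h D) (X : ℕ) : av g X ≤ av h X := by
  classical
  unfold av
  exact div_le_div_of_nonneg_right (Finset.sum_le_sum fun D hD => H D (Finset.mem_filter.1 hD).2)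
    (Nat.cast_nonneg _)

theorem av_congr {g h : ℕ → ℝ} (H : ∀ D, Fam D → g D = h D) (X : ℕ) : av g X = av h X :=
  le_antisymm (av_mono (fun D hD => (H D hD).le) X) (av_mono (fun D hD => (H D hD).ge) X)

theorem av_ind (S : Set ℕ) {d : ∀ D, Decidable (D ∈ S)} (X : ℕ) :
    av (fun D => @ite ℝ (D ∈ S) (d D) 1 0) X = pX S X := by
  classical
  unfold av pX
  rw [← Finset.sum_filter, Finset.sum_const, nsmul_eq_mul, mul_one, Finset.filter_filter]
  congr 2
  exact fc _ fun D _ => Iff.rfl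

/-- Chebyshev's inequality -/
theorem cheb (g : ℕ → ℝ) {t : ℝ} (ht : 0 < t) (X : ℕ) :
    pX {D | t < |g D|} X ≤ av (fun D => g D ^ 2) X / t ^ 2 := by
  classical
  rw [← av_ind (d := fun D => Classical.propDecidable _), le_div_iff₀ (by positivity), mul_comm,
    ← av_mul]
  refine av_mono (fun D _ => ?_) X
  split_ifs with h
  · have h1 : t < |g D| := h
    rw [mul_one, ← sq_abs (g D)]
    exact pow_le_pow_left₀ ht.le h1.le 2
  · rw [mul_zero]
    positivity

open Classical in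
/-- the indicator -/
noncomputable def ik (j m D : ℕ) : ℝ := if kk (star m D) = j then 1 else 0

theorem ik_lim {m : ℕ} (hm : Fam m) (j : ℕ) : Tendsto (av (ik j m)) atTop (nhds (pr j)) := by
  classical
  have h := lawK {m} (fun x hx => by rw [Finset.mem_singleton.1 hx]; exact hm) (fun _ => j)
  rw [Finset.prod_singleton] at h
  refine h.congr fun X => ?_
  rw [← av_ind]
  refine av_congr (fun D _ => ?_) X
  unfold ik
  refine if_congr ?_ rfl rfl
  exact ⟨fun h => h m (Finset.mem_singleton_self m), fun h x hx => by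
    rw [Finset.mem_singleton.1 hx]; exact h⟩

theorem ik_pair {m m' : ℕ} (hm : Fam m) (hm' : Fam m') (hne : m ≠ m') (j : ℕ) :
    Tendsto (av (fun D => ik j m D * ik j m' D)) atTop (nhds (pr j ^ 2)) := by
  classical
  have h := lawK {m, m'} (fun x hx => by
    rcases Finset.mem_insert.1 hx with rfl | hx
    · exact hm
    · rw [Finset.mem_singleton.1 hx]; exact hm') (fun _ => j)
  rw [Finset.prod_pair hne, ← pow_two] at h
  refine h.congr fun X => ?_
  rw [← av_ind]
  refine av_congr (fun D _ => ?_) X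
  unfold ik
  rw [ite_zero_mul_ite_zero, mul_one]
  refine if_congr ?_ rfl rfl
  constructor
  · intro h
    exact ⟨h m (Finset.mem_insert_self _ _), h m' (Finset.mem_insert_of_mem
      (Finset.mem_singleton_self _))⟩
  · rintro ⟨h1, h2⟩ x hx
    rcases Finset.mem_insert.1 hx with rfl | hx
    · exact h1
    · rw [Finset.mem_singleton.1 hx]
      exact h2

/-- the limit of the variance -/
theorem var_lim {𝓜 : Finset ℕ} (hM : ∀ m ∈ 𝓜, Fam m) (j : ℕ) :
    Tendsto (av fun D => (∑ m ∈ 𝓜, (ik j m D - pr j)) ^ 2) atTop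
      (nhds (𝓜.card * (pr j - pr j ^ 2))) := by
  classical
  have h1 : ∀ m ∈ 𝓜, ∀ m' ∈ 𝓜, Tendsto (av fun D => (ik j m D - pr j) * (ik j m' D - pr j)) atTop
      (nhds (if m = m' then pr j - pr j ^ 2 else 0)) := by
    intro m hm m' hm'
    have e : ∀ X, 1 ≤ X → av (fun D => ik j m D * ik j m' D) X + ((-pr j) * av (ik j m) X +
        ((-pr j) * av (ik j m') X + pr j ^ 2)) =
        av (fun D => (ik j m D - pr j) * (ik j m' D - pr j)) X := by
      intro X hX
      rw [← av_mul, ← av_mul, ← av_const (pr j ^ 2) hX, ← av_add, ← av_add, ← av_add]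
      exact av_congr (fun D _ => by ring) X
    have t1 := ik_lim (hM m hm) j
    have t2 := ik_lim (hM m' hm') j
    split_ifs with hne
    · subst hne
      have t3 : Tendsto (av fun D => ik j m D * ik j m D) atTop (nhds (pr j)) := by
        refine t1.congr fun X => av_congr (fun D _ => ?_) X
        unfold ik
        split_ifs <;> norm_num
      have t4 := t3.add ((t1.const_mul (-pr j)).add ((t1.const_mul (-pr j)).add
        (tendsto_const_nhds (x := pr j ^ 2))))
      have e2 : pr j + (-pr j * pr j + (-pr j * pr j + pr j ^ 2)) = pr j - pr j ^ 2 := by ring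
      rw [e2] at t4
      refine t4.congr' ?_
      filter_upwards [eventually_ge_atTop 1] with X hX
      exact e X hX
    · have t3 := ik_pair (hM m hm) (hM m' hm') hne j
      have t4 := t3.add ((t1.const_mul (-pr j)).add ((t2.const_mul (-pr j)).add
        (tendsto_const_nhds (x := pr j ^ 2))))
      have e2 : pr j ^ 2 + (-pr j * pr j + (-pr j * pr j + pr j ^ 2)) = 0 := by ring
      rw [e2] at t4
      refine t4.congr' ?_
      filter_upwards [eventually_ge_atTop 1] with X hX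
      exact e X hX
  have h2 : Tendsto (fun X => ∑ m ∈ 𝓜, ∑ m' ∈ 𝓜,
      av (fun D => (ik j m D - pr j) * (ik j m' D - pr j)) X) atTop
      (nhds (∑ m ∈ 𝓜, ∑ m' ∈ 𝓜, if m = m' then pr j - pr j ^ 2 else 0)) :=
    tendsto_finsetSum _ fun m hm => tendsto_finsetSum _ fun m' hm' => h1 m hm m' hm'
  have h3 : ∑ m ∈ 𝓜, ∑ m' ∈ 𝓜, (if m = m' then pr j - pr j ^ 2 else 0) =
      𝓜.card * (pr j - pr j ^ 2) := by
    have : ∀ m ∈ 𝓜, ∑ m' ∈ 𝓜, (if m = m' then pr j - pr j ^ 2 else 0) = pr j - pr j ^ 2 := by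
      intro m hm
      rw [Finset.sum_ite_eq, if_pos hm]
    rw [Finset.sum_congr rfl this, Finset.sum_const, nsmul_eq_mul]
  rw [h3] at h2
  refine h2.congr fun X => ?_
  rw [← av_congr (fun D _ => (Finset.sum_mul_sum 𝓜 𝓜 (fun m => ik j m D - pr j)
    (fun m => ik j m D - pr j)).symm.trans (pow_two _).symm) X, av_sum]
  exact Finset.sum_congr rfl fun m _ => (av_sum _ _ _).symm

/-- **one class, one set of twists** -/
theorem dev {𝓜 : Finset ℕ} (hM : ∀ m ∈ 𝓜, Fam m) (hc : 0 < 𝓜.card) (j : ℕ) {ε δ : ℝ} (hε : 0 < ε)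
    (hδ : 1 / (ε ^ 2 * 𝓜.card) < δ) :
    ∀ᶠ X : ℕ in atTop, pX {D | ε * 𝓜.card < |∑ m ∈ 𝓜, ik j m D - 𝓜.card * pr j|} X ≤ δ := by
  have hc' : (0 : ℝ) < 𝓜.card := by exact_mod_cast hc
  have h1 := (var_lim hM j).div_const ((ε * 𝓜.card) ^ 2)
  have h2 : (𝓜.card : ℝ) * (pr j - pr j ^ 2) / (ε * 𝓜.card) ^ 2 < δ := by
    refine lt_of_le_of_lt ?_ hδ
    rw [div_le_div_iff₀ (by positivity) (by positivity)]
    have h3 := pr_nonneg j
    have h4 := pr_le_one j
    have h5 : pr j - pr j ^ 2 ≤ 1 := by nlinarith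
    have h6 : (0 : ℝ) ≤ ε ^ 2 * 𝓜.card ^ 2 := by positivity
    nlinarith [mul_le_mul_of_nonneg_left h5 h6]
  filter_upwards [h1.eventually (gt_mem_nhds h2)] with X hX
  refine le_trans ?_ hX.le
  refine le_trans (le_of_eq ?_) (cheb (fun D => ∑ m ∈ 𝓜, (ik j m D - pr j))
    (t := ε * 𝓜.card) (by positivity) X)
  refine pX_congr (fun D _ => ?_) X
  show ε * 𝓜.card < _ ↔ ε * 𝓜.card < _
  rw [Finset.sum_sub_distrib, Finset.sum_const, nsmul_eq_mul]

theorem fam_inf : {D | Fam D}.Infinite := by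
  rw [Set.infinite_iff_exists_gt]
  intro a
  obtain ⟨p, hp, h1, h2⟩ := Nat.exists_prime_gt_modEq_one a (k := 4) (by norm_num)
  refine ⟨p, ⟨hp.squarefree, fun q hq hqp => ?_⟩, h1⟩
  rw [(Nat.prime_dvd_prime_iff_eq hq hp).1 hqp]
  exact h2

open Classical in
/-- the members in their order -/
noncomputable def en (i : ℕ) : ℕ := Nat.nth Fam i

theorem en_fam (i : ℕ) : Fam (en i) := Nat.nth_mem_of_infinite fam_inf i

theorem en_inj : Function.Injective en := Nat.nth_injective fam_inf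

open Classical in
/-- the members up to `M` -/
noncomputable def fM (M : ℕ) : Finset ℕ := (Icc 1 M).filter fun m => Fam m

theorem fM_eq (M : ℕ) : fM M = (range (fM M).card).image en := by
  classical
  have h0 : ¬ Fam 0 := fun h => h.1.ne_zero rfl
  have h1 : (fM M).card = Nat.count Fam (M + 1) := by
    rw [Nat.count_eq_card_filter_range]
    congr 1
    ext m
    unfold fM
    rw [Finset.mem_filter, Finset.mem_filter, Finset.mem_Icc, Finset.mem_range]
    constructor
    · rintro ⟨⟨-, h2⟩, h3⟩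
      exact ⟨by omega, h3⟩
    · rintro ⟨h2, h3⟩
      exact ⟨⟨Nat.pos_of_ne_zero h3.1.ne_zero, by omega⟩, h3⟩
  ext m
  rw [Finset.mem_image, h1]
  unfold fM
  rw [Finset.mem_filter, Finset.mem_Icc]
  constructor
  · rintro ⟨⟨-, h2⟩, h3⟩
    refine ⟨Nat.count Fam m, Finset.mem_range.2 ?_, Nat.nth_count h3⟩
    exact Nat.count_strict_mono h3 (by omega)
  · rintro ⟨i, hi, rfl⟩
    rw [Finset.mem_range] at hi
    have h2 : en i < M + 1 := Nat.nth_lt_of_lt_count hi
    exact ⟨⟨Nat.pos_of_ne_zero (en_fam i).1.ne_zero, by omega⟩, en_fam i⟩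

theorem fM_tendsto : Tendsto (fun M => (fM M).card) atTop atTop := by
  classical
  refine tendsto_atTop_mono (f := fun M => Nat.count Fam M) (fun M => ?_) ?_
  · rw [Nat.count_eq_card_filter_range]
    refine Finset.card_le_card fun m hm => ?_
    rw [Finset.mem_filter, Finset.mem_range] at hm
    unfold fM
    rw [Finset.mem_filter, Finset.mem_Icc]
    exact ⟨⟨Nat.pos_of_ne_zero hm.2.1.ne_zero, by omega⟩, hm.2⟩
  · rw [tendsto_atTop]
    intro b
    filter_upwards [eventually_ge_atTop (Nat.nth Fam b)] with n hn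
    rw [← Nat.count_nth_of_infinite fam_inf b]
    exact Nat.count_monotone Fam hn

/-- the first `n` members -/
noncomputable def F0 (n : ℕ) : Finset ℕ := (range n).image en

theorem F0_card (n : ℕ) : (F0 n).card = n := by
  unfold F0
  rw [Finset.card_image_of_injective _ en_inj, Finset.card_range]

theorem F0_fam {n m : ℕ} (h : m ∈ F0 n) : Fam m := by
  obtain ⟨i, -, rfl⟩ := Finset.mem_image.1 h
  exact en_fam i

theorem F0_mono {n n' : ℕ} (h : n ≤ n') : F0 n ⊆ F0 n' :=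
  Finset.image_subset_image (Finset.range_subset_range.2 h)

/-- the number of the twists in the class `j` -/
noncomputable def SJ (j D n : ℕ) : ℝ := ∑ m ∈ F0 n, ik j m D

theorem ik_nonneg (j m D : ℕ) : 0 ≤ ik j m D := by
  unfold ik
  split_ifs <;> norm_num

theorem SJ_mono (j D : ℕ) {n n' : ℕ} (h : n ≤ n') : SJ j D n ≤ SJ j D n' :=
  Finset.sum_le_sum_of_subset_of_nonneg (F0_mono h) fun m _ _ => ik_nonneg j m D

/-- the interpolation between the squares -/
theorem interp {S : ℕ → ℝ} (hS : Monotone S) {μ ε : ℝ} (hμ0 : 0 ≤ μ) (hμ1 : μ ≤ 1) (hε : 0 < ε)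
    (hε1 : ε ≤ 1) {K₀ K₁ : ℕ} (hK : 0 < K₀)
    (h : ∀ k, K₀ ≤ k → k ≤ K₁ + 1 → |S (k ^ 2) - (k ^ 2 : ℕ) * μ| ≤ ε * (k ^ 2 : ℕ)) {n : ℕ}
    (hn0 : K₀ ^ 2 ≤ n) (hn1 : n < (K₁ + 1) ^ 2) : |S n - n * μ| ≤ (ε + 6 / K₀) * n := by
  obtain ⟨k, hk⟩ : ∃ k, k = Nat.sqrt n := ⟨_, rfl⟩
  have k1 : k ^ 2 ≤ n := by
    rw [hk]
    exact Nat.sqrt_le' n
  have k2 : n < (k + 1) ^ 2 := by
    rw [hk]
    exact Nat.lt_succ_sqrt' n
  have k3 : K₀ ≤ k := by
    rw [hk]
    exact Nat.le_sqrt'.2 hn0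
  have k4 : k ≤ K₁ := by
    have : Nat.sqrt n < K₁ + 1 := Nat.sqrt_lt'.2 hn1
    omega
  have h1 := abs_le.1 (h k k3 (by omega))
  have h2 := abs_le.1 (h (k + 1) (by omega) (by omega))
  have m1 := hS k1
  have m2 := hS k2.le
  have r1 : ((k ^ 2 : ℕ) : ℝ) ≤ n := by exact_mod_cast k1
  have r2 : (n : ℝ) ≤ ((k ^ 2 : ℕ) : ℝ) + 2 * k := by
    have : n ≤ k ^ 2 + 2 * k := by nlinarith
    exact_mod_cast this
  have r3 : (((k + 1) ^ 2 : ℕ) : ℝ) = ((k ^ 2 : ℕ) : ℝ) + 2 * k + 1 := by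
    push_cast
    ring
  have hK' : (0 : ℝ) < K₀ := by exact_mod_cast hK
  have r4 : 6 * (k : ℝ) ≤ 6 / K₀ * n := by
    rw [div_mul_eq_mul_div, le_div_iff₀ hK']
    have : (k : ℝ) * K₀ ≤ n := by
      have : k * K₀ ≤ n := (Nat.mul_le_mul_left k k3).trans (by rw [← pow_two]; exact k1)
      exact_mod_cast this
    linarith
  have r5 : (1 : ℝ) ≤ k := by
    have : 1 ≤ k := by omega
    exact_mod_cast this
  have r0 : (0 : ℝ) ≤ ((k ^ 2 : ℕ) : ℝ) := Nat.cast_nonneg _
  rw [r3] at h2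
  generalize ((k ^ 2 : ℕ) : ℝ) = a at *
  rw [abs_le]
  constructor
  · rcases le_total 0 (μ - ε) with h3 | h3
    · nlinarith [mul_le_mul_of_nonneg_right r2 h3, mul_nonneg (by linarith : (0 : ℝ) ≤ k)
        (by linarith : (0 : ℝ) ≤ 1 - (μ - ε))]
    · nlinarith [mul_le_mul_of_nonpos_right r1 h3]
  · nlinarith [mul_le_mul_of_nonneg_right r1 (by linarith : (0 : ℝ) ≤ μ + ε),
      mul_nonneg (by linarith : (0 : ℝ) ≤ 2 * (k : ℝ) + 1) (by linarith : (0 : ℝ) ≤ 2 - (μ + ε))]

/-- the share of the class `j` among the twists by the members up to `M` -/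
noncomputable def shr (A : Set ℕ) (D M : ℕ) : ℝ := by
  classical
  exact (((fM M).filter fun m => kk (star m D) ∈ A).card : ℝ) / ((fM M).card : ℝ)

theorem shr_nonneg (A : Set ℕ) (D M : ℕ) : 0 ≤ shr A D M :=
  div_nonneg (Nat.cast_nonneg _) (Nat.cast_nonneg _)

theorem shr_single (j D M : ℕ) : shr {j} D M = SJ j D (fM M).card / (fM M).card := by
  classical
  unfold shr SJ F0
  rw [← fM_eq]
  congr 1
  unfold ik
  rw [Finset.sum_boole]
  exact congrArg _ (fc _ fun _ _ => Iff.rfl)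

theorem shr_sum (A : Set ℕ) (D M : ℕ) [DecidablePred (· ∈ A)] :
    shr A D M = (∑ m ∈ fM M, if kk (star m D) ∈ A then (1 : ℝ) else 0) / (fM M).card := by
  classical
  unfold shr
  congr 1
  rw [Finset.sum_boole]
  congr 1
  exact fc _ fun _ _ => Iff.rfl

theorem fM_pos {M : ℕ} (hM : 1 ≤ M) : 0 < (fM M).card := by
  classical
  rw [Finset.card_pos]
  exact ⟨1, Finset.mem_filter.2 ⟨Finset.mem_Icc.2 ⟨le_rfl, hM⟩, fam_one⟩⟩

/-- the comparison of the two laws -/
theorem tv {J : ℕ} {η : ℝ} {D M : ℕ} (hM : 1 ≤ M) (h : ∀ j < J, |shr {j} D M - pr j| ≤ η)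
    (A : Set ℕ) : |shr A D M - ∑' k, A.indicator pr k| ≤
      2 * (J * η) + (1 - ∑ j ∈ range J, pr j) := by
  classical
  have hN : (0 : ℝ) < (fM M).card := by exact_mod_cast fM_pos hM
  have hsingle : ∀ j, shr {j} D M = (∑ m ∈ fM M, if kk (star m D) = j then (1 : ℝ) else 0) /
      (fM M).card := fun j => shr_sum {j} D M
  -- the first law
  have lo : ∑ j ∈ (range J).filter (· ∈ A), shr {j} D M ≤ shr A D M := by
    simp only [hsingle]
    rw [shr_sum A, ← Finset.sum_div, Finset.sum_comm]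
    refine div_le_div_of_nonneg_right (Finset.sum_le_sum fun m _ => ?_) hN.le
    rw [Finset.sum_ite_eq]
    split_ifs with h1 h2 h2
    · exact le_rfl
    · exact absurd (Finset.mem_filter.1 h1).2 h2
    · exact zero_le_one
    · exact le_rfl
  have hi : shr A D M ≤ ∑ j ∈ (range J).filter (· ∈ A), shr {j} D M +
      (1 - ∑ j ∈ range J, shr {j} D M) := by
    have e1 : (1 : ℝ) = (∑ _m ∈ fM M, (1 : ℝ)) / (fM M).card := by
      rw [Finset.sum_const, nsmul_eq_mul, mul_one, div_self hN.ne']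
    simp only [hsingle]
    have e2 : ∑ j ∈ (range J).filter (· ∈ A), (∑ m ∈ fM M, if kk (star m D) = j then (1 : ℝ) else 0) /
        (fM M).card + (1 - ∑ j ∈ range J, (∑ m ∈ fM M, if kk (star m D) = j then (1 : ℝ) else 0) /
        (fM M).card) = (∑ m ∈ fM M, ((∑ j ∈ (range J).filter (· ∈ A),
          if kk (star m D) = j then (1 : ℝ) else 0) + (1 - ∑ j ∈ range J,
          if kk (star m D) = j then (1 : ℝ) else 0))) / (fM M).card := by
      rw [Finset.sum_add_distrib, Finset.sum_sub_distrib, ← Finset.sum_div, ← Finset.sum_div,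
        add_div, sub_div, ← e1, Finset.sum_comm, Finset.sum_comm (s := range J)]
    rw [e2, shr_sum A]
    refine div_le_div_of_nonneg_right (Finset.sum_le_sum fun m _ => ?_) hN.le
    rw [Finset.sum_ite_eq, Finset.sum_ite_eq]
    by_cases h1 : kk (star m D) ∈ A
    · by_cases h2 : kk (star m D) ∈ range J
      · rw [if_pos h1, if_pos (Finset.mem_filter.2 ⟨h2, h1⟩), if_pos h2]
        norm_num
      · rw [if_pos h1, if_neg fun h3 => h2 (Finset.mem_filter.1 h3).1, if_neg h2]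
        norm_num
    · rw [if_neg h1, if_neg fun h3 => h1 (Finset.mem_filter.1 h3).2]
      split_ifs <;> norm_num
  -- the second law
  have hsA := hasSum_pr.summable.indicator A
  have lo2 : ∑ j ∈ (range J).filter (· ∈ A), pr j ≤ ∑' k, A.indicator pr k := by
    have h1 := hsA.sum_le_tsum (range J) fun k _ => Set.indicator_nonneg (fun k _ => pr_nonneg k) k
    refine le_trans (le_of_eq ?_) h1
    rw [Finset.sum_filter]
    exact Finset.sum_congr rfl fun r _ => by rw [Set.indicator_apply]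
  have hi2 : ∑' k, A.indicator pr k ≤ ∑ j ∈ (range J).filter (· ∈ A), pr j +
      (1 - ∑ j ∈ range J, pr j) := by
    have h1 := (hasSum_pr.summable.indicator Aᶜ).sum_le_tsum (range J)
      fun k _ => Set.indicator_nonneg (fun k _ => pr_nonneg k) k
    have h2 : ∑' k, A.indicator pr k + ∑' k, Aᶜ.indicator pr k = 1 := by
      rw [← (hsA.tsum_add (hasSum_pr.summable.indicator Aᶜ)), ← hasSum_pr.tsum_eq]
      exact tsum_congr fun k => Set.indicator_self_add_compl_apply A pr k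
    have h3 : ∑ j ∈ (range J).filter (· ∈ A), pr j + ∑ j ∈ range J, Aᶜ.indicator pr j =
        ∑ j ∈ range J, pr j := by
      rw [Finset.sum_filter, ← Finset.sum_add_distrib]
      refine Finset.sum_congr rfl fun k _ => ?_
      rw [← Set.indicator_apply, Set.indicator_self_add_compl_apply]
    linarith
  -- the difference
  have d1 : |∑ j ∈ (range J).filter (· ∈ A), shr {j} D M - ∑ j ∈ (range J).filter (· ∈ A), pr j| ≤
      J * η := by
    rw [← Finset.sum_sub_distrib]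
    refine (Finset.abs_sum_le_sum_abs _ _).trans ?_
    refine (Finset.sum_le_sum_of_subset_of_nonneg (Finset.filter_subset _ (range J))
      fun _ _ _ => abs_nonneg _).trans ?_
    refine (Finset.sum_le_sum fun j hj => h j (Finset.mem_range.1 hj)).trans ?_
    rw [Finset.sum_const, Finset.card_range, nsmul_eq_mul]
  have d2 : |∑ j ∈ range J, shr {j} D M - ∑ j ∈ range J, pr j| ≤ J * η := by
    rw [← Finset.sum_sub_distrib]
    refine (Finset.abs_sum_le_sum_abs _ _).trans ?_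
    refine (Finset.sum_le_sum fun j hj => h j (Finset.mem_range.1 hj)).trans ?_
    rw [Finset.sum_const, Finset.card_range, nsmul_eq_mul]
  rw [abs_le] at d1 d2 ⊢
  constructor <;> linarith [d1.1, d1.2, d2.1, d2.2]

theorem pX_union {ι : Type} (I : Finset ι) (S : ι → Set ℕ) (X : ℕ) :
    pX (⋃ i ∈ I, S i) X ≤ ∑ i ∈ I, pX (S i) X := by
  classical
  induction I using Finset.induction_on with
  | empty =>
    unfold pX
    simp
  | insert a I ha ih =>
    rw [Finset.set_biUnion_insert, Finset.sum_insert ha]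
    have h1 : pX (S a ∪ ⋃ x ∈ I, S x) X = pX (S a ∪ ((⋃ x ∈ I, S x) \ S a)) X := by
      rw [Set.union_sdiff_self]
    rw [h1, pX_add Set.disjoint_sdiff_right]
    have h2 : pX ((⋃ x ∈ I, S x) \ S a) X ≤ pX (⋃ x ∈ I, S x) X :=
      pX_mono (fun D _ h => h.1) X
    linarith

/-- **the law of large numbers for almost all the members** -/
theorem slln {ε : ℝ} (hε : 0 < ε) : ∃ M₀ : ℕ, ∀ M₁ : ℕ, ∀ᶠ X : ℕ in atTop,
    1 - ε ≤ pX {D | ∀ M, M₀ ≤ M → M ≤ M₁ → ∀ A : Set ℕ,
      |shr A D M - ∑' k, A.indicator pr k| ≤ ε} X := by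
  classical
  -- the number of the classes
  obtain ⟨J, hJ⟩ : ∃ J : ℕ, 1 - ∑ j ∈ range J, pr j ≤ ε / 4 := by
    obtain ⟨J, hJ⟩ := Metric.tendsto_atTop.1 hasSum_pr.tendsto_sum_nat (ε / 4) (by positivity)
    refine ⟨J, ?_⟩
    have h1 := hJ J le_rfl
    rw [Real.dist_eq, abs_lt] at h1
    linarith [h1.1]
  obtain ⟨η, hη0, hη1, hηJ⟩ : ∃ η : ℝ, 0 < η ∧ η ≤ 1 ∧ 2 * (J * η) ≤ ε / 4 := by
    refine ⟨min 1 (ε / (8 * (J + 1))), lt_min one_pos (by positivity), min_le_left _ _, ?_⟩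
    have h1 : min 1 (ε / (8 * (J + 1))) ≤ ε / (8 * ((J : ℝ) + 1)) := min_le_right _ _
    have h2 : (J : ℝ) * (ε / (8 * (J + 1))) ≤ ε / 8 := by
      rw [← mul_div_assoc, div_le_div_iff₀ (by positivity) (by norm_num)]
      nlinarith
    have h3 := mul_le_mul_of_nonneg_left h1 (Nat.cast_nonneg J : (0 : ℝ) ≤ J)
    linarith
  obtain ⟨K₀, hK2, hK6, hKp⟩ : ∃ K₀ : ℕ, 2 ≤ K₀ ∧ (6 : ℝ) / K₀ ≤ η / 2 ∧
      (J : ℝ) * (16 / (η ^ 2 * K₀)) ≤ ε := by
    obtain ⟨K, hK⟩ := exists_nat_ge (max 2 (max (12 / η) (16 * J / (η ^ 2 * ε))))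
    have k1 : (2 : ℝ) ≤ K := (le_max_left _ _).trans hK
    have k2 : 12 / η ≤ K := ((le_max_left _ _).trans (le_max_right _ _)).trans hK
    have k3 : 16 * J / (η ^ 2 * ε) ≤ K := ((le_max_right _ _).trans (le_max_right _ _)).trans hK
    refine ⟨K, by exact_mod_cast k1, ?_, ?_⟩
    · rw [div_le_iff₀ hη0] at k2
      rw [div_le_div_iff₀ (by linarith) (by norm_num)]
      linarith
    · rw [div_le_iff₀ (by positivity)] at k3
      rw [← mul_div_assoc, div_le_iff₀ (by positivity)]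
      nlinarith
  obtain ⟨M₀, hM₀⟩ : ∃ M₀ : ℕ, ∀ M, M₀ ≤ M → K₀ ^ 2 ≤ (fM M).card :=
    eventually_atTop.1 (fM_tendsto.eventually_ge_atTop (K₀ ^ 2))
  refine ⟨max 1 M₀, fun M₁ => ?_⟩
  set K₁ := M₁ with hK₁
  have hK₀pos : (0 : ℝ) < K₀ := by
    have : 0 < K₀ := by omega
    exact_mod_cast this
  -- the exceptional sets
  set I : Finset (ℕ × ℕ) := range J ×ˢ Icc K₀ (K₁ + 1) with hI
  set S : ℕ × ℕ → Set ℕ := fun q => {D | η / 2 * (F0 (q.2 ^ 2)).card <
    |∑ m ∈ F0 (q.2 ^ 2), ik q.1 m D - (F0 (q.2 ^ 2)).card * pr q.1|} with hS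
  have hev : ∀ᶠ X : ℕ in atTop, ∀ q ∈ I, pX (S q) X ≤ 8 / (η ^ 2 * (q.2 : ℝ) ^ 2) := by
    rw [Filter.eventually_all_finset]
    rintro ⟨j, k⟩ hq
    rw [hI, Finset.mem_product, Finset.mem_Icc] at hq
    have hk : 0 < k := by
      have := hq.2.1
      simp only at this
      omega
    have hk' : (0 : ℝ) < k := by exact_mod_cast hk
    refine dev (fun m hm => F0_fam hm) (by rw [F0_card]; positivity) j (half_pos hη0) ?_
    rw [F0_card, div_lt_div_iff₀ (by push_cast; positivity) (by positivity)]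
    push_cast
    have : 0 < η ^ 2 * (k : ℝ) ^ 2 := by positivity
    nlinarith
  filter_upwards [hev, eventually_ge_atTop 1] with X hX hX1
  have hbad : pX (⋃ q ∈ I, S q) X ≤ ε := by
    refine (pX_union I S X).trans ((Finset.sum_le_sum hX).trans ?_)
    rw [hI, Finset.sum_product]
    simp only
    rw [Finset.sum_const, Finset.card_range, nsmul_eq_mul]
    refine le_trans (mul_le_mul_of_nonneg_left ?_ (Nat.cast_nonneg J)) hKp
    have h1 : ∀ k ∈ Icc K₀ (K₁ + 1), (8 : ℝ) / (η ^ 2 * (k : ℝ) ^ 2) =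
        8 / η ^ 2 * ((k : ℝ) ^ 2)⁻¹ := by
      intro k _
      rw [div_mul_eq_div_div, div_eq_mul_inv (8 / η ^ 2)]
    rw [Finset.sum_congr rfl h1, ← Finset.mul_sum]
    have h2 : ∑ k ∈ Icc K₀ (K₁ + 1), ((k : ℝ) ^ 2)⁻¹ ≤ 2 / K₀ := by
      have h3 : Icc K₀ (K₁ + 1) = Ioo (K₀ - 1) (K₁ + 2) := by
        ext x
        rw [Finset.mem_Icc, Finset.mem_Ioo]
        omega
      rw [h3]
      refine (sum_Ioo_inv_sq_le (α := ℝ) (K₀ - 1) (K₁ + 2)).trans ?_
      have h4 : ((K₀ - 1 : ℕ) : ℝ) + 1 = K₀ := by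
        have : K₀ - 1 + 1 = K₀ := by omega
        exact_mod_cast this
      rw [h4]
    calc 8 / η ^ 2 * ∑ k ∈ Icc K₀ (K₁ + 1), ((k : ℝ) ^ 2)⁻¹ ≤ 8 / η ^ 2 * (2 / K₀) :=
          mul_le_mul_of_nonneg_left h2 (by positivity)
      _ = 16 / (η ^ 2 * K₀) := by
          field_simp
          norm_num
  have hall : pX Set.univ X = pX (⋃ q ∈ I, S q) X + pX (⋃ q ∈ I, S q)ᶜ X := by
    rw [← pX_add disjoint_compl_right, Set.union_compl_self]
  rw [pX_univ hX1] at hall
  have hgood : pX (⋃ q ∈ I, S q)ᶜ X ≤ pX {D | ∀ M, max 1 M₀ ≤ M → M ≤ M₁ → ∀ A : Set ℕ,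
      |shr A D M - ∑' k, A.indicator pr k| ≤ ε} X := by
    refine pX_mono (fun D _ hD => ?_) X
    intro M h1 h2 A
    have hM1 : 1 ≤ M := (le_max_left _ _).trans h1
    have hN1 := hM₀ M ((le_max_right _ _).trans h1)
    have hN2 : (fM M).card < (K₁ + 1) ^ 2 := by
      have h3 : (fM M).card ≤ M := by
        unfold fM
        refine (Finset.card_filter_le _ _).trans ?_
        rw [Nat.card_Icc]
        omega
      nlinarith
    have hNpos : (0 : ℝ) < (fM M).card := by exact_mod_cast fM_pos hM1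
    refine (tv (J := J) (η := η) hM1 (fun j hj => ?_) A).trans (by linarith)
    have h4 := interp (S := SJ j D) (μ := pr j) (ε := η / 2) (fun _ _ h => SJ_mono j D h)
      (pr_nonneg j) (pr_le_one j) (by positivity) (by linarith) (K₀ := K₀) (K₁ := K₁) (by omega)
      (fun k hk1 hk2 => ?_) hN1 hN2
    · rw [shr_single, abs_le, le_sub_iff_add_le, sub_le_iff_le_add, le_div_iff₀ hNpos,
        div_le_iff₀ hNpos]
      rw [abs_le] at h4
      have h5 : (η / 2 + 6 / K₀) * ((fM M).card : ℝ) ≤ η * (fM M).card :=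
        mul_le_mul_of_nonneg_right (by linarith) hNpos.le
      constructor <;> nlinarith [h4.1, h4.2]
    · by_contra hcon
      push Not at hcon
      refine hD ?_
      rw [Set.mem_iUnion₂]
      refine ⟨(j, k), ?_, ?_⟩
      · rw [hI, Finset.mem_product, Finset.mem_Icc, Finset.mem_range]
        exact ⟨hj, hk1, hk2⟩
      · show η / 2 * (F0 (k ^ 2)).card < _
        rw [F0_card]
        exact hcon
  linarith

end Pool.Agent.X99.CK
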