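import Mathlib
import Pool.Agent.X99.CK.Short

/-!
# The mean of the corank, and sums over many twists
-/

set_option autoImplicit false
set_option linter.unusedSectionVars false
set_option linter.style.haveILetI false

open Finset Filter

namespace Pool.Agent.X99.CK

open Pool.Agent.X99.C49
open Pool.Agent.X99.GJ (star star_pf star_one fc OkW)
open Pool.Agent.Y697.PQ (gi cf cf_pos pm1)

/-- the mean -/
noncomputable def mu : ℝ := ∑' j : ℕ, (j : ℝ) * pr j

theorem summ_mu (n : ℕ) : Summable fun j : ℕ => (j : ℝ) ^ n * pr j := by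
  have h1 : Summable fun j : ℕ => (j : ℝ) ^ n * (1 / 2 : ℝ) ^ j :=
    summable_pow_mul_geometric_of_norm_lt_one n (by norm_num)
  refine Summable.of_nonneg_of_le (fun j => mul_nonneg (by positivity) (pr_nonneg j))
    (fun j => ?_) (h1.mul_left 2)
  have h2 : pr j ≤ 2 * (1 / 2 : ℝ) ^ j := by
    unfold pr
    exact (mul_le_of_le_one_left (cf_pos j).le Pool.Agent.Y697.PQ.gi_le).trans (cf_le j)
  calc (j : ℝ) ^ n * pr j ≤ (j : ℝ) ^ n * (2 * (1 / 2 : ℝ) ^ j) :=
        mul_le_mul_of_nonneg_left h2 (by positivity)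
    _ = _ := by ring

theorem summ_mu1 : Summable fun j : ℕ => (j : ℝ) * pr j := by
  have := summ_mu 1
  simpa using this

theorem mu_nonneg : 0 ≤ mu := tsum_nonneg fun j => mul_nonneg (Nat.cast_nonneg j) (pr_nonneg j)

theorem cf_six (j : ℕ) : ((j + 6 : ℕ) : ℝ) * cf (j + 6) ≤ 6 * cf 6 * (1 / 2 : ℝ) ^ j := by
  induction j with
  | zero => norm_num
  | succ j ih =>
    have e : j + 1 + 6 = (j + 6) + 1 := by ring
    rw [e, cf]
    have h1 : (64 : ℝ) ≤ 2 ^ (j + 6) := by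
      have : (2 : ℝ) ^ 6 ≤ 2 ^ (j + 6) := pow_le_pow_right₀ (by norm_num) (by omega)
      linarith
    have h2 : (2 : ℝ) ^ (j + 6 + 1) = 2 * 2 ^ (j + 6) := by ring
    have h3 : (0 : ℝ) < 2 ^ (j + 6 + 1) - 1 := by
      rw [h2]
      linarith
    rw [← mul_div_assoc, div_le_iff₀ h3]
    have h4 := cf_pos (j + 6)
    have h5 : (((j + 6 + 1 : ℕ)) : ℝ) ≤ 2 * ((j + 6 : ℕ) : ℝ) := by
      push_cast
      have : (0 : ℝ) ≤ j := Nat.cast_nonneg j
      linarith
    have h6 : ((j + 6 + 1 : ℕ) : ℝ) * cf (j + 6) ≤ 2 * (6 * cf 6 * (1 / 2 : ℝ) ^ j) := by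
      calc ((j + 6 + 1 : ℕ) : ℝ) * cf (j + 6) ≤ 2 * ((j + 6 : ℕ) : ℝ) * cf (j + 6) :=
            mul_le_mul_of_nonneg_right h5 h4.le
        _ = 2 * (((j + 6 : ℕ) : ℝ) * cf (j + 6)) := by ring
        _ ≤ _ := by linarith
    refine h6.trans ?_
    have h7 : 0 ≤ 6 * cf 6 * (1 / 2 : ℝ) ^ j := mul_nonneg (mul_nonneg (by norm_num)
      (cf_pos 6).le) (by positivity)
    have h8 : 6 * cf 6 * (1 / 2 : ℝ) ^ (j + 1) = (6 * cf 6 * (1 / 2 : ℝ) ^ j) / 2 := by
      rw [pow_succ]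
      ring
    rw [h8, h2]
    nlinarith

theorem mu_lt : 2 * mu < 1.53 := by
  have hs : Summable fun j : ℕ => (j : ℝ) * cf j := by
    have h1 := summ_mu1
    have hg : gi ≠ 0 := by
      have := (Pool.Agent.Y948.CQ.c2_main gi Pool.Agent.Y697.CJ.gi_eq).2.1
      exact this.ne'
    have h2 := h1.mul_left gi⁻¹
    refine h2.congr fun j => ?_
    unfold pr
    field_simp
  have h1 : mu = gi * ∑' j : ℕ, (j : ℝ) * cf j := by
    unfold mu
    rw [← tsum_mul_left]
    exact tsum_congr fun j => by unfold pr; ring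
  have h2 : ∑' j : ℕ, (j : ℝ) * cf j = ∑ j ∈ range 6, (j : ℝ) * cf j +
      ∑' j : ℕ, ((j + 6 : ℕ) : ℝ) * cf (j + 6) := (hs.sum_add_tsum_nat_add 6).symm
  have h3 : ∑' j : ℕ, ((j + 6 : ℕ) : ℝ) * cf (j + 6) ≤ 6 * cf 6 * 2 := by
    have h4 : HasSum (fun j : ℕ => 6 * cf 6 * (1 / 2 : ℝ) ^ j) (6 * cf 6 * 2) := by
      have := (hasSum_geometric_of_lt_one (r := (1 / 2 : ℝ)) (by norm_num) (by norm_num)).mul_left
        (6 * cf 6)
      norm_num at this ⊢
      exact this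
    rw [← h4.tsum_eq]
    exact Summable.tsum_le_tsum cf_six ((summable_nat_add_iff 6).2 hs) h4.summable
  have c0 : cf 0 = 1 := rfl
  have c1 : cf 1 = 1 := by rw [cf, c0]; norm_num
  have c2' : cf 2 = 1 / 3 := by rw [cf, c1]; norm_num
  have c3 : cf 3 = 1 / 21 := by rw [cf, c2']; norm_num
  have c4 : cf 4 = 1 / 315 := by rw [cf, c3]; norm_num
  have c5 : cf 5 = 1 / 9765 := by rw [cf, c4]; norm_num
  have c6 : cf 6 = 1 / 615195 := by rw [cf, c5]; norm_num
  have h5 : ∑ j ∈ range 6, (j : ℝ) * cf j = 1 + 2 / 3 + 3 / 21 + 4 / 315 + 5 / 9765 := by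
    simp only [Finset.sum_range_succ, Finset.sum_range_zero, c0, c1, c2', c3, c4, c5]
    norm_num
  have hgi := (Pool.Agent.Y948.CQ.c2_main gi Pool.Agent.Y697.CJ.gi_eq).2
  have h6 : ∑' j : ℕ, (j : ℝ) * cf j ≤ 1.82276 := by
    rw [h2, h5]
    refine (add_le_add_right h3 _).trans ?_
    rw [c6]
    norm_num
  have h7 : 0 ≤ ∑' j : ℕ, (j : ℝ) * cf j :=
    tsum_nonneg fun j => mul_nonneg (Nat.cast_nonneg j) (cf_pos j).le
  rw [h1]
  nlinarith [hgi.1, hgi.2.2.2]

theorem ik_pair' {m m' : ℕ} (hm : Fam m) (hm' : Fam m') (hne : m ≠ m') (j j' : ℕ) :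
    Tendsto (av (fun D => ik j m D * ik j' m' D)) atTop (nhds (pr j * pr j')) := by
  classical
  have h := lawK {m, m'} (fun x hx => by
    rcases Finset.mem_insert.1 hx with rfl | hx
    · exact hm
    · rw [Finset.mem_singleton.1 hx]; exact hm') (fun x => if x = m then j else j')
  rw [Finset.prod_pair hne, if_pos rfl, if_neg hne.symm] at h
  refine h.congr fun X => ?_
  rw [← av_ind]
  refine av_congr (fun D _ => ?_) X
  unfold ik
  rw [ite_zero_mul_ite_zero, mul_one]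
  refine if_congr ?_ rfl rfl
  constructor
  · intro h
    have h1 := h m (Finset.mem_insert_self _ _)
    have h2 := h m' (Finset.mem_insert_of_mem (Finset.mem_singleton_self _))
    simp only [if_true, if_neg hne.symm] at h1 h2
    exact ⟨h1, h2⟩
  · rintro ⟨h1, h2⟩ x hx
    rcases Finset.mem_insert.1 hx with rfl | hx
    · simp only [if_true]
      exact h1
    · rw [Finset.mem_singleton.1 hx]
      simp only [if_neg hne.symm]
      exact h2

/-- the truncated corank -/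
noncomputable def tk (B m D : ℕ) : ℝ := ∑ j ∈ range B, (j : ℝ) * ik j m D

/-- its limit mean -/
noncomputable def muB (B : ℕ) : ℝ := ∑ j ∈ range B, (j : ℝ) * pr j

theorem tk_eq (B m D : ℕ) : tk B m D = if kk (star m D) < B then (kk (star m D) : ℝ) else 0 := by
  unfold tk ik
  simp only [mul_ite, mul_one, mul_zero]
  rw [Finset.sum_ite_eq]
  simp only [Finset.mem_range]

theorem tk_lim {m : ℕ} (hm : Fam m) (B : ℕ) : Tendsto (av (tk B m)) atTop (nhds (muB B)) := by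
  have h : Tendsto (fun X => ∑ j ∈ range B, (j : ℝ) * av (ik j m) X) atTop (nhds (muB B)) :=
    tendsto_finsetSum _ fun j _ => (ik_lim hm j).const_mul _
  refine h.congr fun X => ?_
  rw [show tk B m = fun D => ∑ j ∈ range B, (j : ℝ) * ik j m D from rfl, av_sum]
  exact Finset.sum_congr rfl fun j _ => (av_mul _ _ _).symm

theorem tk_pair {m m' : ℕ} (hm : Fam m) (hm' : Fam m') (hne : m ≠ m') (B : ℕ) :
    Tendsto (av (fun D => tk B m D * tk B m' D)) atTop (nhds (muB B ^ 2)) := by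
  have h : Tendsto (fun X => ∑ j ∈ range B, ∑ j' ∈ range B, (j : ℝ) * j' *
      av (fun D => ik j m D * ik j' m' D) X) atTop
      (nhds (∑ j ∈ range B, ∑ j' ∈ range B, (j : ℝ) * j' * (pr j * pr j'))) :=
    tendsto_finsetSum _ fun j _ => tendsto_finsetSum _ fun j' _ =>
      (ik_pair' hm hm' hne j j').const_mul _
  have e1 : ∑ j ∈ range B, ∑ j' ∈ range B, (j : ℝ) * j' * (pr j * pr j') = muB B ^ 2 := by
    unfold muB
    rw [pow_two, Finset.sum_mul_sum]
    exact Finset.sum_congr rfl fun j _ => Finset.sum_congr rfl fun j' _ => by ring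
  rw [e1] at h
  refine h.congr fun X => ?_
  have e2 : ∀ D, tk B m D * tk B m' D =
      ∑ j ∈ range B, ∑ j' ∈ range B, (j : ℝ) * j' * (ik j m D * ik j' m' D) := by
    intro D
    unfold tk
    rw [Finset.sum_mul_sum]
    exact Finset.sum_congr rfl fun j _ => Finset.sum_congr rfl fun j' _ => by ring
  rw [av_congr (fun D _ => e2 D) X, av_sum]
  refine Finset.sum_congr rfl fun j _ => ?_
  rw [av_sum]
  exact Finset.sum_congr rfl fun j' _ => (av_mul _ _ _).symm

theorem tk_sq {m : ℕ} (hm : Fam m) (B : ℕ) : Tendsto (av (fun D => tk B m D * tk B m D)) atTop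
    (nhds (∑ j ∈ range B, (j : ℝ) ^ 2 * pr j)) := by
  have h : Tendsto (fun X => ∑ j ∈ range B, (j : ℝ) ^ 2 * av (ik j m) X) atTop
      (nhds (∑ j ∈ range B, (j : ℝ) ^ 2 * pr j)) :=
    tendsto_finsetSum _ fun j _ => (ik_lim hm j).const_mul _
  refine h.congr fun X => ?_
  have e2 : ∀ D, tk B m D * tk B m D = ∑ j ∈ range B, (j : ℝ) ^ 2 * ik j m D := by
    intro D
    rw [tk_eq]
    unfold ik
    simp only [mul_ite, mul_one, mul_zero]
    rw [Finset.sum_ite_eq]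
    simp only [Finset.mem_range]
    split_ifs
    · ring
    · ring
  rw [av_congr (fun D _ => e2 D) X, av_sum]
  exact Finset.sum_congr rfl fun j _ => (av_mul _ _ _).symm

/-- the limit of the variance of the sum -/
theorem tk_var {𝓜 : Finset ℕ} (hM : ∀ m ∈ 𝓜, Fam m) (B : ℕ) :
    Tendsto (av fun D => (∑ m ∈ 𝓜, (tk B m D - muB B)) ^ 2) atTop
      (nhds (𝓜.card * (∑ j ∈ range B, (j : ℝ) ^ 2 * pr j - muB B ^ 2))) := by
  classical
  have h1 : ∀ m ∈ 𝓜, ∀ m' ∈ 𝓜, Tendsto (av fun D => (tk B m D - muB B) * (tk B m' D - muB B)) atTop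
      (nhds (if m = m' then ∑ j ∈ range B, (j : ℝ) ^ 2 * pr j - muB B ^ 2 else 0)) := by
    intro m hm m' hm'
    have e : ∀ X, 1 ≤ X → av (fun D => tk B m D * tk B m' D) X + ((-muB B) * av (tk B m) X +
        ((-muB B) * av (tk B m') X + muB B ^ 2)) =
        av (fun D => (tk B m D - muB B) * (tk B m' D - muB B)) X := by
      intro X hX
      rw [← av_mul, ← av_mul, ← av_const (muB B ^ 2) hX, ← av_add, ← av_add, ← av_add]
      exact av_congr (fun D _ => by ring) X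
    have t1 := tk_lim (hM m hm) B
    have t2 := tk_lim (hM m' hm') B
    split_ifs with hne
    · subst hne
      have t4 := (tk_sq (hM m hm) B).add ((t1.const_mul (-muB B)).add ((t1.const_mul (-muB B)).add
        (tendsto_const_nhds (x := muB B ^ 2))))
      have e2 : ∑ j ∈ range B, (j : ℝ) ^ 2 * pr j + (-muB B * muB B + (-muB B * muB B + muB B ^ 2)) =
        ∑ j ∈ range B, (j : ℝ) ^ 2 * pr j - muB B ^ 2 := by ring
      rw [e2] at t4
      refine t4.congr' ?_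
      filter_upwards [eventually_ge_atTop 1] with X hX
      exact e X hX
    · have t4 := (tk_pair (hM m hm) (hM m' hm') hne B).add ((t1.const_mul (-muB B)).add
        ((t2.const_mul (-muB B)).add (tendsto_const_nhds (x := muB B ^ 2))))
      have e2 : muB B ^ 2 + (-muB B * muB B + (-muB B * muB B + muB B ^ 2)) = 0 := by ring
      rw [e2] at t4
      refine t4.congr' ?_
      filter_upwards [eventually_ge_atTop 1] with X hX
      exact e X hX
  have h2 : Tendsto (fun X => ∑ m ∈ 𝓜, ∑ m' ∈ 𝓜,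
      av (fun D => (tk B m D - muB B) * (tk B m' D - muB B)) X) atTop
      (nhds (∑ m ∈ 𝓜, ∑ m' ∈ 𝓜,
        if m = m' then ∑ j ∈ range B, (j : ℝ) ^ 2 * pr j - muB B ^ 2 else 0)) :=
    tendsto_finsetSum _ fun m hm => tendsto_finsetSum _ fun m' hm' => h1 m hm m' hm'
  have h3 : ∑ m ∈ 𝓜, ∑ m' ∈ 𝓜, (if m = m' then ∑ j ∈ range B, (j : ℝ) ^ 2 * pr j - muB B ^ 2
      else 0) = 𝓜.card * (∑ j ∈ range B, (j : ℝ) ^ 2 * pr j - muB B ^ 2) := by
    have : ∀ m ∈ 𝓜, ∑ m' ∈ 𝓜, (if m = m' then ∑ j ∈ range B, (j : ℝ) ^ 2 * pr j - muB B ^ 2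
        else 0) = ∑ j ∈ range B, (j : ℝ) ^ 2 * pr j - muB B ^ 2 := by
      intro m hm
      rw [Finset.sum_ite_eq, if_pos hm]
    rw [Finset.sum_congr rfl this, Finset.sum_const, nsmul_eq_mul]
  rw [h3] at h2
  refine h2.congr fun X => ?_
  rw [← av_congr (fun D _ => (Finset.sum_mul_sum 𝓜 𝓜 (fun m => tk B m D - muB B)
    (fun m => tk B m D - muB B)).symm.trans (pow_two _).symm) X, av_sum]
  exact Finset.sum_congr rfl fun m _ => (av_sum _ _ _).symm

/-- the second moment -/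
noncomputable def vv : ℝ := ∑' j : ℕ, (j : ℝ) ^ 2 * pr j

/-- **the sum of the coranks of many twists** -/
theorem sum_law {ε : ℝ} (hε : 0 < ε) : ∃ N₀ : ℕ, ∀ 𝓜 : Finset ℕ, (∀ m ∈ 𝓜, Fam m) →
    N₀ ≤ 𝓜.card → ∀ᶠ X : ℕ in atTop,
      1 - ε ≤ pX {D | ∑ m ∈ 𝓜, (kk (star m D) : ℝ) ≤ (mu + ε) * 𝓜.card} X := by
  classical
  obtain ⟨N₀, hN₀⟩ := exists_nat_gt (4 * (vv + 1) / ε ^ 3)
  refine ⟨N₀ + 1, fun 𝓜 hM hN => ?_⟩
  have hNpos : (0 : ℝ) < 𝓜.card := by
    have : 0 < 𝓜.card := by omega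
    exact_mod_cast this
  have hN' : 4 * (vv + 1) / ε ^ 3 < 𝓜.card := by
    refine hN₀.trans_le ?_
    exact_mod_cast (by omega : N₀ ≤ 𝓜.card)
  have hvv : 0 ≤ vv := tsum_nonneg fun j => mul_nonneg (by positivity) (pr_nonneg j)
  -- the truncation
  obtain ⟨B, hB⟩ : ∃ B : ℕ, 1 - ∑ j ∈ range B, pr j < ε / (4 * 𝓜.card) := by
    obtain ⟨J, hJ⟩ := Metric.tendsto_atTop.1 hasSum_pr.tendsto_sum_nat (ε / (4 * 𝓜.card))
      (by positivity)
    refine ⟨J, ?_⟩
    have h1 := hJ J le_rfl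
    rw [Real.dist_eq, abs_lt] at h1
    linarith [h1.1]
  have hmuB : muB B ≤ mu := summ_mu1.sum_le_tsum _ fun j _ =>
    mul_nonneg (Nat.cast_nonneg j) (pr_nonneg j)
  have hvB : ∑ j ∈ range B, (j : ℝ) ^ 2 * pr j ≤ vv := (summ_mu 2).sum_le_tsum _ fun j _ =>
    mul_nonneg (by positivity) (pr_nonneg j)
  -- first exceptional set
  have b1 : ∀ᶠ X : ℕ in atTop, pX {D | ε * 𝓜.card < |∑ m ∈ 𝓜, (tk B m D - muB B)|} X ≤ ε / 4 := by
    have h1 := (tk_var hM B).div_const ((ε * 𝓜.card) ^ 2)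
    have h2 : (𝓜.card : ℝ) * (∑ j ∈ range B, (j : ℝ) ^ 2 * pr j - muB B ^ 2) /
        (ε * 𝓜.card) ^ 2 < ε / 4 := by
      rw [div_lt_div_iff₀ (by positivity) (by norm_num)]
      rw [div_lt_iff₀ (by positivity)] at hN'
      have h3 : ∑ j ∈ range B, (j : ℝ) ^ 2 * pr j - muB B ^ 2 ≤ vv := by
        have := sq_nonneg (muB B)
        linarith
      have h4 : (𝓜.card : ℝ) * (∑ j ∈ range B, (j : ℝ) ^ 2 * pr j - muB B ^ 2) * 4 ≤
          𝓜.card * vv * 4 := by
        have := mul_le_mul_of_nonneg_left h3 hNpos.le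
        linarith
      have h5 : ε * (ε * 𝓜.card) ^ 2 = 𝓜.card * (𝓜.card * ε ^ 3) := by ring
      rw [h5]
      have h6 : (𝓜.card : ℝ) * (4 * (vv + 1)) < 𝓜.card * (𝓜.card * ε ^ 3) :=
        mul_lt_mul_of_pos_left hN' hNpos
      nlinarith
    filter_upwards [h1.eventually (gt_mem_nhds h2)] with X hX
    exact le_trans (cheb (fun D => ∑ m ∈ 𝓜, (tk B m D - muB B)) (t := ε * 𝓜.card)
      (by positivity) X) hX.le
  -- second exceptional set
  have b2 : ∀ m ∈ 𝓜, ∀ᶠ X : ℕ in atTop, pX {D | B ≤ kk (star m D)} X ≤ ε / (4 * 𝓜.card) := by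
    intro m hm
    have h1 := lawSet {m} (fun x hx => by rw [Finset.mem_singleton.1 hx]; exact hM m hm)
      (fun _ => Set.Ici B)
    rw [Finset.prod_singleton] at h1
    have h2 : ∑' r, (Set.Ici B).indicator pr r < ε / (4 * 𝓜.card) := by
      refine lt_of_le_of_lt (le_of_eq ?_) hB
      have h3 := hasSum_pr.summable.sum_add_tsum_nat_add B
      have h4 := (hasSum_pr.summable.indicator (Set.Ici B)).sum_add_tsum_nat_add B
      have h5 : ∑ i ∈ range B, (Set.Ici B).indicator pr i = 0 := by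
        refine Finset.sum_eq_zero fun i hi => ?_
        rw [Finset.mem_range] at hi
        exact Set.indicator_of_notMem (fun h => by
          have := Set.mem_Ici.1 h
          omega) _
      have h6 : ∑' i, (Set.Ici B).indicator pr (i + B) = ∑' i, pr (i + B) :=
        tsum_congr fun i => Set.indicator_of_mem (Set.mem_Ici.2 (by omega)) _
      rw [h5, h6, zero_add] at h4
      rw [hasSum_pr.tsum_eq] at h3
      linarith
    filter_upwards [h1.eventually (gt_mem_nhds h2)] with X hX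
    refine le_trans (le_of_eq ?_) hX.le
    refine pX_congr (fun D _ => ?_) X
    exact ⟨fun h x hx => by rw [Finset.mem_singleton.1 hx]; exact h,
      fun h => h m (Finset.mem_singleton_self m)⟩
  filter_upwards [b1, (Filter.eventually_all_finset 𝓜).2 b2, eventually_ge_atTop 1] with X x1 x2 hX1
  have hcomp : pX Set.univ X =
      pX {D | ∑ m ∈ 𝓜, (kk (star m D) : ℝ) ≤ (mu + ε) * 𝓜.card} X +
      pX {D | ∑ m ∈ 𝓜, (kk (star m D) : ℝ) ≤ (mu + ε) * 𝓜.card}ᶜ X := by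
    rw [← pX_add disjoint_compl_right, Set.union_compl_self]
  rw [pX_univ hX1] at hcomp
  have hbad : pX {D | ∑ m ∈ 𝓜, (kk (star m D) : ℝ) ≤ (mu + ε) * 𝓜.card}ᶜ X ≤
      pX {D | ε * 𝓜.card < |∑ m ∈ 𝓜, (tk B m D - muB B)|} X +
        pX (⋃ m ∈ 𝓜, {D | B ≤ kk (star m D)}) X := by
    have h1 : pX {D | ∑ m ∈ 𝓜, (kk (star m D) : ℝ) ≤ (mu + ε) * 𝓜.card}ᶜ X ≤
        pX ({D | ε * 𝓜.card < |∑ m ∈ 𝓜, (tk B m D - muB B)|} ∪
          ((⋃ m ∈ 𝓜, {D | B ≤ kk (star m D)}) \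
            {D | ε * 𝓜.card < |∑ m ∈ 𝓜, (tk B m D - muB B)|})) X := by
      refine pX_mono (fun D _ hD => ?_) X
      rw [Set.union_sdiff_self]
      by_contra hcon
      rw [Set.mem_union, not_or, Set.mem_iUnion₂] at hcon
      obtain ⟨h2, h3⟩ := hcon
      push Not at h3
      refine hD ?_
      show ∑ m ∈ 𝓜, (kk (star m D) : ℝ) ≤ (mu + ε) * 𝓜.card
      have h4 : ¬ (ε * 𝓜.card < |∑ m ∈ 𝓜, (tk B m D - muB B)|) := h2
      push Not at h4
      have h5 : ∑ m ∈ 𝓜, (tk B m D - muB B) = ∑ m ∈ 𝓜, (kk (star m D) : ℝ) - 𝓜.card * muB B := by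
        rw [Finset.sum_sub_distrib, Finset.sum_const, nsmul_eq_mul]
        congr 1
        refine Finset.sum_congr rfl fun m hm => ?_
        have h6 : ¬ (B ≤ kk (star m D)) := h3 m hm
        rw [tk_eq, if_pos (by omega)]
      rw [h5] at h4
      have h6 := (abs_le.1 h4).2
      have h7 : (𝓜.card : ℝ) * muB B ≤ 𝓜.card * mu := mul_le_mul_of_nonneg_left hmuB hNpos.le
      linarith
    refine h1.trans ?_
    rw [pX_add Set.disjoint_sdiff_right]
    have h2 : pX ((⋃ m ∈ 𝓜, {D | B ≤ kk (star m D)}) \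
        {D | ε * 𝓜.card < |∑ m ∈ 𝓜, (tk B m D - muB B)|}) X ≤
        pX (⋃ m ∈ 𝓜, {D | B ≤ kk (star m D)}) X := pX_mono (fun D _ h => h.1) X
    linarith
  have hun : pX (⋃ m ∈ 𝓜, {D | B ≤ kk (star m D)}) X ≤ ε / 4 := by
    refine (pX_union 𝓜 _ X).trans ((Finset.sum_le_sum x2).trans ?_)
    rw [Finset.sum_const, nsmul_eq_mul]
    refine le_of_eq ?_
    field_simp
  linarith

end Pool.Agent.X99.CK
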