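import Mathlib
import Pool.Agent.X99.CK.Mean
import Pool.Agent.W612.RS.Mq1
import Pool.Agent.W410.RS.MQ2
import Pool.Agent.TH942.FG

/-!
# The rank over a multiquadratic field, and the law of a sum of coranks
-/

set_option autoImplicit false
set_option linter.unusedSectionVars false
set_option linter.style.haveILetI false

open Finset Filter

namespace Pool.Agent.X99.CK

open Pool.Agent.X99.C49
open Pool.Agent.X99.GJ (star star_pf star_one fc OkW)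
open Pool.Agent.Y700 (VR)

/-- the squarefree part of a product of members -/
theorem sqf_prod {n : ℕ} {d : Fin n → ℕ} (hd : ∀ i, Fam (d i)) (T : Finset (Fin n)) :
    ∃ m : ℕ, Fam m ∧ ∃ k : ℕ, k ≠ 0 ∧ ∏ i ∈ T, d i = m * k ^ 2 := by
  classical
  induction T using Finset.induction_on with
  | empty => exact ⟨1, fam_one, 1, one_ne_zero, by simp⟩
  | insert a T ha ih =>
    obtain ⟨m, hm, k, hk, h⟩ := ih
    obtain ⟨-, -, j, hj, hs⟩ := star_pf (hd a).1 hm.1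
    refine ⟨star (d a) m, fam_star (hd a) hm, j * k, mul_ne_zero hj hk, ?_⟩
    rw [Finset.prod_insert ha, h, ← mul_assoc, hs]
    ring

/-- the curves of `M` and of `M j²` -/
theorem vrJ (M j : ℤ) (hj : j ≠ 0) : VR (ES (M * j ^ 2)) (ES M) (j : ℚ) 0 0 0 := by
  have hj' : (j : ℚ) ≠ 0 := by exact_mod_cast hj
  refine ⟨hj', ?_, ?_, ?_, ?_, ?_⟩
  · show (j : ℚ) * 0 = 0 + 2 * 0
    norm_num
  · show (j : ℚ) ^ 2 * 0 = 0 - 0 * 0 + 3 * 0 - 0 ^ 2
    norm_num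
  · show (j : ℚ) ^ 3 * 0 = 0 + 0 * 0 + 2 * 0
    norm_num
  · show (j : ℚ) ^ 4 * ((-35 * M ^ 2 : ℤ) : ℚ) = ((-35 * (M * j ^ 2) ^ 2 : ℤ) : ℚ) - 0 * 0 +
      2 * 0 * 0 - (0 + 0 * 0) * 0 + 3 * 0 ^ 2 - 2 * 0 * 0
    push_cast
    ring
  · show (j : ℚ) ^ 6 * ((-98 * M ^ 3 : ℤ) : ℚ) = ((-98 * (M * j ^ 2) ^ 3 : ℤ) : ℚ) +
      0 * ((-35 * (M * j ^ 2) ^ 2 : ℤ) : ℚ) + 0 ^ 2 * 0 + 0 ^ 3 - 0 * 0 - 0 ^ 2 - 0 * 0 * 0
    push_cast
    ring

theorem rank_ES {D : ℕ} (h : Fam D) : Module.finrank ℤ (ES D).toAffine.Point ≤ 2 * kk D := by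
  have hM0 : (D : ℤ) ≠ 0 := by exact_mod_cast h.1.ne_zero
  have e : (ES (D : ℤ)).toAffine.Point ≃+ (Pool.Agent.Y668.Wt ((21 * (D : ℤ) : ℤ) : ℚ)
      ((112 * (D : ℤ) ^ 2 : ℤ) : ℚ)).toAffine.Point := (vrS (D : ℤ)).equiv (disS hM0)
  rw [e.toIntLinearEquiv.finrank_eq]
  exact rank_kk h

theorem fin_ES {M : ℤ} (hM : M ≠ 0) : Module.Finite ℤ (ES M).toAffine.Point := by
  have h := Pool.Agent.TH942.sfg (F := ℚ) (a := ((-35 * M ^ 2 : ℤ) : ℚ))
    (b := ((-98 * M ^ 3 : ℤ) : ℚ)) (by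
      have e : (4 : ℚ) * ((-35 * M ^ 2 : ℤ) : ℚ) ^ 3 + 27 * ((-98 * M ^ 3 : ℤ) : ℚ) ^ 2 =
          (4 * (-35) ^ 3 + 27 * (-98) ^ 2) * (M : ℚ) ^ 6 := by
        push_cast
        ring
      rw [e]
      exact mul_ne_zero (by norm_num) (pow_ne_zero 6 (by exact_mod_cast hM)))
  exact Module.Finite.iff_addGroup_fg.2 h

/-- **the rank over a multiquadratic field** -/
theorem rank_mq (F : Type) [Field F] [CharZero F] [Algebra ℚ F] {n : ℕ} (x : Fin n → F)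
    {d : Fin n → ℕ} (hd : ∀ i, Fam (d i)) (hx : ∀ i, x i ^ 2 = (d i : F))
    (hgen : IntermediateField.adjoin ℚ (Set.range x) = ⊤) {m : Finset (Fin n) → ℕ}
    (hm : ∀ T, Fam (m T) ∧ ∃ k : ℕ, k ≠ 0 ∧ ∏ i ∈ T, d i = m T * k ^ 2) {D : ℕ} (hD : Fam D) :
    open Classical in
    Module.finrank ℤ (Pool.Agent.W307.RS.ShK (((-35 * (D : ℤ) ^ 2 : ℤ)) : F)
      (((-98 * (D : ℤ) ^ 3 : ℤ)) : F)).toAffine.Point ≤ ∑ T, 2 * kk (star (m T) D) := by
  classical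
  have hD0 : (D : ℤ) ≠ 0 := by exact_mod_cast hD.1.ne_zero
  have hmq := Pool.Agent.W410.RS.mq2_of Pool.Agent.W612.RS.mq1 F n x (fun i => (d i : ℤ))
    (fun i => by rw [hx i]; push_cast; rfl) (fun i => by exact_mod_cast (hd i).1.ne_zero) hgen
    (-35 * (D : ℤ) ^ 2) (-98 * (D : ℤ) ^ 3) (by
      have e : 4 * (-35 * (D : ℤ) ^ 2) ^ 3 + 27 * (-98 * (D : ℤ) ^ 3) ^ 2 =
          (4 * (-35) ^ 3 + 27 * (-98) ^ 2) * (D : ℤ) ^ 6 := by ring
      rw [e]
      exact mul_ne_zero (by norm_num) (pow_ne_zero 6 hD0))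
  -- the curves
  have hc : ∀ T : Finset (Fin n), ∃ j : ℤ, j ≠ 0 ∧
      Pool.Agent.W307.RT.Sh ((∏ i ∈ T, (d i : ℤ)) ^ 2 * (-35 * (D : ℤ) ^ 2))
        ((∏ i ∈ T, (d i : ℤ)) ^ 3 * (-98 * (D : ℤ) ^ 3)) =
      ES ((star (m T) D : ℤ) * j ^ 2) := by
    intro T
    obtain ⟨h1, k, hk, h2⟩ := hm T
    obtain ⟨-, -, l, hl, h3⟩ := star_pf h1.1 hD.1
    refine ⟨(l : ℤ) * k, mul_ne_zero (by exact_mod_cast hl) (by exact_mod_cast hk), ?_⟩
    have h4 : (∏ i ∈ T, (d i : ℤ)) * D = (star (m T) D : ℤ) * ((l : ℤ) * k) ^ 2 := by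
      have h5 : (∏ i ∈ T, d i) * D = star (m T) D * (l * k) ^ 2 := by
        rw [h2]
        calc m T * k ^ 2 * D = (m T * D) * k ^ 2 := by ring
          _ = (star (m T) D * l ^ 2) * k ^ 2 := by rw [h3]
          _ = _ := by ring
      exact_mod_cast h5
    unfold Pool.Agent.W307.RT.Sh ES
    rw [← h4]
    congr 1
    · push_cast
      ring
    · push_cast
      ring
  have hr : ∀ T : Finset (Fin n), Module.rank ℤ
      (Pool.Agent.W307.RT.Sh ((∏ i ∈ T, (d i : ℤ)) ^ 2 * (-35 * (D : ℤ) ^ 2))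
        ((∏ i ∈ T, (d i : ℤ)) ^ 3 * (-98 * (D : ℤ) ^ 3))).toAffine.Point ≤
      ((2 * kk (star (m T) D) : ℕ) : Cardinal) := by
    intro T
    obtain ⟨j, hj, h1⟩ := hc T
    have hS := fam_star (hm T).1 hD
    have hS0 : ((star (m T) D : ℕ) : ℤ) ≠ 0 := by exact_mod_cast hS.1.ne_zero
    rw [h1]
    have hfin := fin_ES (M := (star (m T) D : ℤ) * j ^ 2) (mul_ne_zero hS0 (pow_ne_zero 2 hj))
    rw [← Module.finrank_eq_rank]
    have e := (vrJ (star (m T) D : ℤ) j hj).equiv (disS hS0)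
    have h2 := e.toIntLinearEquiv.finrank_eq
    rw [← h2]
    exact_mod_cast rank_ES hS
  have h1 := hmq.trans (Finset.sum_le_sum fun T _ => hr T)
  rw [← Nat.cast_sum] at h1
  exact Module.finrank_le_of_rank_le h1

/-- the distribution function of the sum of `N` independent variables with the law `pr` -/
noncomputable def ps (N t : ℕ) : ℝ :=
  ∑ r ∈ (Fintype.piFinset fun _ : Fin N => range (t + 1)).filter fun r => ∑ i, r i ≤ t,
    ∏ i, pr (r i)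

/-- **the law of the sum** -/
theorem law_sum {𝓜 : Finset ℕ} (hM : ∀ m ∈ 𝓜, Fam m) (t : ℕ) :
    Tendsto (pX {D | ∑ m ∈ 𝓜, kk (star m D) ≤ t}) atTop (nhds (ps 𝓜.card t)) := by
  classical
  obtain ⟨N, hN⟩ : ∃ N, 𝓜.card = N := ⟨_, rfl⟩
  rw [hN]
  set e : 𝓜 ≃ Fin N := Finset.equivFinOfCardEq hN with he
  let ex : (Fin N → ℕ) → ℕ → ℕ := fun r m => if h : m ∈ 𝓜 then r (e ⟨m, h⟩) else 0
  have hex : ∀ (r : Fin N → ℕ) (m : ℕ) (hm : m ∈ 𝓜), ex r m = r (e ⟨m, hm⟩) :=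
    fun r m hm => dif_pos hm
  have h2 : ∀ r : Fin N → ℕ, ∏ m ∈ 𝓜, pr (ex r m) = ∏ i, pr (r i) := by
    intro r
    rw [← Finset.prod_coe_sort 𝓜 (fun m => pr (ex r m)), ← Equiv.prod_comp e]
    exact Finset.prod_congr rfl fun m _ => by rw [hex r m.1 m.2]
  have h2' : ∀ D, ∑ m ∈ 𝓜, kk (star m D) = ∑ i, kk (star (e.symm i : ℕ) D) := by
    intro D
    rw [← Finset.sum_coe_sort 𝓜 (fun m => kk (star m D)), ← Equiv.sum_comp e.symm]
  set I := (Fintype.piFinset fun _ : Fin N => range (t + 1)).filter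
    fun r => ∑ i, r i ≤ t with hI
  have h3 : ∀ X, pX {D | ∑ m ∈ 𝓜, kk (star m D) ≤ t} X =
      ∑ r ∈ I, pX {D | ∀ m ∈ 𝓜, kk (star m D) = ex r m} X := by
    intro X
    rw [← pX_bi]
    · refine pX_congr (fun D _ => ?_) X
      rw [Set.mem_iUnion₂]
      constructor
      · intro h
        have h4 : ∑ m ∈ 𝓜, kk (star m D) ≤ t := h
        rw [h2' D] at h4
        refine ⟨fun i => kk (star (e.symm i : ℕ) D), ?_, fun m hm => ?_⟩
        · rw [hI, Finset.mem_filter, Fintype.mem_piFinset]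
          refine ⟨fun i => Finset.mem_range.2 ?_, h4⟩
          have h6 : kk (star (e.symm i : ℕ) D) ≤ ∑ i, kk (star (e.symm i : ℕ) D) :=
            Finset.single_le_sum (f := fun i => kk (star (e.symm i : ℕ) D))
              (fun _ _ => Nat.zero_le _) (Finset.mem_univ i)
          omega
        · have h5 := hex (fun i => kk (star (e.symm i : ℕ) D)) m hm
          refine Eq.trans ?_ h5.symm
          show kk (star m D) = kk (star ((e.symm (e ⟨m, hm⟩) : 𝓜) : ℕ) D)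
          rw [Equiv.symm_apply_apply]
      · rintro ⟨r, hr, h⟩
        rw [hI, Finset.mem_filter] at hr
        show ∑ m ∈ 𝓜, kk (star m D) ≤ t
        rw [h2' D]
        refine le_trans (le_of_eq ?_) hr.2
        refine Finset.sum_congr rfl fun i _ => ?_
        rw [h _ (e.symm i).2, hex r _ (e.symm i).2]
        congr 1
        exact e.apply_symm_apply i
    · intro r _ r' _ hne
      rw [Set.disjoint_left]
      intro D h h'
      refine hne (funext fun i => ?_)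
      have h4 := (h _ (e.symm i).2).symm.trans (h' _ (e.symm i).2)
      rw [hex r _ (e.symm i).2, hex r' _ (e.symm i).2] at h4
      have h5 : e ⟨(e.symm i : ℕ), (e.symm i).2⟩ = i := e.apply_symm_apply i
      rw [h5] at h4
      exact h4
  have h4 : Tendsto (fun X => ∑ r ∈ I, pX {D | ∀ m ∈ 𝓜, kk (star m D) = ex r m} X) atTop
      (nhds (∑ r ∈ I, ∏ m ∈ 𝓜, pr (ex r m))) :=
    tendsto_finsetSum _ fun r _ => lawK 𝓜 hM (ex r)
  rw [Finset.sum_congr rfl fun r _ => h2 r] at h4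
  exact h4.congr fun X => (h3 X).symm

end Pool.Agent.X99.CK
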