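import Pool.Agent.X99.CK.LA

/-!
# Large coranks are rare: the block systems
-/

set_option autoImplicit false

open scoped Classical

namespace Pool.Agent.X99.CK

open Finset Module Function
open Pool.Agent.Y703.CQ (prs c2)
open Pool.Agent.Y219.CQ (F bf bf_apply bf_symm bf_add bf_single mf mf_apply mA mC mZ mL pa pa_surj
  zx zx_of zx_not sum_zx mZ_symm mL_symm bf_l bf_r all_zero row1 row2)
open Pool.Agent.Y697.CJ (Am Bm Cm fm BM BM_symm nd_BM dd sum_Cm finrank_JJ_le yy_card mf_add mf_symm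
  Am_symm Bm_eq gi_eq)
open Pool.Agent.Y697.PQ (JJ mem_JJ gi cf ij est)
open Pool.Agent.Y697.PP (YY mem_YY Sy Nd)

/-- **Markov's inequality for the random symmetric completions** -/
theorem markY {V : Type} [AddCommGroup V] [Module (ZMod 2) V] [Fintype V]
    {W : Submodule (ZMod 2) V} {B : LinearMap.BilinForm (ZMod 2) V} (hB : Sy B) (hN : Nd B W) {t : ℕ}
    (ht : finrank (ZMod 2) W + t = finrank (ZMod 2) V) (h1 : finrank (ZMod 2) W + 1 ≤ t) (r : ℕ) :
    (((YY W).filter fun Y => r ≤ finrank (ZMod 2) (LinearMap.ker (B + Y))).card : ℝ) ≤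
      3 / 2 ^ r * ((YY W).card : ℝ) := by
  have hfin : Module.Finite (ZMod 2) V := Module.Finite.of_finite
  have hcard : (univ.filter fun x => x ∈ W).card = 2 ^ finrank (ZMod 2) W := by
    have h1 : (univ.filter fun x => x ∈ W).card = Nat.card W := by
      rw [Nat.card_eq_fintype_card, ← Fintype.card_coe]
      exact Fintype.card_congr (Equiv.subtypeEquivRight fun x => by simp)
    rw [h1, Module.natCard_eq_pow_finrank (K := ZMod 2), Nat.card_zmod]
  have h2 := est hB hN ht (fun _ => True) (γ := 1) (ε := 0) zero_le_one le_rfl le_rfl (j := 1)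
    (by omega) (univ.filter fun x => x ∈ W) (fun w hw => Finset.mem_filter.2 ⟨mem_univ _, hw⟩)
    (fun v _ _ _ _ Y₀ _ _ => by
      rw [Finset.filter_true, one_mul, sub_self, abs_zero, zero_mul])
  rw [Finset.filter_true, hcard] at h2
  have e1 : ∀ Y : LinearMap.BilinForm (ZMod 2) V,
      ij 1 (2 ^ finrank (ZMod 2) (LinearMap.ker (B + Y))) =
        (2 : ℝ) ^ finrank (ZMod 2) (LinearMap.ker (B + Y)) - 1 := by
    intro Y
    unfold ij
    rw [Finset.prod_range_one, pow_zero]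
  simp only [e1] at h2
  have h3 : ((2 ^ finrank (ZMod 2) W : ℕ) : ℝ) * 2 ^ 1 / 2 ^ t ≤ 1 := by
    rw [div_le_one (by positivity)]
    push_cast
    rw [← pow_add]
    exact pow_le_pow_right₀ (by norm_num) h1
  have hN0 : (0 : ℝ) ≤ ((YY W).card : ℝ) := Nat.cast_nonneg _
  have h4 : ∑ Y ∈ YY W, (2 : ℝ) ^ finrank (ZMod 2) (LinearMap.ker (B + Y)) ≤
      3 * ((YY W).card : ℝ) := by
    rw [Finset.sum_sub_distrib, Finset.sum_const, nsmul_eq_mul, mul_one] at h2
    have h5 := (abs_le.1 h2).2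
    norm_num at h5
    norm_num at h3
    nlinarith [mul_le_mul_of_nonneg_left h3 hN0]
  have h5 : ((((YY W).filter fun Y => r ≤ finrank (ZMod 2) (LinearMap.ker (B + Y))).card : ℕ) : ℝ) *
      2 ^ r ≤ ∑ Y ∈ YY W, (2 : ℝ) ^ finrank (ZMod 2) (LinearMap.ker (B + Y)) := by
    rw [← nsmul_eq_mul, ← Finset.sum_const]
    refine le_trans (Finset.sum_le_sum (g := fun Y =>
      (2 : ℝ) ^ finrank (ZMod 2) (LinearMap.ker (B + Y))) fun Y hY => ?_)
      (Finset.sum_le_sum_of_subset_of_nonneg (Finset.filter_subset _ _)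
        fun _ _ _ => by positivity)
    exact pow_le_pow_right₀ (by norm_num) (Finset.mem_filter.1 hY).2
  rw [div_mul_eq_mul_div, le_div_iff₀ (by positivity)]
  exact h5.trans h4

section main

variable {U J : Type} [Fintype U] [Fintype J] [LinearOrder J]

/-- **large coranks are rare** -/
theorem t_KTL (r : ℕ) (U1 : Finset U) (J1 : Finset J) (hJ : ∃ l, l ∉ J1) (m : Finset U)
    (A : U → U → ZMod 2) (B : U → J → ZMod 2) (C : J → U → ZMod 2) (f : U → ZMod 2)
    (g : J → ZMod 2)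
    (hA : ∀ u ∈ U1, ∀ v ∈ U1, A u v = A v u) (hB : ∀ u ∈ U1, ∀ k ∈ J1, B u k = C k u)
    (hC : ∀ w : U → ZMod 2, (∀ u, u ∉ U1 → w u = 0) → (∃ u, w u ≠ 0) →
      ∃ k ∈ J1, ∑ u, w u * C k u ≠ 0)
    (hJ1 : 2 * U1.card + 1 ≤ J1.card) :
    ((univ.filter fun α : prs J1 → ZMod 2 =>
      2 ^ r ≤ nS m U1 J1 A B C (Pool.Agent.Y703.CQ.ext α) f g).card : ℝ) /
        2 ^ (prs J1).card ≤ 3 / 2 ^ r := by
  have e1 : finrank F (U1 → F) = U1.card := by
    rw [finrank_fintype_fun_eq_card, Fintype.card_coe]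
  have e2 : finrank F (J1 → F) = J1.card := by
    rw [finrank_fintype_fun_eq_card, Fintype.card_coe]
  have e3 : finrank (ZMod 2) ((U1 → F) × (J1 → F)) = U1.card + J1.card := by
    rw [Module.finrank_prod, e1, e2]
  have e4 : finrank (ZMod 2) (LinearMap.ker (LinearMap.snd (ZMod 2) (U1 → F) (J1 → F))) =
      U1.card := by
    have h1 := LinearMap.finrank_range_add_finrank_ker (LinearMap.snd (ZMod 2) (U1 → F) (J1 → F))
    rw [LinearMap.range_eq_top.2 (LinearMap.snd_surjective), finrank_top, e2, e3] at h1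
    omega
  have key := markY (V := (U1 → F) × (J1 → F))
    (W := LinearMap.ker (LinearMap.snd (ZMod 2) (U1 → F) (J1 → F)))
    (B := BM U1 J1 m A B C f g) (BM_symm U1 J1 m A B C f g hA) (nd_BM m hC) (t := J1.card)
    (by rw [e3, e4]) (by rw [e4]; omega) r
  have hpos : 0 < ((YY (LinearMap.ker (LinearMap.snd (ZMod 2) (U1 → F) (J1 → F)))).card : ℝ) := by
    rw [Nat.cast_pos, Finset.card_pos]
    refine ⟨0, mem_YY.2 ⟨fun _ _ => rfl, fun _ _ => rfl⟩⟩
  obtain ⟨P, hP⟩ : ∃ P : LinearMap.BilinForm (ZMod 2) ((U1 → F) × (J1 → F)) → Prop,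
      ∀ Y, P Y ↔ r ≤ finrank (ZMod 2) (LinearMap.ker (BM U1 J1 m A B C f g + Y)) :=
    ⟨_, fun _ => Iff.rfl⟩
  have h1 : (((YY (LinearMap.ker (LinearMap.snd (ZMod 2) (U1 → F) (J1 → F)))).filter P).card : ℝ) /
      ((YY (LinearMap.ker (LinearMap.snd (ZMod 2) (U1 → F) (J1 → F)))).card : ℝ) ≤ 3 / 2 ^ r := by
    rw [div_le_iff₀ hpos]
    refine le_trans (le_of_eq ?_) key
    congr 2
    ext Y
    simp only [Finset.mem_filter, hP]
  rw [yy_card] at h1
  refine le_trans (le_of_eq ?_) h1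
  rw [← Pool.Agent.Y759.CX.fr_comp (pa J1) (pa_surj J1 hJ)]
  unfold Pool.Agent.Y759.CX.fr
  have h6 : Nat.card (prs J1 → F) = 2 ^ (prs J1).card := by
    rw [Nat.card_fun, Nat.card_eq_fintype_card, Nat.card_eq_fintype_card, ZMod.card,
      Fintype.card_coe]
  rw [h6, Nat.card_eq_fintype_card, Fintype.card_subtype]
  push_cast
  congr 3
  ext α
  simp only [Finset.mem_filter, hP, nS_eq U1 J1 _ A B C f g hA hB α]
  refine and_congr_right fun _ => ?_
  exact ⟨fun h => (Nat.pow_le_pow_iff_right (by norm_num)).1 h,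
    fun h => Nat.pow_le_pow_right (by norm_num) h⟩

end main

end Pool.Agent.X99.CK
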