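import Pool.Agent.X99.CK.Box
import Pool.Agent.X99.CK.TailLA

/-! Large coranks are rare in the boxes. -/

set_option autoImplicit false

open scoped Classical

namespace Pool.Agent.X99.CK

open Finset
open Pool.Agent.Y703.CQ (nr sg prs HB S_EQ ext c2)
open Pool.Agent.X99.GQ
open Pool.Agent.X99.GJ

variable {P : Par}

/-- **Large coranks are rare in the boxes.** -/
theorem t_TBOX (hO : Ok P) (hEQ : S_EQ) (f : ℕ → ZMod 2) {W : Finset ℕ}
    {𝒰 : Finset (Finset ℕ)} (hUW : ∀ U ∈ 𝒰, U ⊆ W) {Vm : Finset ℕ} (hV : Vm ∈ 𝒰) (r : ℕ) :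
    BX P W 𝒰 (fun S => 2 ^ r ≤ nK P f (symmDiff S Vm)) 0 (3 / 2 ^ r) 1 := by
  have hVW : Vm ⊆ W := hUW Vm hV
  obtain ⟨G, hG⟩ : ∃ G : Finset ℕ → Prop, G = fun S => 2 ^ r ≤ nK P f (symmDiff S Vm) :=
    ⟨_, rfl⟩
  have hG' : ∀ S, G S ↔ 2 ^ r ≤ nK P f (symmDiff S Vm) := fun S => by rw [hG]
  rw [← hG]
  intro ι _ _ J1 C X κ S₀ hκ hCX hHB hS₁ hC hdis hne
  set S₁ := S₀ ∪ W with hS₁d
  set R : ℝ := 2 ^ (prs J1).card * (κ * ∏ j, (X j : ℝ)) with hR
  have hR0 : 0 ≤ R := mul_nonneg (by positivity)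
    (mul_nonneg hκ (Finset.prod_nonneg fun j _ => by positivity))
  -- facts on tuples
  have hinj : ∀ p ∈ Fintype.piFinset C, Function.Injective p := by
    intro p hp i j hij
    rw [Fintype.mem_piFinset] at hp
    by_contra hne
    have h1 := Finset.disjoint_left.1 (hdis i j hne) (hp i)
    rw [hij] at h1
    exact h1 (hp j)
  have hJ : ∀ p ∈ Fintype.piFinset C, ∀ i, p i % P.N ∈ P.A ↔ i ∈ J1 := by
    intro p hp i
    rw [Fintype.mem_piFinset] at hp
    exact (hC i _ (hp i)).2.2.2.symm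
  have hd : ∀ p ∈ Fintype.piFinset C, ∀ i, p i ∉ S₁ := by
    intro p hp i
    rw [Fintype.mem_piFinset] at hp
    exact (hC i _ (hp i)).2.2.1
  have hpr : ∀ p ∈ Fintype.piFinset C, ∀ i, (p i).Prime ∧ p i ≠ 2 := by
    intro p hp i
    rw [Fintype.mem_piFinset] at hp
    exact ⟨(hC i _ (hp i)).1, (hC i _ (hp i)).2.1⟩
  have hU1 : (ue P S₁).card ≤ S₁.card := by
    refine (Finset.card_le_univ _).trans ?_
    rw [Fintype.card_coe]
  have hgd : ∀ p ∈ Fintype.piFinset C, (G (S₀ ∪ univ.image p) ↔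
      2 ^ r ≤ nS (pt S₁ (symmDiff S₀ Vm)) (ue P S₁) J1
      (fun u v : S₁ => nr u v) (fun (u : S₁) l => nr u (p l)) (fun k (u : S₁) => nr (p k) u)
      (Pool.Agent.Y703.CQ.ext fun e : prs J1 => nr (p e.1.1) (p e.1.2))
      (fun u : S₁ => f u) (fun k => f (p k))) := by
    intro p hp
    have hP : ∀ x ∈ univ.image p, x ∉ S₀ ∪ W := by
      intro x hx
      rw [Finset.mem_image] at hx
      obtain ⟨i, -, rfl⟩ := hx
      exact hd p hp i
    rw [hG', sd_union hVW hP]
    rw [nK_eq f hO (sd_sub hVW) (hinj p hp) (hpr p hp) (hd p hp) (hJ p hp)]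
  -- the part with given labels
  have h1 : ∀ β : ι → Lb S₁, LJ P 1 S₁ 𝒰 J1 β →
      (((Fintype.piFinset C).filter fun p => (fun i => lb f S₁ (p i)) = β ∧
          G (S₀ ∪ univ.image p)).card : ℝ) ≤
      3 / 2 ^ r * (((Fintype.piFinset C).filter fun p => (fun i => lb f S₁ (p i)) = β).card : ℝ) +
        R := by
    intro β hβ
    by_cases hemp : ((Fintype.piFinset C).filter fun p => (fun i => lb f S₁ (p i)) = β) = ∅
    · have he2 : ((Fintype.piFinset C).filter fun p => (fun i => lb f S₁ (p i)) = β ∧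
          G (S₀ ∪ univ.image p)) = ∅ := by
        rw [← Finset.filter_filter, hemp, Finset.filter_empty]
      rw [he2, hemp]
      simpa using hR0
    obtain ⟨p₀, hp₀⟩ := Finset.nonempty_iff_ne_empty.2 hemp
    rw [Finset.mem_filter] at hp₀
    obtain ⟨hp₀, hp₀β⟩ := hp₀
    set C' : ι → Finset ℕ := fun i => (C i).filter fun q => lb f S₁ q = β i with hC'
    have hpi : (Fintype.piFinset C).filter (fun p => (fun i => lb f S₁ (p i)) = β) =
        Fintype.piFinset C' := by
      ext p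
      simp only [Finset.mem_filter, Fintype.mem_piFinset, hC']
      constructor
      · rintro ⟨h2, h3⟩ i
        exact ⟨h2 i, congrFun h3 i⟩
      · intro h2
        exact ⟨fun i => (h2 i).1, funext fun i => (h2 i).2⟩
    have h2 := t_KTL r (ue P S₁) J1 hne (pt S₁ (symmDiff S₀ Vm))
      (fun u v => nr u v) (fun u l => (β l).1 u) (fun k u => (β k).2.1 u) (fun u => f u)
      (fun k => (β k).2.2)
      (by
        intro u hu v hv
        exact nr_symm (hS₁ u u.2).1 (hO.mod4 ((mem_ue u).1 hu)) (hS₁ v v.2).1 (hS₁ v v.2).2)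
      (by
        intro u hu k hk
        have h3 := congrFun hp₀β k
        rw [← h3]
        exact nr_symm (hS₁ u u.2).1 (hO.mod4 ((mem_ue u).1 hu)) (hpr p₀ hp₀ k).1 (hpr p₀ hp₀ k).2)
      (by
        rintro w hw0 ⟨u, hu⟩
        have hu8 : (u : ℕ) % P.N ∈ P.A := by
          by_contra h8
          exact hu (hw0 u fun hu' => h8 ((mem_ue u).1 hu'))
        obtain ⟨k, hk, hk2⟩ := hβ.1 w ⟨u, hu8, hu⟩
        refine ⟨k, hk, ?_⟩
        rw [Finset.sum_filter] at hk2
        intro h0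
        apply hk2
        refine Eq.trans ?_ h0
        refine Finset.sum_congr rfl fun v _ => ?_
        split_ifs with h8
        · rfl
        · rw [hw0 v fun hv => h8 ((mem_ue v).1 hv), zero_mul])
      (by
        have h3 := hβ.2.1
        omega)
    obtain ⟨Q, hQ⟩ : ∃ Q : (prs J1 → ZMod 2) → Prop, ∀ α, Q α ↔
      2 ^ r ≤ nS (pt S₁ (symmDiff S₀ Vm)) (ue P S₁)
      J1 (fun u v : S₁ => nr u v) (fun (u : S₁) l => (β l).1 u) (fun k (u : S₁) => (β k).2.1 u)
      (Pool.Agent.Y703.CQ.ext α) (fun u : S₁ => f u) (fun k => (β k).2.2) :=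
      ⟨_, fun _ => Iff.rfl⟩
    have h3 := hEQ ι J1 C' X κ hκ
      (fun i => (Finset.card_le_card (Finset.filter_subset _ _)).trans (hCX i))
      (HB_sub hHB fun i q => lb f S₁ q = β i) Q
    have h4 : ((Fintype.piFinset C).filter fun p => (fun i => lb f S₁ (p i)) = β ∧
        G (S₀ ∪ univ.image p)) = ((Fintype.piFinset C').filter fun p =>
          Q fun e => nr (p e.1.1) (p e.1.2)) := by
      rw [← hpi, Finset.filter_filter]
      refine Finset.filter_congr fun p hp => ?_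
      refine and_congr_right fun hl => ?_
      rw [hgd p hp, hQ]
      subst hl
      exact Iff.rfl
    have h5 : (((Fintype.piFinset C').card : ℕ) : ℝ) = ∏ j, ((C' j).card : ℝ) := by
      rw [Fintype.card_piFinset]
      push_cast
      rfl
    rw [h4, hpi, h5]
    have h2' : ((univ.filter Q).card : ℝ) / 2 ^ (prs J1).card ≤ 3 / 2 ^ r := by
      rw [Finset.filter_congr fun α _ => hQ α]
      exact h2
    set n : ℝ := (((Fintype.piFinset C').filter fun p =>
          Q fun e => nr (p e.1.1) (p e.1.2)).card : ℝ) with hn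
    set q : ℝ := ((univ.filter Q).card : ℝ) / 2 ^ (prs J1).card with hq
    set P' : ℝ := ∏ j, ((C' j).card : ℝ) with hP
    have hP0 : 0 ≤ P' := Finset.prod_nonneg fun j _ => by positivity
    have h7 : q * P' ≤ 3 / 2 ^ r * P' := mul_le_mul_of_nonneg_right h2' hP0
    have h8 : |n - q * P'| ≤ R := h3
    have h9 := (abs_le.1 h8).2
    linarith
  -- sum over the labels
  set LL := univ.filter (fun β : ι → Lb S₁ => LJ P 1 S₁ 𝒰 J1 β) with hLL
  have hfib : ∀ T : (ι → ℕ) → Prop,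
      (((Fintype.piFinset C).filter fun p => NdJ P 1 W 𝒰 S₀ (univ.image p) ∧ T p).card : ℝ) =
      ∑ β ∈ LL, (((Fintype.piFinset C).filter fun p =>
        (fun i => lb f S₁ (p i)) = β ∧ T p).card : ℝ) := by
    intro T
    rw [Finset.card_eq_sum_card_fiberwise (f := fun (p : ι → ℕ) (i : ι) => lb f S₁ (p i))
      (t := LL) (by
        intro p hp
        rw [Finset.mem_coe, Finset.mem_filter] at hp
        rw [Finset.mem_coe, hLL, Finset.mem_filter]
        exact ⟨Finset.mem_univ _, (ndJ_iff f 1 hUW (hinj p hp.1) (hJ p hp.1)).1 hp.2.1⟩)]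
    push_cast
    refine Finset.sum_congr rfl fun β hβ => ?_
    rw [hLL, Finset.mem_filter] at hβ
    congr 2
    ext p
    simp only [Finset.mem_filter]
    constructor
    · rintro ⟨⟨h3, h4, h4'⟩, h5⟩
      exact ⟨h3, h5, h4'⟩
    · rintro ⟨h3, h4, h5⟩
      refine ⟨⟨h3, ?_, h5⟩, h4⟩
      refine (ndJ_iff f 1 hUW (hinj p h3) (hJ p h3)).2 ?_
      rw [← hS₁d, h4]
      exact hβ.2
  have hf1 := hfib fun p => G (S₀ ∪ univ.image p)
  have hf2 := hfib fun _ => True
  simp only [and_true] at hf2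
  rw [hf1, hf2, zero_mul, sub_zero, abs_of_nonneg (Finset.sum_nonneg fun _ _ => Nat.cast_nonneg _)]
  have hsum : ∑ β ∈ LL, (((Fintype.piFinset C).filter fun p => (fun i => lb f S₁ (p i)) = β ∧
          G (S₀ ∪ univ.image p)).card : ℝ) ≤
      ∑ β ∈ LL, (3 / 2 ^ r * (((Fintype.piFinset C).filter fun p =>
        (fun i => lb f S₁ (p i)) = β).card : ℝ) + R) := by
    refine Finset.sum_le_sum fun β hβ => h1 β ?_
    rw [hLL, Finset.mem_filter] at hβ
    exact hβ.2
  refine hsum.trans ?_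
  rw [Finset.sum_add_distrib, ← Finset.mul_sum, Finset.sum_const, nsmul_eq_mul]
  have h5 : ((LL.card : ℕ) : ℝ) ≤ 2 ^ ((2 * S₁.card + 1) * Fintype.card ι) := by
    have h6 : LL.card ≤ Fintype.card (ι → Lb S₁) := Finset.card_le_univ _
    rw [Fintype.card_fun, Fintype.card_prod, Fintype.card_prod, Fintype.card_fun, ZMod.card,
      Fintype.card_coe, ← pow_succ, ← pow_add, ← pow_mul] at h6
    have h7 : (S₁.card + (S₁.card + 1)) * Fintype.card ι = (2 * S₁.card + 1) * Fintype.card ι := by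
      ring
    rw [h7] at h6
    exact_mod_cast h6
  have h6 := mul_le_mul_of_nonneg_right h5 hR0
  rw [pow_add, mul_assoc]
  linarith

end Pool.Agent.X99.CK
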