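import Mathlib
import Pool.Agent.X99.GJ.Asy
import Pool.Agent.X99.GJ.Pat
import Pool.Agent.X99.CK.TailBox

/-!
# The law with a power of the logarithm saved, uniformly in the property
-/

set_option autoImplicit false
set_option linter.unusedVariables false

open scoped Classical
open Finset Filter

namespace Pool.Agent.X99.CK

open Pool.Agent.Y703.CX (sm la jj XX eL zz kk S_SIE eL_tendsto logX_eq rpow_eL HH NN ev_eL one_le_exp
  HH_ge HH_le HH_pos kk_ge kk_le X_pos one_add_log lin_le kap zz_ge zz_pos kap_nonneg kap_pow kap_le)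
open Pool.Agent.Y703.CQ (nr sg prs HB S_EQ ext GdA S_SYM S_C2 S_LA c2 Sml sml_of sml_add sml_rpow cmp)
open Pool.Agent.X99.GQ
open Pool.Agent.X99.GQ.As (sml_many sml_cut sml_coll)
open Pool.Agent.X99.GJ

variable {P : Par}

theorem uni0 (hO : Ok P) {η : ℝ} (h1 : S_BIL) (hK : S_KEYJ P) (hC : CntP P) (hS : S_SIE)
    {W : Finset ℕ} {𝒰 : Finset (Finset ℕ)} (hW : OkW P W 𝒰)
    (hη : 0 < η) (hη1 : η < al P + be P)
    (hB : S_BADJ P W η) (hF : S_FEW P η) (hJF : ∀ e : Finset ℕ, e.Nonempty →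
      (∀ u ∈ e, u.Prime ∧ Nat.Coprime u P.N) → S_FEWJ P e η) (R : ℕ) :
    ∀ᶠ X : ℕ in atTop, ∀ (G : Finset ℕ → Prop) (cc ε : ℝ), 0 ≤ cc → cc ≤ 1 → 0 < ε →
      BX P W 𝒰 G cc ε R →
      |(((SS P X).filter G).card : ℝ) - cc * ((SS P X).card : ℝ)| ≤
        ε * ((SS P X).card : ℝ) + X * Real.exp (-(1 - (al P + be P) + η / 2) * eL X) := by
  obtain ⟨C, hC1, hkey⟩ := hK h1
  obtain ⟨CB, XB, hbad⟩ := hB
  obtain ⟨dl, hdl⟩ : ∃ dl : ℝ, dl = al P + be P := ⟨_, rfl⟩
  rw [← hdl] at hη1 hbad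
  rw [← hdl]
  have hdp : 0 < dl := by linarith
  set V : ℕ := 2 * W.card + R with hV
  obtain ⟨CF, XF, hfew⟩ := hF hS V
  rw [← hdl] at hfew
  have s1 := sml_many (P := P) (t := 1 - dl + η / 2) (by linarith) hC
  have s2 := sml_cut (P := P) (t := 1 - dl + η / 2) (by linarith) hC
  have s3 := sml_coll (P := P) (t := 1 - dl + η / 2) (by linarith) hC
  have s4 := sml_rpow (t := 1 - dl + η / 2) (by linarith) hfew
  have s5 := sml_rpow (t := 1 - dl + η / 2) (by linarith) hbad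
  have s6 := sml_mainJ (P := P) hO.pos hC1 (t := 1 - dl + η / 2) (by linarith)
  have s7 : Sml (1 - dl + η / 2) fun X => ∑ e ∈ prU 𝒰,
      ((few P X (zz X) V (symmDiff e.1 e.2)).card : ℝ) := by
    refine sml_sum _ _ fun e he => ?_
    unfold prU at he
    rw [mem_filter, mem_product] at he
    have hne : (symmDiff e.1 e.2).Nonempty := by
      rw [Finset.nonempty_iff_ne_empty]
      intro h
      exact he.2 (symmDiff_eq_bot.1 h)
    have hsub : ∀ u ∈ symmDiff e.1 e.2, u ∈ W := by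
      intro u hu
      rw [mem_symmDiff] at hu
      rcases hu with hu | hu
      · exact hW.2 _ he.1.1 hu.1
      · exact hW.2 _ he.1.2 hu.1
    obtain ⟨C', X', h⟩ := hJF (symmDiff e.1 e.2) hne (fun u hu => hW.1 u (hsub u hu)) V
    rw [← hdl] at h
    exact sml_rpow (t := 1 - dl + η / 2) (by linarith) h
  have s := sml_add (sml_add (sml_add (sml_add (sml_add (sml_add s1 s2) s3) s4) s5) s6) s7
  obtain ⟨WB, hWB⟩ : ∃ B : ℕ, ∀ u ∈ W, u ≤ B := ⟨W.sup id, fun u hu => Finset.le_sup (f := id) hu⟩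
  have hzt : ∀ᶠ X : ℕ in atTop, WB ≤ zz X := by
    filter_upwards [ev_eL (WB + 1)] with X hX
    have h0 : (1 : ℝ) ≤ eL X := by
      have : (0 : ℝ) ≤ WB := Nat.cast_nonneg _
      linarith
    unfold zz
    apply Nat.le_floor
    have h2 : (WB : ℝ) ≤ (eL X) ^ 3 := by
      have h3 : (1 : ℝ) * eL X ≤ (eL X) ^ 2 * eL X := by
        apply mul_le_mul_of_nonneg_right _ (by linarith)
        nlinarith
      have h4 : (eL X) ^ 3 = (eL X) ^ 2 * eL X := by ring
      linarith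
    have h3 := Real.add_one_le_exp ((eL X) ^ 3)
    linarith
  have hkt : ∀ᶠ X : ℕ in atTop, W.card ≤ kk X := by
    filter_upwards [ev_eL (W.card + 1)] with X hX
    have h2 := kk_ge X
    have h0 : (0 : ℝ) ≤ W.card := Nat.cast_nonneg _
    have : (W.card : ℝ) ≤ kk X := by linarith
    exact_mod_cast this
  filter_upwards [s 1 one_pos, ev_eL 1, hzt, hkt] with X hX hl hz hk G cc ε hp0 hp1 hε hBX
  have hl0 : 0 < eL X := by linarith
  have hXp := X_pos hl0
  have hN : (HH X : ℝ) * Real.log X < NN X := by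
    unfold NN
    push_cast
    exact Nat.lt_floor_add_one _
  have hmain := hkey W 𝒰 G cc ε R X (zz X) (HH X) (kk X) V (NN X) (kap C X)
    hε hBX hW (fun u hu => (hWB u hu).trans hz) hk hXp (HH_pos hl0) (zz_pos hl)
    (kap_nonneg hC1 X) (kap_pow hC1 hl) hN
  set T := (RR P X (zz X) (HH X) (kk X) V).filter fun S =>
    NdJ P R W 𝒰 (sm (zz X) S) (la (zz X) S) with hT
  have hTG : (RR P X (zz X) (HH X) (kk X) V).filter
      (fun S => NdJ P R W 𝒰 (sm (zz X) S) (la (zz X) S) ∧ G S) = T.filter G := by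
    rw [hT, filter_filter]
  rw [hTG] at hmain
  have hTS : T ⊆ SS P X := (filter_subset _ _).trans (filter_subset _ _)
  have hRS : ((RR P X (zz X) (HH X) (kk X) V).card : ℝ) ≤ ((SS P X).card : ℝ) := by
    exact_mod_cast card_le_card (filter_subset _ _)
  have hcmp := cmp G T (SS P X) hTS (cc) hp0 hp1
  have hout : ((SS P X \ T).card : ℝ) ≤
      ((((SS P X).filter fun S => kk X < S.card).card : ℝ) +
      (((SS P X).filter fun S => S.card ≤ kk X ∧
        X < (∏ p ∈ sm (zz X) S, p) * ∏ p ∈ la (zz X) S, XX (HH X) (jj (HH X) p)).card : ℝ) +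
      (((SS P X).filter fun S => ¬ Set.InjOn (jj (HH X)) (la (zz X) S : Set ℕ)).card : ℝ) +
      (((SS P X).filter fun S => ((la (zz X) S).filter fun p => p % P.N ∈ P.A).card ≤
        2 * (sm (zz X) S).card + V ∨ ∀ p ∈ la (zz X) S, p % P.N ∈ P.A).card : ℝ)) +
      (((SS P X).filter fun S => S.card ≤ kk X ∧
        ¬ Nd P (sm (zz X) S ∪ W) (la (zz X) S)).card : ℝ) +
      ∑ e ∈ prU 𝒰, ((few P X (zz X) V (symmDiff e.1 e.2)).card : ℝ) := by
    have g := card_le_card (out_subJ (P := P) W 𝒰 X (zz X) (HH X) (kk X) R)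
    rw [← hV, ← hT] at g
    have g3 := Finset.card_biUnion_le (s := prU 𝒰)
      (t := fun e => few P X (zz X) V (symmDiff e.1 e.2))
    have g2 := ((g.trans (card_union_le _ _)).trans (Nat.add_le_add_right
      ((card_union_le _ _).trans (Nat.add_le_add_right ((card_union_le _ _).trans
      (Nat.add_le_add_right ((card_union_le _ _).trans
      (Nat.add_le_add_right (card_union_le _ _) _)) _)) _)) _)).trans (Nat.add_le_add_left g3 _)
    exact_mod_cast g2
  have g1 : ε * ((RR P X (zz X) (HH X) (kk X) V).card : ℝ) ≤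
      ε * ((SS P X).card : ℝ) := mul_le_mul_of_nonneg_left hRS hε.le
  linarith

/-- **the law with a power of the logarithm saved, uniformly in the property** -/
theorem uni (hO : Ok P) {h : ℝ} (hh0 : 0 ≤ h) (hH : HAL P h) (hh : h < al P)
    {W : Finset ℕ} {𝒰 : Finset (Finset ℕ)} (hW : OkW P W 𝒰) (R : ℕ) :
    ∃ η : ℝ, 0 < η ∧ ∀ᶠ X : ℕ in atTop, ∀ (G : Finset ℕ → Prop) (cc ε : ℝ), 0 ≤ cc → cc ≤ 1 →
      0 < ε → BX P W 𝒰 G cc ε R →
      |(((SS P X).filter G).card : ℝ) - cc * ((SS P X).card : ℝ)| ≤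
        ε * ((SS P X).card : ℝ) + X * Real.exp (-(1 - (al P + be P) + η) * eL X) := by
  have hal := Lo.al_pos hO
  have hbe := Lo.be_pos hO
  obtain ⟨η, hη⟩ : ∃ η : ℝ, η = min (min (al P / 8) (be P / 2)) ((al P - h) / 2) := ⟨_, rfl⟩
  have h0 : 0 < η := by
    rw [hη]
    exact lt_min (lt_min (by linarith) (by linarith)) (by linarith)
  have h1 : η ≤ al P / 8 := by
    rw [hη]
    exact (min_le_left _ _).trans (min_le_left _ _)
  have h2 : η ≤ be P / 2 := by
    rw [hη]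
    exact (min_le_left _ _).trans (min_le_right _ _)
  have h3 : η ≤ (al P - h) / 2 := by
    rw [hη]
    exact min_le_right _ _
  exact ⟨η / 2, half_pos h0, uni0 hO (η := η) t_BIL (t_KEYJ hO) Cn.t_CNT Pool.Agent.Y488.CX.t_SIE hW
    h0 (by linarith)
    (t_BADJ Pool.Agent.Y488.CX.t_SIE hO (t_MER hO) hh0 hH (by linarith) fun u hu => (hW.1 u hu).1)
    (Fw.t_FEW hO (t_MER hO) h0 (by linarith) (by linarith))
    (fun e he hu => t_FEWJ Pool.Agent.Y488.CX.t_SIE (t_MER hO) (t_MERJ hO) hO he hu h1) R⟩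

/-- **large coranks are rare** -/
theorem rare (hO : Ok P) {h : ℝ} (hh0 : 0 ≤ h) (hH : HAL P h) (hh : h < al P)
    {U : Finset ℕ} (hU : ∀ u ∈ U, u.Prime ∧ Nat.Coprime u P.N) (f : ℕ → ZMod 2) :
    ∃ η : ℝ, 0 < η ∧ ∀ᶠ X : ℕ in atTop, ∀ r : ℕ,
      (((SS P X).filter fun S => 2 ^ r ≤ nK P f (symmDiff S U)).card : ℝ) ≤
        3 / 2 ^ r * ((SS P X).card : ℝ) + X * Real.exp (-(1 - (al P + be P) + η) * eL X) := by
  obtain ⟨η, h0, h1⟩ := uni hO hh0 hH hh (W := U) (𝒰 := {U})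
    ⟨hU, fun V hV => by rw [Finset.mem_singleton.1 hV]⟩ 1
  refine ⟨η, h0, ?_⟩
  filter_upwards [h1] with X hX r
  have h2 := hX (fun S => 2 ^ r ≤ nK P f (symmDiff S U)) 0 (3 / 2 ^ r) le_rfl zero_le_one
    (by positivity) (t_TBOX hO Pool.Agent.Y356.CQ.t_EQ f
      (fun V hV => by rw [Finset.mem_singleton.1 hV]) (Finset.mem_singleton_self U) r)
  rw [zero_mul, sub_zero, abs_of_nonneg (Nat.cast_nonneg _)] at h2
  refine le_trans (le_of_eq ?_) h2
  congr 1
  exact Pool.Agent.X99.GJ.fc _ fun _ _ => Iff.rfl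

end Pool.Agent.X99.CK
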