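import Mathlib
import Pool.Agent.X99.CK.Uni
import Pool.Agent.X99.CK.Mean

/-!
# The moments of the corank
-/

set_option autoImplicit false
set_option linter.unusedSectionVars false
set_option linter.style.haveILetI false

open Finset Filter

namespace Pool.Agent.X99.CK

open Pool.Agent.X99.C49
open Pool.Agent.X99.GQ (Par Ok HAL Cl Gd SS al be)
open Pool.Agent.X99.GJ (star star_pf star_one fc OkW)
open Pool.Agent.Y697.PQ (gi cf cf_pos pm1)
open Pool.Agent.Y703.CX (eL eL_tendsto logX_eq rpow_eL ev_eL one_add_log kk_ge kk_le X_pos)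

/-- the corank is at most the number of the primes -/
theorem nK_le (P : Par) (f : ℕ → ZMod 2) (S : Finset ℕ) : nK P f S ≤ 2 ^ S.card := by
  classical
  have h1 : Nat.card (S → ZMod 2) = 2 ^ S.card := by
    rw [Nat.card_fun, Nat.card_eq_fintype_card (α := ZMod 2), Nat.card_eq_fintype_card (α := S),
      ZMod.card, Fintype.card_coe]
  rw [← h1]
  unfold nK
  refine Nat.card_le_card_of_injective
    (fun x : {x : ℕ → ZMod 2 // SolK P f S x} => fun q : S => x.1 q) fun x y h => ?_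
  refine Subtype.ext (funext fun q => ?_)
  by_cases hq : q ∈ S
  · exact congrFun h ⟨q, hq⟩
  · rw [x.2.1 q fun h => hq h.1, y.2.1 q fun h => hq h.1]

theorem kk_le_card {m D : ℕ} (hm : Fam m) (hD : Fam D) :
    kk (star m D) ≤ D.primeFactors.card + m.primeFactors.card := by
  have h1 := nK_le P28 n4 (star m D).primeFactors
  rw [nK_kk] at h1
  have h2 := (Nat.pow_le_pow_iff_right (by norm_num)).1 h1
  refine h2.trans ?_
  rw [(star_pf hm.1 hD.1).2.1]
  refine (Finset.card_le_card (t := D.primeFactors ∪ m.primeFactors) fun x hx => ?_).trans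
    (Finset.card_union_le _ _)
  rw [Finset.mem_symmDiff] at hx
  rw [Finset.mem_union]
  tauto

open Classical in
/-- the members -/
noncomputable def TT (X : ℕ) : Finset ℕ := (Icc 1 X).filter fun D => Fam D

theorem mem_TT {X D : ℕ} : D ∈ TT X ↔ (1 ≤ D ∧ D ≤ X) ∧ Fam D := by
  classical
  unfold TT
  rw [Finset.mem_filter, Finset.mem_Icc]

open Classical in
theorem TT_card (X : ℕ) (Q : Finset ℕ → Prop) :
    ((TT X).filter fun D => Q D.primeFactors).card = ((SS P28 X).filter Q).card := by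
  rw [← Pool.Agent.X99.GQ.card_eq P28 X Q]
  unfold TT
  rw [Finset.filter_filter]
  refine fc _ fun D _ => ?_
  rw [← and_assoc, fam_iff]

theorem al_be : al P28 = 1 / 4 ∧ be P28 = 1 / 4 := by
  unfold al be
  have h1 : P28.A.card = 3 := by decide
  have h3 : P28.B.card = 3 := by decide
  have h2 : Nat.totient P28.N = 12 := by decide
  rw [h1, h2, h3]
  norm_num

/-- few members have a large corank -/
theorem rare28 {m : ℕ} (hm : Fam m) : ∃ η : ℝ, 0 < η ∧ ∀ᶠ X : ℕ in atTop, ∀ r : ℕ,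
    (∑ D ∈ TT X, if r ≤ kk (star m D) then (1 : ℝ) else 0) ≤
      3 / 2 ^ r * ((TT X).card : ℝ) + X * Real.exp (-(1 / 2 + η) * eL X) := by
  classical
  obtain ⟨η, h0, h1⟩ := rare ok28 (h := 1 / 2 ^ (Fintype.card (Fin 2) + 1)) (by positivity)
    (Pool.Agent.X99.GQ.Ha.t_HAL ok28 rc28) (by rw [al_be.1, Fintype.card_fin]; norm_num)
    (U := m.primeFactors) (fun u hu => ⟨(Nat.mem_primeFactors.1 hu).1,
      (cop28 hm).2 u (Nat.mem_primeFactors.1 hu).1 (Nat.mem_primeFactors.1 hu).2.1⟩) n4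
  refine ⟨η, h0, ?_⟩
  filter_upwards [h1] with X hX r
  have h2 := hX r
  have e : (1 - (al P28 + be P28) + η : ℝ) = 1 / 2 + η := by
    rw [al_be.1, al_be.2]
    norm_num
  rw [e] at h2
  have h3 : (TT X).card = (SS P28 X).card := by
    have h4 := TT_card X (fun _ => True)
    rw [Finset.filter_true, Finset.filter_true] at h4
    exact h4
  rw [h3, Finset.sum_boole]
  refine le_trans (le_of_eq ?_) h2
  congr 1
  refine Eq.trans ?_ ((TT_card X (fun S => 2 ^ r ≤ nK P28 n4 (symmDiff S m.primeFactors))).trans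
    (fc _ fun _ _ => Iff.rfl))
  refine fc _ fun D hD => ?_
  rw [← (star_pf hm.1 (mem_TT.1 hD).2.1).2.1, nK_kk]
  exact (Nat.pow_le_pow_iff_right (by norm_num)).symm

/-- the members with many primes -/
theorem sum_two (X : ℕ) : ∑ D ∈ TT X, (2 : ℝ) ^ D.primeFactors.card ≤ X * (1 + Real.log X) := by
  classical
  refine le_trans ?_ (Pool.Agent.X99.GQ.Cn.sum_two_pow P28 X)
  have hinj : Set.InjOn (fun D : ℕ => D.primeFactors) (TT X) := by
    intro a ha b hb hab
    have hab' : a.primeFactors = b.primeFactors := hab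
    rw [← Nat.prod_primeFactors_of_squarefree (mem_TT.1 ha).2.1,
      ← Nat.prod_primeFactors_of_squarefree (mem_TT.1 hb).2.1, hab']
  have h1 : ∑ D ∈ TT X, (2 : ℝ) ^ D.primeFactors.card =
      ∑ S ∈ (TT X).image (fun D : ℕ => D.primeFactors), (2 : ℝ) ^ S.card :=
    (Finset.sum_image (f := fun S : Finset ℕ => (2 : ℝ) ^ S.card) hinj).symm
  rw [h1]
  refine Finset.sum_le_sum_of_subset_of_nonneg (fun S hS => ?_) fun _ _ _ => by positivity
  obtain ⟨D, hD, rfl⟩ := Finset.mem_image.1 hS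
  obtain ⟨⟨g1, g2⟩, g3⟩ := mem_TT.1 hD
  have g4 := (fam_iff D).2 g3
  unfold SS
  rw [Finset.mem_filter, Finset.mem_powerset]
  refine ⟨fun p hp => ?_, g4.2, ?_⟩
  · have := Nat.le_of_dvd (by omega) (Nat.dvd_of_mem_primeFactors hp)
    exact Finset.mem_range.2 (by omega)
  · rw [Nat.prod_primeFactors_of_squarefree g3.1]
    exact g2

/-- the size of the class -/
theorem low28 : ∃ c : ℝ, 0 < c ∧ ∀ᶠ X : ℕ in atTop,
    c * (X * Real.exp (-(1 / 2) * eL X)) ≤ ((TT X).card : ℝ) := by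
  obtain ⟨c, X₀, hc, h⟩ := Pool.Agent.X99.GQ.Lo.t_LOW ok28
  refine ⟨c, hc, ?_⟩
  filter_upwards [eventually_ge_atTop X₀, ev_eL 1] with X hX hl
  have h1 := h X hX
  have e : (-1 + (al P28 + be P28) : ℝ) = -(1 / 2) := by
    rw [al_be.1, al_be.2]
    norm_num
  rw [e, rpow_eL (by linarith)] at h1
  have h3 : (TT X).card = (SS P28 X).card := by
    have h4 := TT_card X (fun _ => True)
    rw [Finset.filter_true, Finset.filter_true] at h4
    exact h4
  rw [h3]
  linarith

/-- the numbers with many prime factors -/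
theorem many_mom (u j : ℕ) : ∀ ε : ℝ, 0 < ε → ∀ᶠ X : ℕ in atTop,
    (∑ D ∈ TT X, if Pool.Agent.Y703.CX.kk X < D.primeFactors.card then
      ((D.primeFactors.card + u : ℕ) : ℝ) ^ j else 0) ≤ ε * ((TT X).card : ℝ) := by
  classical
  intro ε hε
  -- the powers
  obtain ⟨C, hC0, hC⟩ : ∃ C : ℝ, 0 < C ∧ ∀ n : ℕ, ((n + u : ℕ) : ℝ) ^ j ≤ C * (Real.sqrt 2) ^ n := by
    have h1 : Tendsto (fun n : ℕ => ((n : ℕ) : ℝ) ^ j / (Real.sqrt 2) ^ n) atTop (nhds 0) :=
      tendsto_pow_const_div_const_pow_of_one_lt j (by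
        rw [Real.lt_sqrt (by norm_num)]
        norm_num)
    obtain ⟨B, hB⟩ := h1.bddAbove_range
    refine ⟨(|B| + 1) * (Real.sqrt 2) ^ u, by positivity, fun n => ?_⟩
    have h2 : (((n + u : ℕ) : ℕ) : ℝ) ^ j / (Real.sqrt 2) ^ (n + u) ≤ B := hB ⟨n + u, rfl⟩
    rw [div_le_iff₀ (by positivity)] at h2
    refine h2.trans ?_
    rw [pow_add]
    have h3 : B ≤ |B| + 1 := (le_abs_self B).trans (by linarith)
    have h4 : (0 : ℝ) ≤ Real.sqrt 2 ^ n * Real.sqrt 2 ^ u := by positivity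
    nlinarith
  obtain ⟨c, hc, hlow⟩ := low28
  -- the exponential
  have h2 : Tendsto (fun X : ℕ => 2 * C * Real.exp (-(19 / 10) * eL X)) atTop (nhds 0) := by
    have h3 : Tendsto (fun X : ℕ => -(19 / 10) * eL X) atTop atBot :=
      (eL_tendsto.const_mul_atTop_of_neg (by norm_num))
    have h4 := (Real.tendsto_exp_atBot.comp h3).const_mul (2 * C)
    simpa using h4
  filter_upwards [hlow, ev_eL 1, h2.eventually (gt_mem_nhds (mul_pos hε hc))] with X hX hl h3
  have hl0 : 0 < eL X := by linarith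
  have hK := kk_ge X
  have hs2 : (0 : ℝ) < Real.sqrt 2 := by positivity
  have hs1 : (1 : ℝ) ≤ Real.sqrt 2 := by
    rw [Real.one_le_sqrt]
    norm_num
  have hs22 : Real.sqrt 2 * Real.sqrt 2 = 2 := Real.mul_self_sqrt (by norm_num)
  have step : (∑ D ∈ TT X, if Pool.Agent.Y703.CX.kk X < D.primeFactors.card then
      ((D.primeFactors.card + u : ℕ) : ℝ) ^ j else 0) ≤
      C * ((Real.sqrt 2) ^ Pool.Agent.Y703.CX.kk X)⁻¹ * ∑ D ∈ TT X, (2 : ℝ) ^ D.primeFactors.card := by
    rw [Finset.mul_sum]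
    refine Finset.sum_le_sum fun D _ => ?_
    split_ifs with h4
    · refine (hC _).trans ?_
      rw [mul_assoc]
      refine mul_le_mul_of_nonneg_left ?_ hC0.le
      rw [inv_mul_eq_div, le_div_iff₀ (by positivity)]
      calc Real.sqrt 2 ^ D.primeFactors.card * Real.sqrt 2 ^ Pool.Agent.Y703.CX.kk X ≤
            Real.sqrt 2 ^ D.primeFactors.card * Real.sqrt 2 ^ D.primeFactors.card :=
            mul_le_mul_of_nonneg_left (pow_le_pow_right₀ hs1 h4.le) (by positivity)
        _ = 2 ^ D.primeFactors.card := by rw [← mul_pow, hs22]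
    · positivity
  have hK2 : ((Real.sqrt 2) ^ Pool.Agent.Y703.CX.kk X)⁻¹ ≤ Real.exp (-(34 / 10) * eL X) := by
    rw [← Real.exp_log hs2, ← Real.exp_nat_mul, ← Real.exp_neg]
    refine Real.exp_le_exp.2 ?_
    have h5 : Real.log (Real.sqrt 2) = Real.log 2 / 2 := by
      rw [Real.log_sqrt (by norm_num)]
    rw [h5]
    have h6 := Real.log_two_gt_d9
    have h7 : (34 / 10 : ℝ) * eL X ≤ Pool.Agent.Y703.CX.kk X * (Real.log 2 / 2) := by
      calc (34 / 10 : ℝ) * eL X ≤ (10 * eL X) * (Real.log 2 / 2) := by nlinarith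
        _ ≤ _ := mul_le_mul_of_nonneg_right hK (by linarith)
    linarith
  have hsum := sum_two X
  have hlog := one_add_log hl0
  have hX0 : (0 : ℝ) ≤ X := Nat.cast_nonneg _
  have hexp : Real.exp (-(34 / 10) * eL X) * Real.exp (eL X) =
      Real.exp (-(19 / 10) * eL X) * Real.exp (-(1 / 2) * eL X) := by
    rw [← Real.exp_add, ← Real.exp_add]
    congr 1
    ring
  calc (∑ D ∈ TT X, if Pool.Agent.Y703.CX.kk X < D.primeFactors.card then
      ((D.primeFactors.card + u : ℕ) : ℝ) ^ j else 0) ≤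
      C * ((Real.sqrt 2) ^ Pool.Agent.Y703.CX.kk X)⁻¹ *
        ∑ D ∈ TT X, (2 : ℝ) ^ D.primeFactors.card := step
    _ ≤ C * Real.exp (-(34 / 10) * eL X) * (X * (2 * Real.exp (eL X))) := by
        have h8 : ∑ D ∈ TT X, (2 : ℝ) ^ D.primeFactors.card ≤ X * (2 * Real.exp (eL X)) :=
          hsum.trans (mul_le_mul_of_nonneg_left hlog hX0)
        have h9 : (0 : ℝ) ≤ ∑ D ∈ TT X, (2 : ℝ) ^ D.primeFactors.card :=
          Finset.sum_nonneg fun _ _ => by positivity
        gcongr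
    _ = (2 * C * Real.exp (-(19 / 10) * eL X)) * (X * Real.exp (-(1 / 2) * eL X)) := by
        linear_combination (2 * C * X) * hexp
    _ ≤ (ε * c) * (X * Real.exp (-(1 / 2) * eL X)) :=
        mul_le_mul_of_nonneg_right h3.le (by positivity)
    _ = ε * (c * (X * Real.exp (-(1 / 2) * eL X))) := by ring
    _ ≤ ε * ((TT X).card : ℝ) := mul_le_mul_of_nonneg_left hX hε.le

/-- the powers of the large coranks, pointwise -/
theorem pow_ind (j B K k : ℕ) (hk : k ≤ K) : (if B ≤ k then ((k : ℕ) : ℝ) ^ j else 0) ≤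
    ∑ r ∈ Icc B K, (r : ℝ) ^ j * (if r ≤ k then 1 else 0) := by
  split_ifs with h
  · refine le_trans (le_of_eq ?_) (Finset.single_le_sum (f := fun r : ℕ => (r : ℝ) ^ j *
      (if r ≤ k then 1 else 0)) (fun r _ => ?_) (Finset.mem_Icc.2 ⟨h, hk⟩))
    · simp
    · split_ifs <;> positivity
  · refine Finset.sum_nonneg fun r _ => ?_
    split_ifs <;> positivity

/-- **uniform integrability of the powers of the corank** -/
theorem ui {m : ℕ} (hm : Fam m) (j : ℕ) {ε : ℝ} (hε : 0 < ε) : ∃ B : ℕ, ∀ᶠ X : ℕ in atTop,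
    av (fun D => if B ≤ kk (star m D) then ((kk (star m D) : ℕ) : ℝ) ^ j else 0) X ≤ ε := by
  classical
  set u : ℕ := m.primeFactors.card with hu
  -- the tail of the series
  have hs : Summable fun r : ℕ => (r : ℝ) ^ j * (3 / 2 ^ r) := by
    have h1 : Summable fun r : ℕ => (r : ℝ) ^ j * (1 / 2 : ℝ) ^ r :=
      summable_pow_mul_geometric_of_norm_lt_one j (by norm_num)
    refine (h1.mul_left 3).congr fun r => ?_
    rw [one_div, inv_pow]
    ring
  obtain ⟨B, hB⟩ : ∃ B : ℕ, ∀ K : ℕ, ∑ r ∈ Icc B K, (r : ℝ) ^ j * (3 / 2 ^ r) ≤ ε / 3 := by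
    have h1 : Tendsto (fun B => ∑' r : ℕ, ((r + B : ℕ) : ℝ) ^ j * (3 / 2 ^ (r + B))) atTop
        (nhds 0) := tendsto_sum_nat_add fun r : ℕ => (r : ℝ) ^ j * (3 / 2 ^ r)
    obtain ⟨B, hB⟩ := (h1.eventually (gt_mem_nhds (show (0 : ℝ) < ε / 3 by positivity))).exists
    refine ⟨B, fun K => le_trans ?_ hB.le⟩
    have h2 := (summable_nat_add_iff B).2 hs
    have h3 : ∑ r ∈ Icc B K, (r : ℝ) ^ j * (3 / 2 ^ r) =
        ∑ r ∈ range (K + 1 - B), ((r + B : ℕ) : ℝ) ^ j * (3 / 2 ^ (r + B)) := by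
      have h4 : Icc B K = Ico B (K + 1) := by
        ext x
        rw [Finset.mem_Icc, Finset.mem_Ico]
        omega
      rw [h4, Finset.sum_Ico_eq_sum_range]
      exact Finset.sum_congr rfl fun r _ => by rw [add_comm B r]
    rw [h3]
    exact h2.sum_le_tsum _ fun r _ => by positivity
  refine ⟨B, ?_⟩
  obtain ⟨η, hη, hrare⟩ := rare28 hm
  obtain ⟨c, hc, hlow⟩ := low28
  have hmany := many_mom u j (ε / 3) (by positivity)
  -- the error term
  have herr : Tendsto (fun X : ℕ => (12 * eL X) ^ (j + 1) * Real.exp (-η * eL X)) atTop (nhds 0) := by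
    have h1 : Tendsto (fun x : ℝ => x ^ (j + 1) * Real.exp (-η * x)) atTop (nhds 0) := by
      have h2 := (isLittleO_pow_exp_pos_mul_atTop (k := j + 1) hη).tendsto_div_nhds_zero
      refine h2.congr fun x => ?_
      rw [neg_mul, Real.exp_neg, div_eq_mul_inv]
    have h3 := (h1.comp eL_tendsto).const_mul ((12 : ℝ) ^ (j + 1))
    rw [mul_zero] at h3
    refine h3.congr fun X => ?_
    simp only [Function.comp]
    rw [mul_pow]
    ring
  filter_upwards [hrare, hlow, hmany, ev_eL (u + 1),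
    herr.eventually (gt_mem_nhds (show (0 : ℝ) < ε / 3 * c by positivity)),
    eventually_ge_atTop 1] with X h1 h2 h3 h4 h5 hX1
  have hu0 : (0 : ℝ) ≤ u := Nat.cast_nonneg _
  have hl1 : 1 ≤ eL X := by linarith
  have hl0 : 0 < eL X := by linarith
  have hN : (0 : ℝ) < ((TT X).card : ℝ) := den_pos hX1
  set k₀ := Pool.Agent.Y703.CX.kk X with hk₀
  set K : ℕ := k₀ + u with hK
  have hKle : (K : ℝ) + 1 ≤ 12 * eL X := by
    have h6 := kk_le hl1
    rw [hK]
    push_cast
    linarith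
  show (∑ D ∈ TT X, _) / ((TT X).card : ℝ) ≤ ε
  rw [div_le_iff₀ hN]
  -- the two parts
  have hpt : ∀ D ∈ TT X, (if B ≤ kk (star m D) then ((kk (star m D) : ℕ) : ℝ) ^ j else 0) ≤
      ∑ r ∈ Icc B K, (r : ℝ) ^ j * (if r ≤ kk (star m D) then 1 else 0) +
      (if k₀ < D.primeFactors.card then ((D.primeFactors.card + u : ℕ) : ℝ) ^ j else 0) := by
    intro D hD
    have hk := kk_le_card hm (mem_TT.1 hD).2
    by_cases h6 : k₀ < D.primeFactors.card
    · rw [if_pos h6]
      have h7 : (if B ≤ kk (star m D) then ((kk (star m D) : ℕ) : ℝ) ^ j else 0) ≤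
          ((D.primeFactors.card + u : ℕ) : ℝ) ^ j := by
        split_ifs
        · exact pow_le_pow_left₀ (Nat.cast_nonneg _) (Nat.cast_le.2 hk) j
        · positivity
      have h8 : (0 : ℝ) ≤ ∑ r ∈ Icc B K, (r : ℝ) ^ j * (if r ≤ kk (star m D) then 1 else 0) := by
        refine Finset.sum_nonneg fun r _ => ?_
        split_ifs <;> positivity
      linarith
    · rw [if_neg h6, add_zero]
      exact pow_ind j B K _ (by omega)
  refine (Finset.sum_le_sum hpt).trans ?_
  rw [Finset.sum_add_distrib, Finset.sum_comm]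
  have hA : ∑ r ∈ Icc B K, ∑ D ∈ TT X, (r : ℝ) ^ j * (if r ≤ kk (star m D) then (1 : ℝ) else 0) ≤
      ε / 3 * ((TT X).card : ℝ) + ε / 3 * ((TT X).card : ℝ) := by
    have h6 : ∀ r ∈ Icc B K, ∑ D ∈ TT X, (r : ℝ) ^ j * (if r ≤ kk (star m D) then (1 : ℝ) else 0) ≤
        (r : ℝ) ^ j * (3 / 2 ^ r) * ((TT X).card : ℝ) +
          (K : ℝ) ^ j * (X * Real.exp (-(1 / 2 + η) * eL X)) := by
      intro r hr
      rw [← Finset.mul_sum]
      have h7 := mul_le_mul_of_nonneg_left (h1 r) (by positivity : (0 : ℝ) ≤ (r : ℝ) ^ j)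
      have h8 : (r : ℝ) ^ j ≤ (K : ℝ) ^ j := pow_le_pow_left₀ (Nat.cast_nonneg _)
        (Nat.cast_le.2 (Finset.mem_Icc.1 hr).2) j
      have h9 : (0 : ℝ) ≤ X * Real.exp (-(1 / 2 + η) * eL X) := by positivity
      nlinarith [mul_le_mul_of_nonneg_right h8 h9]
    refine (Finset.sum_le_sum h6).trans ?_
    rw [Finset.sum_add_distrib, ← Finset.sum_mul, Finset.sum_const, nsmul_eq_mul]
    refine add_le_add (mul_le_mul_of_nonneg_right (hB K) hN.le) ?_
    have h10 : ((Icc B K).card : ℝ) ≤ K + 1 := by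
      rw [Nat.card_Icc]
      exact_mod_cast Nat.sub_le _ _
    have h11 : (K : ℝ) ^ j ≤ (12 * eL X) ^ j := pow_le_pow_left₀ (Nat.cast_nonneg _)
      (by linarith) j
    have h12 : Real.exp (-(1 / 2 + η) * eL X) = Real.exp (-η * eL X) * Real.exp (-(1 / 2) * eL X) := by
      rw [← Real.exp_add]
      congr 1
      ring
    calc ((Icc B K).card : ℝ) * ((K : ℝ) ^ j * (X * Real.exp (-(1 / 2 + η) * eL X))) ≤
          (12 * eL X) * ((12 * eL X) ^ j * (X * Real.exp (-(1 / 2 + η) * eL X))) := by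
          have h13 : ((Icc B K).card : ℝ) ≤ 12 * eL X := h10.trans hKle
          gcongr
      _ = ((12 * eL X) ^ (j + 1) * Real.exp (-η * eL X)) * (X * Real.exp (-(1 / 2) * eL X)) := by
          rw [h12, pow_succ]
          ring
      _ ≤ (ε / 3 * c) * (X * Real.exp (-(1 / 2) * eL X)) :=
          mul_le_mul_of_nonneg_right h5.le (by positivity)
      _ = ε / 3 * (c * (X * Real.exp (-(1 / 2) * eL X))) := by ring
      _ ≤ ε / 3 * ((TT X).card : ℝ) := mul_le_mul_of_nonneg_left h2 (by positivity)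
  linarith

end Pool.Agent.X99.CK
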