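import Mathlib
import Pool.Agent.X99.CK.Mom

/-!
# The mixed moments of the coranks of several twists
-/

set_option autoImplicit false
set_option linter.unusedSectionVars false
set_option linter.style.haveILetI false

open Finset Filter

namespace Pool.Agent.X99.CK

open Pool.Agent.X99.C49
open Pool.Agent.X99.GJ (star star_pf star_one fc OkW)

/-- the boxes exhaust the functions -/
theorem box_top (ι : Type) [Fintype ι] [DecidableEq ι] :
    Tendsto (fun n : ℕ => Fintype.piFinset fun _ : ι => range n) atTop atTop := by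
  refine tendsto_atTop_finset_of_monotone (fun a b hab => ?_) fun r => ?_
  · exact Fintype.piFinset_subset _ _ fun _ => Finset.range_subset_range.2 hab
  · refine ⟨∑ i, r i + 1, ?_⟩
    rw [Fintype.mem_piFinset]
    intro i
    rw [Finset.mem_range]
    have := Finset.single_le_sum (f := r) (fun _ _ => Nat.zero_le _) (Finset.mem_univ i)
    omega

/-- product series -/
theorem summ_pi {ι : Type} [Fintype ι] [DecidableEq ι] {f : ℕ → ℝ} (h0 : ∀ r, 0 ≤ f r) {a : ℝ}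
    (hf : HasSum f a) : HasSum (fun r : ι → ℕ => ∏ i, f (r i)) (a ^ Fintype.card ι) := by
  have ha : 0 ≤ a := hf.nonneg h0
  have hbox : ∀ n : ℕ, ∑ r ∈ Fintype.piFinset fun _ : ι => range n, ∏ i, f (r i) =
      (∑ k ∈ range n, f k) ^ Fintype.card ι := by
    intro n
    rw [← Finset.prod_univ_sum (fun _ : ι => range n) fun _ k => f k, Finset.prod_const,
      Finset.card_univ]
  have hle : ∀ n : ℕ, ∑ k ∈ range n, f k ≤ a := fun n => by
    rw [← hf.tsum_eq]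
    exact hf.summable.sum_le_tsum _ fun k _ => h0 k
  have hsum : Summable fun r : ι → ℕ => ∏ i, f (r i) := by
    refine summable_of_sum_le (c := a ^ Fintype.card ι)
      (fun r => Finset.prod_nonneg fun i _ => h0 _) fun u => ?_
    obtain ⟨n, hn⟩ := ((box_top ι).eventually (eventually_ge_atTop u)).exists
    refine (Finset.sum_le_sum_of_subset_of_nonneg hn
      fun r _ _ => Finset.prod_nonneg fun i _ => h0 _).trans ?_
    rw [hbox]
    exact pow_le_pow_left₀ (Finset.sum_nonneg fun k _ => h0 k) (hle n) _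
  have h1 : Tendsto (fun n : ℕ => (∑ k ∈ range n, f k) ^ Fintype.card ι) atTop
      (nhds (∑' r : ι → ℕ, ∏ i, f (r i))) :=
    (hsum.hasSum.comp (box_top ι)).congr hbox
  have h2 := hf.tendsto_sum_nat.pow (Fintype.card ι)
  rw [← tendsto_nhds_unique h1 h2]
  exact hsum.hasSum

/-- the weights -/
theorem wsum (ι : Type) [Fintype ι] [DecidableEq ι] :
    HasSum (fun r : ι → ℕ => ∏ i, pr (r i)) 1 := by
  have h := summ_pi (ι := ι) pr_nonneg hasSum_pr
  rwa [one_pow] at h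

theorem one_add_sum_le {ι : Type} [DecidableEq ι] (s : Finset ι) (r : ι → ℕ) :
    (1 : ℝ) + ((∑ i ∈ s, r i : ℕ) : ℝ) ≤ ∏ i ∈ s, (1 + (r i : ℝ)) := by
  induction s using Finset.induction_on with
  | empty => simp
  | insert a s ha ih =>
    rw [Finset.sum_insert ha, Finset.prod_insert ha]
    have h1 : (0 : ℝ) ≤ r a := Nat.cast_nonneg _
    have h2 : (0 : ℝ) ≤ ((∑ i ∈ s, r i : ℕ) : ℝ) := Nat.cast_nonneg _
    push_cast at ih h2 ⊢
    nlinarith

/-- summability against the weights -/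
theorem summ_g {ι : Type} [Fintype ι] [DecidableEq ι] {g : (ι → ℕ) → ℝ} {C : ℝ} {j : ℕ}
    (hg : ∀ r, |g r| ≤ C * (1 + ((∑ i, r i : ℕ) : ℝ)) ^ j) :
    Summable fun r : ι → ℕ => g r * ∏ i, pr (r i) := by
  have hC : 0 ≤ C := by
    have h1 := (abs_nonneg _).trans (hg 0)
    simp at h1
    exact h1
  have h1 : Summable fun r : ℕ => (1 + (r : ℝ)) ^ j * pr r := by
    have h2 : Summable fun r : ℕ => ∑ i ∈ range (j + 1), (j.choose i : ℝ) * ((r : ℝ) ^ i * pr r) :=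
      summable_sum fun i _ => (summ_mu i).mul_left _
    refine h2.congr fun r => ?_
    rw [add_comm (1 : ℝ), add_pow, Finset.sum_mul]
    refine Finset.sum_congr rfl fun i _ => ?_
    rw [one_pow, mul_one]
    ring
  have h2 := (summ_pi (ι := ι) (f := fun r => (1 + (r : ℝ)) ^ j * pr r)
    (fun r => mul_nonneg (by positivity) (pr_nonneg r)) h1.hasSum).summable
  refine Summable.of_norm_bounded (h2.mul_left C) fun r => ?_
  rw [Real.norm_eq_abs, abs_mul, abs_of_nonneg (Finset.prod_nonneg fun i _ => pr_nonneg _),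
    Finset.prod_mul_distrib, ← mul_assoc]
  refine mul_le_mul_of_nonneg_right ((hg r).trans ?_)
    (Finset.prod_nonneg fun i _ => pr_nonneg _)
  refine mul_le_mul_of_nonneg_left ?_ hC
  rw [Finset.prod_pow]
  exact pow_le_pow_left₀ (by positivity) (one_add_sum_le univ r) j

/-- the coranks of the twists -/
noncomputable def kv (𝓜 : Finset ℕ) (D : ℕ) : 𝓜 → ℕ := fun m => kk (star m D)

/-- the law in the form of an average -/
theorem kv_law {𝓜 : Finset ℕ} (hM : ∀ m ∈ 𝓜, Fam m) (r : 𝓜 → ℕ) :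
    Tendsto (av fun D => if kv 𝓜 D = r then (1 : ℝ) else 0) atTop (nhds (∏ i, pr (r i))) := by
  classical
  have h1 := lawK 𝓜 hM fun m => if h : m ∈ 𝓜 then r ⟨m, h⟩ else 0
  have h2 : ∏ m ∈ 𝓜, pr (if h : m ∈ 𝓜 then r ⟨m, h⟩ else 0) = ∏ i, pr (r i) := by
    rw [← Finset.prod_coe_sort 𝓜 (fun m => pr (if h : m ∈ 𝓜 then r ⟨m, h⟩ else 0))]
    exact Finset.prod_congr rfl fun m _ => by rw [dif_pos m.2]
  rw [h2] at h1
  refine h1.congr fun X => ?_
  rw [← av_ind]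
  refine av_congr (fun D _ => ?_) X
  refine if_congr ?_ rfl rfl
  constructor
  · intro h
    funext m
    have := h m m.2
    rwa [dif_pos m.2] at this
  · intro h m hm
    rw [dif_pos hm]
    exact congrFun h ⟨m, hm⟩

/-- the truncated functions -/
theorem kv_fin {𝓜 : Finset ℕ} (g : (𝓜 → ℕ) → ℝ) (B X : ℕ) :
    ∑ r ∈ Fintype.piFinset fun _ : 𝓜 => range B, g r * av (fun D =>
      if kv 𝓜 D = r then (1 : ℝ) else 0) X =
      av (fun D => if ∀ m, kv 𝓜 D m < B then g (kv 𝓜 D) else 0) X := by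
  have h1 : ∀ r : 𝓜 → ℕ, g r * av (fun D => if kv 𝓜 D = r then (1 : ℝ) else 0) X =
      av (fun D => g r * if kv 𝓜 D = r then (1 : ℝ) else 0) X := fun r => (av_mul _ _ _).symm
  rw [Finset.sum_congr rfl fun r _ => h1 r, ← av_sum]
  refine av_congr (fun D _ => ?_) X
  simp only [mul_ite, mul_one, mul_zero]
  rw [Finset.sum_ite_eq]
  refine if_congr ?_ rfl rfl
  rw [Fintype.mem_piFinset]
  simp only [Finset.mem_range]

theorem pow_three_le {a b c d : ℝ} {j : ℕ} (ha : 0 ≤ a) (hb : 0 ≤ b) (h1 : a ≤ b * c)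
    (h2 : c ^ j ≤ d) : a ^ j ≤ b ^ j * d :=
  (pow_le_pow_left₀ ha h1 j).trans (by
    rw [mul_pow]; exact mul_le_mul_of_nonneg_left h2 (by positivity))

/-- the tail, pointwise -/
theorem kv_tail {𝓜 : Finset ℕ} {g : (𝓜 → ℕ) → ℝ} {C : ℝ} {j : ℕ} (hC : 0 ≤ C)
    (hg : ∀ r, |g r| ≤ C * (1 + ((∑ i, r i : ℕ) : ℝ)) ^ j) {Bm : ℕ → ℕ} {B : ℕ} (hB1 : 1 ≤ B)
    (hBm : ∀ m ∈ 𝓜, Bm m ≤ B) (D : ℕ) :
    |g (kv 𝓜 D) - (if ∀ m, kv 𝓜 D m < B then g (kv 𝓜 D) else 0)| ≤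
      C * ((𝓜.card : ℝ) + 1) ^ j *
        ∑ m ∈ 𝓜, (if Bm m ≤ kk (star m D) then ((kk (star m D) : ℕ) : ℝ) ^ j else 0) := by
  split_ifs with h
  · rw [sub_self, abs_zero]
    refine mul_nonneg (by positivity) (Finset.sum_nonneg fun m _ => ?_)
    split_ifs <;> positivity
  · rw [sub_zero]
    push Not at h
    obtain ⟨m₀, hm₀⟩ := h
    obtain ⟨m₁, -, hm₁⟩ := Finset.exists_max_image (univ : Finset 𝓜)
      (fun m => kv 𝓜 D m) ⟨m₀, Finset.mem_univ _⟩
    have hBk : B ≤ kk (star m₁ D) := hm₀.trans (hm₁ m₀ (Finset.mem_univ _))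
    refine (hg _).trans ?_
    rw [mul_assoc]
    refine mul_le_mul_of_nonneg_left ?_ hC
    have h1 : (1 : ℝ) + ((∑ m : 𝓜, kv 𝓜 D m : ℕ) : ℝ) ≤
        ((𝓜.card : ℝ) + 1) * (kk (star m₁ D) : ℝ) := by
      have h2 : 1 + ∑ m : 𝓜, kv 𝓜 D m ≤ (𝓜.card + 1) * kk (star m₁ D) := by
        have h3 : ∑ m : 𝓜, kv 𝓜 D m ≤ ∑ _m : 𝓜, kk (star m₁ D) :=
          Finset.sum_le_sum fun m _ => hm₁ m (Finset.mem_univ _)
        rw [Finset.sum_const, Finset.card_univ, Fintype.card_coe, smul_eq_mul] at h3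
        rw [add_mul, one_mul]
        omega
      exact_mod_cast h2
    have h2 : ((kk (star m₁ D) : ℕ) : ℝ) ^ j ≤
        ∑ m ∈ 𝓜, (if Bm m ≤ kk (star m D) then ((kk (star m D) : ℕ) : ℝ) ^ j else 0) := by
      have h3 : (if Bm m₁ ≤ kk (star m₁ D) then ((kk (star m₁ D) : ℕ) : ℝ) ^ j else 0) ≤
          ∑ m ∈ 𝓜, (if Bm m ≤ kk (star m D) then ((kk (star m D) : ℕ) : ℝ) ^ j else 0) :=
        Finset.single_le_sum (f := fun m => if Bm m ≤ kk (star m D) then
          ((kk (star m D) : ℕ) : ℝ) ^ j else 0) (s := 𝓜) (fun m _ => by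
            split_ifs <;> positivity) m₁.2
      rwa [if_pos ((hBm m₁ m₁.2).trans hBk)] at h3
    exact pow_three_le (add_nonneg zero_le_one (Nat.cast_nonneg _))
      (add_nonneg (Nat.cast_nonneg _) zero_le_one) h1 h2

/-- comparison of averages -/
theorem av_abs_sub {a b c : ℕ → ℝ} (h : ∀ D, |a D - b D| ≤ c D) (X : ℕ) :
    |av a X - av b X| ≤ av c X := by
  have h1 : av a X ≤ av b X + av c X := by
    rw [← av_add]
    refine av_mono (fun D _ => ?_) X
    have := (abs_le.1 (h D)).2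
    linarith
  have h2 : av b X ≤ av a X + av c X := by
    rw [← av_add]
    refine av_mono (fun D _ => ?_) X
    have := (abs_le.1 (h D)).1
    linarith
  rw [abs_le]
  constructor <;> linarith

/-- **all the mixed moments** -/
theorem joint_mom {𝓜 : Finset ℕ} (hM : ∀ m ∈ 𝓜, Fam m) {g : (𝓜 → ℕ) → ℝ} {C : ℝ} {j : ℕ}
    (hg : ∀ r, |g r| ≤ C * (1 + ((∑ i, r i : ℕ) : ℝ)) ^ j) :
    Tendsto (av fun D => g (kv 𝓜 D)) atTop (nhds (∑' r : 𝓜 → ℕ, g r * ∏ i, pr (r i))) := by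
  have hC : 0 ≤ C := by
    have h1 := (abs_nonneg _).trans (hg 0)
    simp at h1
    exact h1
  set A : ℝ := ∑' r : 𝓜 → ℕ, g r * ∏ i, pr (r i) with hA
  have hlim : Tendsto (fun B : ℕ => ∑ r ∈ Fintype.piFinset fun _ : 𝓜 => range B,
      g r * ∏ i, pr (r i)) atTop (nhds A) := (summ_g hg).hasSum.comp (box_top 𝓜)
  obtain ⟨N, hN⟩ : ∃ N : ℕ, N = 𝓜.card := ⟨_, rfl⟩
  obtain ⟨L, hL⟩ : ∃ L : ℝ, L = C * ((𝓜.card : ℝ) + 1) ^ j := ⟨_, rfl⟩
  have hL0 : 0 ≤ L := by rw [hL]; positivity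
  rw [Metric.tendsto_atTop]
  intro ε hε
  obtain ⟨B₁, hB₁⟩ := Metric.tendsto_atTop.1 hlim (ε / 4) (by positivity)
  obtain ⟨δ, hδ, hδL⟩ : ∃ δ : ℝ, 0 < δ ∧ L * (N * δ) ≤ ε / 4 := by
    refine ⟨ε / (4 * (L * N + 1)), by positivity, ?_⟩
    rw [← mul_assoc, ← mul_div_assoc, div_le_div_iff₀ (by positivity) (by norm_num)]
    have : 0 ≤ L * N := by positivity
    nlinarith
  choose! Bm hBm using fun m (hm : m ∈ 𝓜) => ui (hM m hm) j hδ
  obtain ⟨B, hB⟩ : ∃ B : ℕ, B = max (max B₁ 1) (𝓜.sup Bm) := ⟨_, rfl⟩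
  have hB1 : 1 ≤ B := hB ▸ (le_max_right _ _).trans (le_max_left _ _)
  have hB1' : B₁ ≤ B := hB ▸ (le_max_left _ _).trans (le_max_left _ _)
  have hBm' : ∀ m ∈ 𝓜, Bm m ≤ B := fun m hm => hB ▸ (Finset.le_sup hm).trans (le_max_right _ _)
  -- the finite part
  have hfin : Tendsto (fun X => ∑ r ∈ Fintype.piFinset fun _ : 𝓜 => range B,
      g r * av (fun D => if kv 𝓜 D = r then (1 : ℝ) else 0) X) atTop
      (nhds (∑ r ∈ Fintype.piFinset fun _ : 𝓜 => range B, g r * ∏ i, pr (r i))) :=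
    tendsto_finsetSum _ fun r _ => Tendsto.const_mul _ (kv_law hM r)
  obtain ⟨X₁, hX₁⟩ := Metric.tendsto_atTop.1 hfin (ε / 4) (by positivity)
  have hev : ∀ᶠ X : ℕ in atTop, ∀ m ∈ 𝓜,
      av (fun D => if Bm m ≤ kk (star m D) then ((kk (star m D) : ℕ) : ℝ) ^ j else 0) X ≤ δ :=
    (Filter.eventually_all_finset 𝓜).2 fun m hm => hBm m hm
  obtain ⟨X₂, hX₂⟩ := eventually_atTop.1 hev
  refine ⟨max X₁ X₂, fun X hX => ?_⟩
  have e1 := hX₁ X ((le_max_left _ _).trans hX)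
  have e2 := hX₂ X ((le_max_right _ _).trans hX)
  have e3 := hB₁ B hB1'
  rw [kv_fin] at e1
  have h1 := av_abs_sub (kv_tail hC hg hB1 hBm') X
  have h2 : av (fun D => C * ((𝓜.card : ℝ) + 1) ^ j * ∑ m ∈ 𝓜, (if Bm m ≤ kk (star m D) then
      ((kk (star m D) : ℕ) : ℝ) ^ j else 0)) X ≤ L * (N * δ) := by
    rw [av_mul, av_sum, ← hL]
    refine mul_le_mul_of_nonneg_left ((Finset.sum_le_sum e2).trans ?_) hL0
    rw [Finset.sum_const, nsmul_eq_mul, hN]
  have htail := h1.trans (h2.trans hδL)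
  rw [Real.dist_eq, abs_lt] at e1 e3 ⊢
  rw [abs_le] at htail
  constructor <;> linarith [e1.1, e1.2, e3.1, e3.2, htail.1, htail.2]

end Pool.Agent.X99.CK
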