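import Mathlib
import Pool.Agent.X99.CK.JMom

/-!
# Consequences for one twist and for the sum of the coranks
-/

set_option autoImplicit false
set_option linter.unusedSectionVars false
set_option linter.style.haveILetI false

open Finset Filter

namespace Pool.Agent.X99.CK

open Pool.Agent.X99.C49
open Pool.Agent.X99.GJ (star star_pf star_one fc OkW)

/-- one twist -/
theorem mom_one {g : ℕ → ℝ} {C : ℝ} {j : ℕ} (hg : ∀ r, |g r| ≤ C * (1 + (r : ℝ)) ^ j) :
    Tendsto (av fun D => g (kk D)) atTop (nhds (∑' k : ℕ, g k * pr k)) := by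
  haveI : Unique ({1} : Finset ℕ) :=
    ⟨⟨⟨1, Finset.mem_singleton_self 1⟩⟩, fun x => Subtype.ext (Finset.mem_singleton.1 x.2)⟩
  have h := joint_mom (𝓜 := {1}) (fun m hm => by rw [Finset.mem_singleton.1 hm]; exact fam_one)
    (g := fun r => g (r ⟨1, Finset.mem_singleton_self 1⟩)) (C := C) (j := j) (fun r => by
      refine (hg _).trans (le_of_eq ?_)
      rw [Fintype.sum_unique, Subsingleton.elim default (⟨1, Finset.mem_singleton_self 1⟩ :
        ({1} : Finset ℕ))])
  have h1 : ∀ D, g (kv {1} D ⟨1, Finset.mem_singleton_self 1⟩) = g (kk D) := by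
    intro D
    show g (kk (star 1 D)) = _
    rw [Pool.Agent.X99.GJ.star_one]
  simp only [h1] at h
  refine h.trans (le_of_eq ?_)
  congr 1
  rw [← (Equiv.funUnique ({1} : Finset ℕ) ℕ).symm.tsum_eq]
  refine tsum_congr fun k => ?_
  rw [Fintype.prod_unique]
  rfl

/-- the sum of the coranks -/
theorem mom_sum {𝓜 : Finset ℕ} (hM : ∀ m ∈ 𝓜, Fam m) {N : ℕ} (hN : 𝓜.card = N) {g : ℕ → ℝ} {C : ℝ}
    {j : ℕ} (hg : ∀ r, |g r| ≤ C * (1 + (r : ℝ)) ^ j) :
    Tendsto (av fun D => g (∑ m ∈ 𝓜, kk (star m D))) atTop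
      (nhds (∑' r : Fin N → ℕ, g (∑ i, r i) * ∏ i, pr (r i))) := by
  have h := joint_mom hM (g := fun r => g (∑ i, r i)) (C := C) (j := j) (fun r => hg _)
  have h1 : ∀ D, g (∑ i, kv 𝓜 D i) = g (∑ m ∈ 𝓜, kk (star m D)) := by
    intro D
    rw [← Finset.sum_coe_sort 𝓜 fun m => kk (star m D)]
    rfl
  simp only [h1] at h
  refine h.trans (le_of_eq ?_)
  congr 1
  have e : Fin N ≃ 𝓜 := (𝓜.equivFinOfCardEq hN).symm
  rw [← (Equiv.arrowCongr e (Equiv.refl ℕ)).tsum_eq]
  refine tsum_congr fun r => ?_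
  congr 1
  · congr 1
    rw [← e.sum_comp]
    exact Finset.sum_congr rfl fun i _ => by simp
  · rw [← e.prod_comp]
    exact Finset.prod_congr rfl fun i _ => by simp

/-- the average of the sum -/
theorem mom_sum_one {𝓜 : Finset ℕ} (hM : ∀ m ∈ 𝓜, Fam m) :
    Tendsto (av fun D => ((∑ m ∈ 𝓜, kk (star m D) : ℕ) : ℝ)) atTop (nhds (𝓜.card * mu)) := by
  have h : ∀ m ∈ 𝓜, Tendsto (av fun D => ((kk (star m D) : ℕ) : ℝ)) atTop (nhds mu) := by
    intro m hm
    haveI : Unique ({m} : Finset ℕ) :=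
      ⟨⟨⟨m, Finset.mem_singleton_self m⟩⟩, fun x => Subtype.ext (Finset.mem_singleton.1 x.2)⟩
    have h1 := mom_sum (𝓜 := {m}) (fun x hx => by rw [Finset.mem_singleton.1 hx]; exact hM m hm)
      (Finset.card_singleton m) (g := fun k => (k : ℝ)) (C := 1) (j := 1) (fun r => by
        rw [abs_of_nonneg (Nat.cast_nonneg r)]
        linarith [pow_one (1 + (r : ℝ))])
    simp only [Finset.sum_singleton] at h1
    refine h1.trans (le_of_eq ?_)
    congr 1
    rw [← (Equiv.funUnique (Fin 1) ℕ).symm.tsum_eq]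
    refine tsum_congr fun k => ?_
    rw [Fintype.prod_unique, Fintype.sum_unique]
    rfl
  have h2 := tendsto_finsetSum 𝓜 h
  rw [Finset.sum_const, nsmul_eq_mul] at h2
  refine h2.congr fun X => ?_
  rw [← av_sum]
  refine av_congr (fun D _ => ?_) X
  push_cast
  rfl

end Pool.Agent.X99.CK
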