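import Mathlib
import Pool.Agent.X99.CK.JMomA

/-!
# The law of large numbers for the coranks of several twists in the mean of order `j`
-/

set_option autoImplicit false
set_option linter.unusedSectionVars false
set_option linter.style.haveILetI false

open Finset Filter

namespace Pool.Agent.X99.CK

open Pool.Agent.X99.C49
open Pool.Agent.X99.GJ (star star_pf star_one fc OkW)

/-- one twist, general `m` -/
theorem mom_tw {m : ℕ} (hm : Fam m) {g : ℕ → ℝ} {C : ℝ} {j : ℕ}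
    (hg : ∀ r, |g r| ≤ C * (1 + (r : ℝ)) ^ j) :
    Tendsto (av fun D => g (kk (star m D))) atTop (nhds (∑' k : ℕ, g k * pr k)) := by
  have h1 := mom_sum (𝓜 := {m}) (fun x hx => by rw [Finset.mem_singleton.1 hx]; exact hm)
    (Finset.card_singleton m) hg
  simp only [Finset.sum_singleton] at h1
  refine h1.trans (le_of_eq ?_)
  congr 1
  rw [← (Equiv.funUnique (Fin 1) ℕ).symm.tsum_eq]
  refine tsum_congr fun k => ?_
  rw [Fintype.prod_unique, Fintype.sum_unique]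
  rfl

theorem young {η a : ℝ} (hη : 0 < η) (ha : 0 ≤ a) (j : ℕ) (b : ℝ) (hb : b = 0 ∨ b = 1) :
    b * a ^ j ≤ η / 2 * a ^ (2 * j) + 1 / (2 * η) * b := by
  rcases hb with rfl | rfl
  · have : 0 ≤ η / 2 * a ^ (2 * j) := by positivity
    linarith
  · have h1 : a ^ (2 * j) = a ^ j * a ^ j := by rw [two_mul, pow_add]
    rw [h1]
    obtain ⟨t, ht⟩ : ∃ t, t = a ^ j := ⟨_, rfl⟩
    rw [← ht]
    have h2 : 0 ≤ (η * t - 1) ^ 2 / (2 * η) := by positivity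
    have h3 : (η * t - 1) ^ 2 / (2 * η) = η / 2 * (t * t) - t + 1 / (2 * η) := by
      field_simp
      ring
    linarith

/-- **the law of large numbers in the mean of order `j`** -/
theorem lp_law (j : ℕ) {ε : ℝ} (hε : 0 < ε) : ∃ N₀ : ℕ, ∀ 𝓜 : Finset ℕ, (∀ m ∈ 𝓜, Fam m) →
    N₀ ≤ 𝓜.card → ∀ᶠ X : ℕ in atTop,
      av (fun D => (((∑ m ∈ 𝓜, kk (star m D) : ℕ) : ℝ) / 𝓜.card) ^ j) X ≤ mu ^ j + ε := by
  classical
  obtain ⟨M2, hM2⟩ : ∃ M2 : ℝ, M2 = ∑' k : ℕ, (k : ℝ) ^ (2 * j) * pr k := ⟨_, rfl⟩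
  have hM20 : 0 ≤ M2 := by
    rw [hM2]
    exact tsum_nonneg fun k => mul_nonneg (by positivity) (pr_nonneg k)
  obtain ⟨δ, hδ, hδj⟩ : ∃ δ : ℝ, 0 < δ ∧ (mu + δ) ^ j ≤ mu ^ j + ε / 3 := by
    have h1 : Tendsto (fun δ : ℝ => (mu + δ) ^ j) (nhdsWithin 0 (Set.Ioi 0)) (nhds (mu ^ j)) := by
      have h2 : Continuous fun δ : ℝ => (mu + δ) ^ j := by fun_prop
      have h3 := h2.tendsto 0
      rw [add_zero] at h3
      exact h3.mono_left nhdsWithin_le_nhds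
    obtain ⟨δ, h4, h5⟩ := ((h1.eventually (gt_mem_nhds (lt_add_of_pos_right _
      (by positivity : (0 : ℝ) < ε / 3)))).and self_mem_nhdsWithin).exists
    exact ⟨δ, h5, h4.le⟩
  obtain ⟨η, hη, hηM⟩ : ∃ η : ℝ, 0 < η ∧ η / 2 * (M2 + 1) ≤ ε / 3 := by
    refine ⟨2 * ε / (3 * (M2 + 1)), by positivity, le_of_eq ?_⟩
    field_simp
  obtain ⟨ε', hε', h1', h2'⟩ : ∃ ε' : ℝ, 0 < ε' ∧ ε' ≤ δ ∧ 1 / (2 * η) * ε' ≤ ε / 3 := by
    refine ⟨min δ (2 * η * ε / 3), by positivity, min_le_left _ _, ?_⟩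
    refine (mul_le_mul_of_nonneg_left (min_le_right _ _) (by positivity)).trans (le_of_eq ?_)
    field_simp
  obtain ⟨N₀, hN⟩ := sum_law hε'
  refine ⟨N₀ + 1, fun 𝓜 hM hc => ?_⟩
  have hN0 : 0 < 𝓜.card := by omega
  have hNR : (0 : ℝ) < 𝓜.card := by exact_mod_cast hN0
  have hm : ∀ᶠ X : ℕ in atTop, ∀ m ∈ 𝓜,
      av (fun D => ((kk (star m D) : ℕ) : ℝ) ^ (2 * j)) X ≤ M2 + 1 := by
    refine (Filter.eventually_all_finset 𝓜).2 fun m hm => ?_
    have h := mom_tw (hM m hm) (g := fun k => (k : ℝ) ^ (2 * j)) (C := 1) (j := 2 * j) (fun r => by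
      have h0 : (0 : ℝ) ≤ r := Nat.cast_nonneg r
      rw [abs_of_nonneg (by positivity), one_mul]
      exact pow_le_pow_left₀ h0 (by linarith) _)
    filter_upwards [h.eventually (gt_mem_nhds (show ∑' k : ℕ, (k : ℝ) ^ (2 * j) * pr k < M2 + 1 by
      rw [← hM2]; linarith))] with X hX
    exact hX.le
  filter_upwards [hm, hN 𝓜 hM (by omega), eventually_ge_atTop 1] with X hX1 hX2 hX3
  -- the bad event
  set G : Set ℕ := {D | ∑ m ∈ 𝓜, (kk (star m D) : ℝ) ≤ (mu + ε') * 𝓜.card} with hG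
  have hGc : pX Gᶜ X ≤ ε' := by
    have h4 := pX_add (disjoint_compl_right (a := G)) X
    rw [Set.union_compl_self, pX_univ hX3] at h4
    linarith
  have hpt : ∀ D, Fam D → (((∑ m ∈ 𝓜, kk (star m D) : ℕ) : ℝ) / 𝓜.card) ^ j ≤
      (mu + δ) ^ j + ∑ m ∈ 𝓜, (1 / (𝓜.card : ℝ)) * (η / 2 * ((kk (star m D) : ℕ) : ℝ) ^ (2 * j) +
        1 / (2 * η) * if D ∈ Gᶜ then (1 : ℝ) else 0) := by
    intro D _
    have hS : ((∑ m ∈ 𝓜, kk (star m D) : ℕ) : ℝ) = ∑ m ∈ 𝓜, (kk (star m D) : ℝ) := by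
      push_cast
      rfl
    by_cases hD : D ∈ G
    · have h1 : ((∑ m ∈ 𝓜, kk (star m D) : ℕ) : ℝ) / 𝓜.card ≤ mu + δ := by
        rw [div_le_iff₀ hNR, hS]
        have h2 : ∑ m ∈ 𝓜, (kk (star m D) : ℝ) ≤ (mu + ε') * 𝓜.card := hD
        nlinarith
      have h2 : (((∑ m ∈ 𝓜, kk (star m D) : ℕ) : ℝ) / 𝓜.card) ^ j ≤ (mu + δ) ^ j :=
        pow_le_pow_left₀ (by positivity) h1 j
      have h3 : 0 ≤ ∑ m ∈ 𝓜, (1 / (𝓜.card : ℝ)) *
          (η / 2 * ((kk (star m D) : ℕ) : ℝ) ^ (2 * j) +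
            1 / (2 * η) * if D ∈ Gᶜ then (1 : ℝ) else 0) :=
        Finset.sum_nonneg fun m _ => mul_nonneg (by positivity) (add_nonneg (by positivity)
          (mul_nonneg (by positivity) (by split_ifs <;> norm_num)))
      linarith
    · have h1 : (((∑ m ∈ 𝓜, kk (star m D) : ℕ) : ℝ) / 𝓜.card) ^ j ≤
          ∑ m ∈ 𝓜, (1 / (𝓜.card : ℝ)) * ((kk (star m D) : ℕ) : ℝ) ^ j := by
        have h2 := Real.pow_arith_mean_le_arith_mean_pow 𝓜 (fun _ => 1 / (𝓜.card : ℝ))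
          (fun m => ((kk (star m D) : ℕ) : ℝ)) (fun _ _ => by positivity) (by
            rw [Finset.sum_const, nsmul_eq_mul]
            field_simp) (fun _ _ => Nat.cast_nonneg _) j
        rw [← Finset.mul_sum, ← hS] at h2
        rw [div_eq_mul_one_div, mul_comm]
        exact h2
      have h0 : 0 ≤ (mu + δ) ^ j := pow_nonneg (add_nonneg mu_nonneg hδ.le) j
      refine h1.trans (le_trans ?_ (le_add_of_nonneg_left h0))
      refine Finset.sum_le_sum fun m _ => mul_le_mul_of_nonneg_left ?_ (by positivity)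
      have h3 := young hη (Nat.cast_nonneg (kk (star m D))) j 1 (Or.inr rfl)
      rw [if_pos (show D ∈ Gᶜ from hD)]
      linarith
  refine (av_mono hpt X).trans ?_
  rw [av_add, av_sum, av_const _ hX3]
  have h5 : ∀ m ∈ 𝓜, av (fun D => (1 / (𝓜.card : ℝ)) * (η / 2 *
      ((kk (star m D) : ℕ) : ℝ) ^ (2 * j) + 1 / (2 * η) * if D ∈ Gᶜ then (1 : ℝ) else 0)) X ≤
      (1 / (𝓜.card : ℝ)) * (2 * ε / 3) := by
    intro m hm
    rw [av_mul, av_add, av_mul, av_mul, av_ind]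
    refine mul_le_mul_of_nonneg_left ?_ (by positivity)
    have h6 := mul_le_mul_of_nonneg_left (hX1 m hm) (by positivity : 0 ≤ η / 2)
    have h7 := mul_le_mul_of_nonneg_left hGc (by positivity : 0 ≤ 1 / (2 * η))
    linarith
  have h6 := Finset.sum_le_sum h5
  rw [Finset.sum_const, nsmul_eq_mul, ← mul_assoc, mul_one_div_cancel hNR.ne', one_mul] at h6
  linarith

end Pool.Agent.X99.CK
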