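import Pool.Agent.X99.C49.SelAB

/-!
# The isogeny Selmer sets of the twists of `X_0(49)` in terms of the kernel of the matrix
-/

set_option autoImplicit false
set_option linter.style.haveILetI false

open Finset

namespace Pool.Agent.X99.CK

open Pool.Agent.X99.C49
open Pool.Agent.Y700 (PC)
open Pool.Agent.Y814.BSD14 Pool.Agent.Y809.BSD14

/-- **the frame of the descent** -/
theorem frameK {Q P : Finset ℕ} (H : Dat Q P) {c1 c2 : ℤ}
    (hc2 : ∀ q : ℕ, q.Prime → q ≠ 2 → q ≠ 7 → ¬ (q : ℤ) ∣ c2)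
    (hs2 : ∀ p ∈ P, IsSquare ((c2 : ℤ) : ZMod p))
    (hrt : ∀ q ∈ Q, ∀ M r : ZMod q, M ≠ 0 → r ^ 2 + c1 * M * r + c2 * M ^ 2 ≠ 0)
    (hroot : ∀ p ∈ P, ∀ x : ZMod p, x ^ 2 + c1 * x + c2 = 0 → (IsSquare x ↔ n4 p = 0))
    {z : ℤ} (hz : Squarefree z) (hz2 : ¬ (2 : ℤ) ∣ z)
    (h : ∀ (l : ℕ) [Fact l.Prime], PC (c1 * (Mn Q P : ℤ)) (c2 * (Mn Q P : ℤ) ^ 2) l z) :
    ∃ (J : Finset ℕ) (u : ℤ), Ker Q P J ∧ z = ((∏ q ∈ J, q : ℕ) : ℤ) * u ∧
      (u.natAbs = 1 ∨ u.natAbs = 7) := by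
  classical
  have hpr := H.pr
  have hdisj := H.disj
  -- the factorisation of `M` at a prime
  have hMe : ∀ q ∈ Q ∪ P, (Mn Q P : ℤ) = q * ((∏ r ∈ (Q ∪ P).erase q, r : ℕ) : ℤ) := by
    intro q hq
    unfold Mn
    rw [← Finset.mul_prod_erase (Q ∪ P) (fun r : ℕ => r) hq]
    push_cast
    rfl
  have hM' : ∀ q ∈ Q ∪ P, ¬ (q : ℤ) ∣ ((∏ r ∈ (Q ∪ P).erase q, r : ℕ) : ℤ) := by
    intro q hq h0
    have : Fact q.Prime := ⟨(hpr q hq).1⟩
    have h1 := prod_ne (p := q) (S := (Q ∪ P).erase q) fun r hr =>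
      ⟨(hpr r (Finset.mem_of_mem_erase hr)).1, Finset.ne_of_mem_erase hr⟩
    rw [Int.natCast_dvd_natCast] at h0
    exact h1 ((ZMod.natCast_eq_zero_iff _ _).2 h0)
  have n2 : ∀ q ∈ Q ∪ P, q ≠ 2 := by
    intro q hq h0
    have := (hpr q hq).2
    omega
  have n7 : ∀ q ∈ Q ∪ P, q ≠ 7 := by
    intro q hq h0
    have := (hpr q hq).2
    omega
  have hB : ∀ q ∈ Q ∪ P, ¬ (q : ℤ) ∣ c2 * ((∏ r ∈ (Q ∪ P).erase q, r : ℕ) : ℤ) ^ 2 := by
    intro q hq h0
    have hqP : Prime (q : ℤ) := Nat.prime_iff_prime_int.1 (hpr q hq).1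
    rcases hqP.dvd_or_dvd h0 with h0 | h0
    · exact hc2 q (hpr q hq).1 (n2 q hq) (n7 q hq) h0
    · exact hM' q hq (hqP.dvd_of_dvd_pow h0)
  have hPCe : ∀ q ∈ Q ∪ P, ∀ [Fact q.Prime],
      PC (q * (c1 * ((∏ r ∈ (Q ∪ P).erase q, r : ℕ) : ℤ)))
        ((q : ℤ) ^ 2 * (c2 * ((∏ r ∈ (Q ∪ P).erase q, r : ℕ) : ℤ) ^ 2)) q z := by
    intro q hq _
    have h1 := h q
    rw [hMe q hq] at h1
    rwa [show c1 * ((q : ℤ) * ((∏ r ∈ (Q ∪ P).erase q, r : ℕ) : ℤ)) =
        q * (c1 * ((∏ r ∈ (Q ∪ P).erase q, r : ℕ) : ℤ)) by ring,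
      show c2 * ((q : ℤ) * ((∏ r ∈ (Q ∪ P).erase q, r : ℕ) : ℤ)) ^ 2 =
        (q : ℤ) ^ 2 * (c2 * ((∏ r ∈ (Q ∪ P).erase q, r : ℕ) : ℤ) ^ 2) by ring] at h1
  -- the primes dividing `z`
  have hdz : ∀ q : ℕ, q.Prime → (q : ℤ) ∣ z → q = 7 ∨ q ∈ P := by
    intro q hq hqz
    by_contra hcon
    push Not at hcon
    have : Fact q.Prime := ⟨hq⟩
    have hqP : Prime (q : ℤ) := Nat.prime_iff_prime_int.1 hq
    have hq2 : q ≠ 2 := by
      rintro rfl
      exact hz2 (by exact_mod_cast hqz)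
    by_cases hqQ : q ∈ Q
    · have hqU : q ∈ Q ∪ P := Finset.mem_union_left _ hqQ
      obtain ⟨r, hr, -, -⟩ := root_of_PC hz hqz (hB q hqU) (hPCe q hqU)
      have hM0 : ((∏ r ∈ (Q ∪ P).erase q, r : ℕ) : ZMod q) ≠ 0 := by
        intro h0
        exact hM' q hqU (by
          rw [Int.natCast_dvd_natCast]
          exact (ZMod.natCast_eq_zero_iff _ _).1 h0)
      refine hrt q hqQ _ r hM0 ?_
      rw [← hr]
      push_cast
      ring
    · refine not_dvd_of_PC hz ?_ (h q) hqz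
      intro h0
      rcases hqP.dvd_or_dvd h0 with h0 | h0
      · exact hc2 q hq hq2 hcon.1 h0
      · have h1 := hqP.dvd_of_dvd_pow h0
        rw [Int.natCast_dvd_natCast] at h1
        unfold Mn at h1
        rw [Prime.dvd_finsetProd_iff hq.prime] at h1
        obtain ⟨r, hr, hd⟩ := h1
        have h2 := (Nat.prime_dvd_prime_iff_eq hq (hpr r hr).1).1 hd
        subst h2
        rcases Finset.mem_union.1 hr with h3 | h3
        · exact hqQ h3
        · exact hcon.2 h3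
  -- the decomposition
  set J := P.filter (fun p : ℕ => (p : ℤ) ∣ z) with hJdef
  have hJP : J ⊆ P := Finset.filter_subset _ _
  have hJm : ∀ p, p ∈ J ↔ p ∈ P ∧ (p : ℤ) ∣ z := fun p => Finset.mem_filter
  have hJpr : ∀ p ∈ J, p.Prime := fun p hp => (H.hP p (hJP hp)).1
  obtain ⟨u, hu⟩ : ((∏ q ∈ J, q : ℕ) : ℤ) ∣ z := by
    rw [Int.natCast_dvd]
    refine Finset.prod_primes_dvd _ (fun q hq => (hJpr q hq).prime) fun q hq => ?_
    exact Int.natCast_dvd.1 ((hJm q).1 hq).2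
  have huq : ∀ q : ℕ, q.Prime → (q : ℤ) ∣ u → q = 7 := by
    intro q hq hqu
    have hqz : (q : ℤ) ∣ z := by
      rw [hu]
      exact hqu.mul_left _
    rcases hdz q hq hqz with h1 | h1
    · exact h1
    · exfalso
      have hqJ : q ∈ J := (hJm q).2 ⟨h1, hqz⟩
      have h2 : z = q * (((∏ r ∈ J.erase q, r : ℕ) : ℤ) * u) := by
        rw [hu, ← Finset.mul_prod_erase J (fun r : ℕ => r) hqJ]
        push_cast
        ring
      exact not_dvd_of_sqf hq hz h2 (hqu.mul_left _)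
  have huu : u.natAbs = 1 ∨ u.natAbs = 7 :=
    only_prime (hz.squarefree_of_dvd (Dvd.intro_left _ hu.symm)) huq
  have husq : ∀ p ∈ P, IsSquare (u : ZMod p) := by
    intro p hp
    have hp4 := (H.hP p hp).2.1
    have : Fact p.Prime := ⟨(H.hP p hp).1⟩
    have e7 := seven_sq (p := p) hp4 (H.hP p hp).2.2
    have e1 := neg_one_sq (p := p) hp4
    have hu4 : u = 1 ∨ u = -1 ∨ u = 7 ∨ u = -7 := by omega
    rcases hu4 with h1 | h1 | h1 | h1 <;> rw [h1]
    · exact ⟨1, by simp⟩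
    · push_cast; exact e1
    · push_cast; exact e7
    · push_cast; exact (H.hP p hp).2.2
  have hu0 : ∀ p ∈ P, (u : ZMod p) ≠ 0 := by
    intro p hp h0
    have h1 := (ZMod.intCast_zmod_eq_zero_iff_dvd u p).1 h0
    have h2 := huq p (H.hP p hp).1 h1
    exact n7 p (Finset.mem_union_right _ hp) h2
  have hK : Ker Q P J := by
    refine ⟨hJP, ?_, ?_⟩
    · intro p hp
      obtain ⟨hpP, hpJ⟩ := Finset.mem_sdiff.1 hp
      have hpU : p ∈ Q ∪ P := Finset.mem_union_right _ hpP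
      have : Fact p.Prime := ⟨(H.hP p hpP).1⟩
      have hpz : ¬ (p : ℤ) ∣ z := fun h0 => hpJ ((hJm p).2 ⟨hpP, h0⟩)
      have h1 := h p
      rw [hMe p hpU] at h1
      have h2 := sq_of_PC hpz (hM' p hpU) (hc2 p (H.hP p hpP).1 (n2 p hpU) (n7 p hpU))
        (hs2 p hpP) h1
      have hJS : ∀ q ∈ J, q.Prime ∧ q ≠ p := fun q hq =>
        ⟨hJpr q hq, fun h0 => hpJ (h0 ▸ hq)⟩
      rw [← prod_sq (p := p) hJS]
      have h3 : (z : ZMod p) = ((∏ q ∈ J, q : ℕ) : ZMod p) * (u : ZMod p) := by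
        rw [hu]
        push_cast
        ring
      rw [h3, sq_mul_iff (prod_ne hJS) (hu0 p hpP)] at h2
      exact h2.2 (husq p hpP)
    · intro p hp
      obtain ⟨hpP, z', hz'⟩ := (hJm p).1 hp
      have hpU : p ∈ Q ∪ P := Finset.mem_union_right _ hpP
      have : Fact p.Prime := ⟨(H.hP p hpP).1⟩
      have hp0 : (p : ℤ) ≠ 0 := by
        have := (H.hP p hpP).1.ne_zero
        exact_mod_cast this
      obtain ⟨r, hr, hr0, hr2⟩ := root_of_PC hz ⟨z', hz'⟩ (hB p hpU) (hPCe p hpU)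
      have hsq := hr2 z' hz'
      have e1 : z' = ((∏ r ∈ J.erase p, r : ℕ) : ℤ) * u := by
        apply mul_left_cancel₀ hp0
        rw [← hz', hu, ← Finset.mul_prod_erase J (fun r : ℕ => r) hp]
        push_cast
        ring
      have e2 : (Q ∪ P).erase p = J.erase p ∪ ((Q ∪ P) \ J) := by
        ext k
        simp only [Finset.mem_erase, Finset.mem_union, Finset.mem_sdiff]
        constructor
        · rintro ⟨h1, h2⟩
          by_cases hk : k ∈ J
          · exact Or.inl ⟨h1, hk⟩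
          · exact Or.inr ⟨h2, hk⟩
        · rintro (⟨h1, h2⟩ | ⟨h1, h2⟩)
          · exact ⟨h1, Or.inr (hJP h2)⟩
          · refine ⟨?_, h1⟩
            rintro rfl
            exact h2 hp
      have e3 : Disjoint (J.erase p) ((Q ∪ P) \ J) := by
        rw [Finset.disjoint_left]
        intro k h1 h2
        exact (Finset.mem_sdiff.1 h2).2 (Finset.mem_of_mem_erase h1)
      have hA : ∀ q ∈ J.erase p, q.Prime ∧ q ≠ p := fun q hq =>
        ⟨hJpr q (Finset.mem_of_mem_erase hq), Finset.ne_of_mem_erase hq⟩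
      have hC : ∀ q ∈ (Q ∪ P) \ J, q.Prime ∧ q ≠ p := fun q hq =>
        ⟨(hpr q (Finset.mem_sdiff.1 hq).1).1, fun h0 => (Finset.mem_sdiff.1 hq).2 (h0 ▸ hp)⟩
      have hAn := prod_ne (p := p) hA
      have hCn := prod_ne (p := p) hC
      rw [e2, Finset.prod_union e3] at hr
      set a : ZMod p := ((∏ r ∈ J.erase p, r : ℕ) : ZMod p) with ha
      set c : ZMod p := ((∏ r ∈ (Q ∪ P) \ J, r : ℕ) : ZMod p) with hc
      have hr' : r ^ 2 + c1 * (a * c) * r + c2 * (a * c) ^ 2 = 0 := by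
        rw [← hr, ha, hc]
        push_cast
        ring
      have hac : a * c ≠ 0 := mul_ne_zero hAn hCn
      have hx : (r / (a * c)) ^ 2 + c1 * (r / (a * c)) + c2 = 0 := by
        field_simp
        linear_combination hr'
      have h5 := hroot p hpP _ hx
      rw [z2_add, ← h5, ← prod_sq (p := p) hC, ← hc]
      have hx0 : r / (a * c) ≠ 0 := div_ne_zero hr0 hac
      rw [← sq_mul_iff hx0 hCn]
      have hz'0 : (z' : ZMod p) = a * u := by
        rw [e1, ha]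
        push_cast
        ring
      rw [hz'0] at hsq
      obtain ⟨s, hs⟩ := husq p hpP
      have hs0 : s ≠ 0 := by
        rintro rfl
        apply hu0 p hpP
        rw [hs]
        ring
      obtain ⟨t, ht⟩ := hsq
      refine ⟨t / (a * s), ?_⟩
      rw [hs] at ht
      field_simp
      linear_combination ht
  exact ⟨J, u, hK, hu, huu⟩

/-- **the first Selmer set** -/
theorem selAK {Q P : Finset ℕ} (H : Dat Q P) {z : ℤ} (hz : Squarefree z) (hz0 : 0 < z)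
    (h : ∀ (l : ℕ) [Fact l.Prime], PC (21 * (Mn Q P : ℤ)) (112 * (Mn Q P : ℤ) ^ 2) l z) :
    ∃ J, Ker Q P J ∧ (z = ((∏ q ∈ J, q : ℕ) : ℤ) ∨ z = 7 * ((∏ q ∈ J, q : ℕ) : ℤ)) := by
  obtain ⟨J, u, hJ, hu, h17⟩ := frameK H (c1 := 21) (c2 := 112) (by
      intro q hq n2 n7 h0
      have h1 : q ∣ 2 ^ 4 * 7 := by exact_mod_cast h0
      rcases (Nat.Prime.dvd_mul hq).1 h1 with h2 | h2
      · exact n2 ((Nat.prime_dvd_prime_iff_eq hq Nat.prime_two).1 (hq.dvd_of_dvd_pow h2))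
      · exact n7 ((Nat.prime_dvd_prime_iff_eq hq (by norm_num)).1 h2)) (by
      intro p hp
      have : Fact p.Prime := ⟨(H.hP p hp).1⟩
      obtain ⟨s, hs⟩ := seven_sq (p := p) (H.hP p hp).2.1 (H.hP p hp).2.2
      refine ⟨4 * s, ?_⟩
      push_cast
      linear_combination 16 * hs) (by
      intro q hq M r hM hr
      have f : Fact q.Prime := ⟨(H.hQ q hq).1⟩
      apply (H.hQ q hq).2.2
      refine ⟨(2 * r + 21 * M) / M, ?_⟩
      push_cast at hr
      field_simp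
      linear_combination -4 * hr) (by
      intro p hp x hx
      have : Fact p.Prime := ⟨(H.hP p hp).1⟩
      exact root_a (H.hP p hp).2.1 (by push_cast at hx; exact hx)) hz
      (not_two (Mn4 H) hz (h 2)) h
  have hpos : (0 : ℤ) ≤ ((∏ q ∈ J, q : ℕ) : ℤ) := Int.natCast_nonneg _
  have hu0 : 0 < u := by
    by_contra hcon
    push Not at hcon
    have := mul_nonpos_of_nonneg_of_nonpos hpos hcon
    omega
  refine ⟨J, hJ, ?_⟩
  have h2 : u = 1 ∨ u = 7 := by omega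
  rcases h2 with h2 | h2
  · left
    rw [hu, h2, mul_one]
  · right
    rw [hu, h2, mul_comm]

theorem k16 : ∀ M z n W E : ZMod 16, (M = 1 ∨ M = 5 ∨ M = 9 ∨ M = 13) →
    (z = 3 ∨ z = 7 ∨ z = 11 ∨ z = 15) →
    (n = 0 ∨ n = 1 ∨ n = 4 ∨ n = 9) → (W = 0 ∨ W = 1 ∨ W = 4 ∨ W = 9) →
    (E = 0 ∨ E = 1 ∨ E = 4 ∨ E = 9) → ((W = 1 ∨ W = 9) ∨ (E = 1 ∨ E = 9)) →
    ¬ (n = z ^ 3 * W ^ 2 - 42 * z ^ 2 * M * W * E - 7 * z * M ^ 2 * E ^ 2) := by
  rintro M z n W E (rfl | rfl | rfl | rfl) (rfl | rfl | rfl | rfl) (rfl | rfl | rfl | rfl)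
    (rfl | rfl | rfl | rfl) (rfl | rfl | rfl | rfl)
  all_goals decide

theorem mod3_16 (z : ℤ) (hz : z % 4 = 3) :
    (z : ZMod 16) = 3 ∨ (z : ZMod 16) = 7 ∨ (z : ZMod 16) = 11 ∨ (z : ZMod 16) = 15 := by
  have h : z % 16 = 3 ∨ z % 16 = 7 ∨ z % 16 = 11 ∨ z % 16 = 15 := by omega
  have h2 : (z : ZMod 16) = ((z % 16 : ℤ) : ZMod 16) := by
    rw [ZMod.intCast_eq_intCast_iff]
    exact (Int.mod_modEq z 16).symm
  rcases h with h | h | h | h <;> rw [h2, h] <;> simp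

/-- the classes `3` modulo `4` are not in the second Selmer set -/
theorem not_3 {M z : ℤ} (hM : M % 4 = 1) (hz : z % 4 = 3) : ¬ PC (-42 * M) (-7 * M ^ 2) 2 z := by
  intro h
  obtain ⟨s, N, hN⟩ := cover (by omega) h
  refine no_pt M (z ^ 3) (-42 * z ^ 2) (-7 * z) ?_ s (z * N) ?_
  · intro n W E hn hW hE hu h
    refine k16 (M : ZMod 16) (z : ZMod 16) n W E (mod4_16 M hM) (mod3_16 z hz) hn hW hE hu
      (h.trans ?_)
    push_cast; ring
  · push_cast at hN ⊢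
    linear_combination (z : ℚ_[2]) * hN

theorem prodJ4 {Q P J : Finset ℕ} (H : Dat Q P) (hJ : J ⊆ P) :
    ((∏ q ∈ J, q : ℕ) : ℤ) % 4 = 1 := by
  have h : (∏ q ∈ J, q) % 4 = 1 := prod4 fun q hq => (H.hP q (hJ hq)).2.1
  omega

/-- **the second Selmer set** -/
theorem selBK {Q P : Finset ℕ} (H : Dat Q P) {z : ℤ} (hz : Squarefree z)
    (h : ∀ (l : ℕ) [Fact l.Prime], PC (-42 * (Mn Q P : ℤ)) (-7 * (Mn Q P : ℤ) ^ 2) l z) :
    ∃ J, Ker Q P J ∧ (z = ((∏ q ∈ J, q : ℕ) : ℤ) ∨ z = -7 * ((∏ q ∈ J, q : ℕ) : ℤ)) := by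
  have hM := Mn4 H
  obtain ⟨J, u, hJ, hu, h17⟩ := frameK H (c1 := -42) (c2 := -7) (by
      intro q hq n2 n7 h0
      have h1 : q ∣ 7 := by
        have h2 : (q : ℤ) ∣ 7 := (dvd_neg).1 h0
        exact_mod_cast h2
      exact n7 ((Nat.prime_dvd_prime_iff_eq hq (by norm_num)).1 h1)) (by
      intro p hp
      push_cast
      exact (H.hP p hp).2.2) (by
      intro q hq M r hM hr
      have f : Fact q.Prime := ⟨(H.hQ q hq).1⟩
      have hq4 := (H.hQ q hq).2.1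
      have q2 : q ≠ 2 := by rintro rfl; omega
      have h2 : (2 : ZMod q) ≠ 0 := by exact_mod_cast cast_ne0 (p := q) Nat.prime_two q2
      apply (H.hQ q hq).2.2
      obtain ⟨i, hi⟩ := neg_one_sq (p := q) hq4
      refine ⟨i * ((r - 21 * M) / (8 * M)), ?_⟩
      have h8 : (8 : ZMod q) ≠ 0 := by
        rw [show (8 : ZMod q) = 2 ^ 3 by norm_num]
        exact pow_ne_zero 3 h2
      have e1 : ((r - 21 * M) / (8 * M)) * ((r - 21 * M) / (8 * M)) = 7 := by
        push_cast at hr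
        rw [div_mul_div_comm, div_eq_iff (mul_ne_zero (mul_ne_zero h8 hM) (mul_ne_zero h8 hM))]
        linear_combination hr
      linear_combination 7 * hi - i * i * e1) (by
      intro p hp x hx
      have : Fact p.Prime := ⟨(H.hP p hp).1⟩
      have hp4 := (H.hP p hp).2.1
      refine root_b hp4 (H.hP p hp).2.2 ?_ (by rintro rfl; omega)
      push_cast at hx
      linear_combination hx) hz
      (by
        have h1 := not_dvd_of_PC (l := 2) hz (by
          intro h0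
          have h2 : ((2 : ℕ) : ℤ) ∣ 7 * (Mn Q P : ℤ) ^ 2 := by
            have := (dvd_neg).2 h0
            have e : -(-7 * (Mn Q P : ℤ) ^ 2) = 7 * (Mn Q P : ℤ) ^ 2 := by ring
            rwa [e] at this
          have h3 : (7 * (Mn Q P : ℤ) ^ 2) % 2 = 1 := by
            have h4 : (Mn Q P : ℤ) % 2 = 1 := by omega
            rw [Int.mul_emod, pow_two, Int.mul_emod (Mn Q P : ℤ), h4]
            norm_num
          omega) (h 2)
        exact h1) h
  have hJ4 := prodJ4 H hJ.1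
  have hz4 : z % 4 ≠ 3 := fun h3 => not_3 hM h3 (h 2)
  refine ⟨J, hJ, ?_⟩
  have h2 : u = 1 ∨ u = -7 := by
    have h3 : u = 1 ∨ u = -1 ∨ u = 7 ∨ u = -7 := by omega
    rcases h3 with h3 | h3 | h3 | h3
    · exact Or.inl h3
    · exfalso
      apply hz4
      rw [hu, h3]
      omega
    · exfalso
      apply hz4
      rw [hu, h3]
      omega
    · exact Or.inr h3
  rcases h2 with h2 | h2
  · left
    rw [hu, h2, mul_one]
  · right
    rw [hu, h2, mul_comm]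

end Pool.Agent.X99.CK
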