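import Pool.Agent.X99.CK.Frm
import Pool.Agent.X99.C49.Loc
import Pool.Agent.Z864.LQ.Lq

/-!
# Local points for the classes of the kernel, the quartics and the points
-/

set_option autoImplicit false
set_option linter.style.haveILetI false

open Finset

namespace Pool.Agent.X99.CK

open Pool.Agent.X99.C49
open Pool.Agent.Y700 (PC)
open Pool.Agent.Z702 (LocI padic_sq padic_sq2)
open Pool.Agent.Z864.LQ (hens)

/-- a point of `y² = x³ + a x² + b x` over `K` with `x ≠ 0` in the class of `d` -/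
def LP (K : Type) [Field K] (a b d : ℤ) : Prop :=
  ∃ X Y r : K, X ≠ 0 ∧ Y ^ 2 = X ^ 3 + (a : K) * X ^ 2 + (b : K) * X ∧ X = (d : K) * r ^ 2

/-- a solution of the quartic -/
def Qu (K : Type) [Field K] (a b d : ℤ) : Prop :=
  ∃ N M e : K, (M ≠ 0 ∨ e ≠ 0) ∧
    N ^ 2 = (d : K) * M ^ 4 + (a : K) * M ^ 2 * e ^ 2 + ((b / d : ℤ) : K) * e ^ 4

/-- a point whose abscissa is a square -/
def TP (K : Type) [Field K] (a b : ℤ) : Prop :=
  ∃ N Y : K, N ≠ 0 ∧ Y ^ 2 = (N ^ 2) ^ 3 + (a : K) * (N ^ 2) ^ 2 + (b : K) * N ^ 2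

theorem tp_padic (p : ℕ) [hp : Fact p.Prime] (a b : ℤ) : TP ℚ_[p] a b := by
  obtain ⟨z, hz⟩ := hens p (a * p + 4 * b * p ^ 3 : ℤ_[p])
  have hp0 : (p : ℚ_[p]) ≠ 0 := by exact_mod_cast hp.out.ne_zero
  have h1 := congrArg (fun w : ℤ_[p] => (w : ℚ_[p])) hz
  have hc4 : ((4 : ℤ_[p]) : ℚ_[p]) = 4 := rfl
  push_cast at h1
  rw [hc4] at h1
  refine ⟨1 / (2 * p), (1 / (2 * p)) ^ 3 * z, one_div_ne_zero (mul_ne_zero two_ne_zero hp0), ?_⟩
  have h2 : ((1 / (2 * (p : ℚ_[p]))) ^ 3 * (z : ℚ_[p])) ^ 2 =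
      (1 / (2 * (p : ℚ_[p]))) ^ 6 * ((z : ℚ_[p]) * z) := by ring
  rw [h2, ← h1]
  field_simp
  ring

theorem tp_real (a b : ℤ) : TP ℝ a b := by
  set X : ℝ := 1 + |(a : ℝ)| + |(b : ℝ)| with hX
  have a1 := neg_abs_le (a : ℝ)
  have a2 := neg_abs_le (b : ℝ)
  have a3 := abs_nonneg (a : ℝ)
  have a4 := abs_nonneg (b : ℝ)
  have hX1 : 1 ≤ X := by linarith
  have hX0 : 0 ≤ X := by linarith
  have h1 : 0 < X ^ 2 + a * X + b := by nlinarith
  have h2 : 0 < X ^ 3 + a * X ^ 2 + b * X := by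
    have : X ^ 3 + a * X ^ 2 + b * X = X * (X ^ 2 + a * X + b) := by ring
    rw [this]
    positivity
  refine ⟨Real.sqrt X, Real.sqrt (X ^ 3 + a * X ^ 2 + b * X), ?_, ?_⟩
  · exact (Real.sqrt_pos.2 (by linarith)).ne'
  · rw [Real.sq_sqrt h2.le, Real.sq_sqrt hX0]

section field

variable {K : Type} [Field K] {a b d : ℤ}

theorem lp_one (h : TP K a b) (hd : (d : K) ≠ 0) (hs : IsSquare (d : K)) : LP K a b d := by
  obtain ⟨N, Y, hN, hY⟩ := h
  obtain ⟨e, he⟩ := hs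
  have he0 : e ≠ 0 := by
    rintro rfl
    apply hd
    rw [he, mul_zero]
  refine ⟨N ^ 2, Y, N / e, pow_ne_zero 2 hN, hY, ?_⟩
  rw [he]
  field_simp

theorem lp_T (h : TP K a b) (hd : (d : K) ≠ 0) (hb : (b : K) ≠ 0)
    (hs : IsSquare ((d : K) * b)) : LP K a b d := by
  obtain ⟨N, Y, hN, hY⟩ := h
  obtain ⟨f, hf⟩ := hs
  refine ⟨b / N ^ 2, b * Y / N ^ 4, f / (d * N), div_ne_zero hb (pow_ne_zero 2 hN), ?_, ?_⟩
  · have h1 : ((b : K) * Y / N ^ 4) ^ 2 = (b : K) ^ 2 * Y ^ 2 / N ^ 8 := by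
      field_simp
    rw [h1, hY]
    field_simp
    ring
  · rw [div_pow, pow_two f, ← hf]
    field_simp

/-- the translate by `(0, 0)` -/
theorem lp_mul (hb : (b : K) ≠ 0) {c m : ℤ} (hc : b = c * m ^ 2)
    (h : LP K a b d) : LP K a b (c * d) := by
  obtain ⟨X, Y, r, hX, hY, hr⟩ := h
  have hcK : (b : K) = c * m ^ 2 := by
    rw [hc]
    push_cast
    ring
  have hr0 : r ≠ 0 := by
    rintro rfl
    apply hX
    rw [hr]
    ring
  have hd : (d : K) ≠ 0 := by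
    intro h0
    apply hX
    rw [hr, h0, zero_mul]
  refine ⟨b / X, b * Y / X ^ 2, m / (d * r), div_ne_zero hb hX, ?_, ?_⟩
  · have h1 : ((b : K) * Y / X ^ 2) ^ 2 = (b : K) ^ 2 * Y ^ 2 / X ^ 4 := by
      field_simp
    rw [h1, hY]
    field_simp
    ring
  · rw [hcK, hr]
    push_cast
    field_simp

/-- the point gives a solution of the quartic -/
theorem qu_of_lp (hd : d ∣ b) (hd0 : d ≠ 0) (h : LP K a b d) : Qu K a b d := by
  obtain ⟨X, Y, r, hX, hY, hr⟩ := h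
  obtain ⟨c, hc⟩ := hd
  have hdiv : b / d = c := by rw [hc]; exact Int.mul_ediv_cancel_left c hd0
  have hcK : (b : K) = d * c := by exact_mod_cast congrArg (fun z : ℤ => (z : K)) hc
  have hr0 : r ≠ 0 := by
    rintro rfl
    apply hX
    rw [hr]; ring
  have hdK : (d : K) ≠ 0 := by
    intro h0
    apply hX
    rw [hr, h0, zero_mul]
  refine ⟨Y / (d * r), r, 1, Or.inl hr0, ?_⟩
  rw [div_pow, hY, hr, hdiv]
  field_simp
  linear_combination hcK

/-- a solution of the quartic gives a point -/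
theorem lp_of_qu (hT : TP K a b) (hd : d ∣ b) (hd0 : d ≠ 0) (hdK : (d : K) ≠ 0)
    (hb : (b : K) ≠ 0) (h : Qu K a b d) : LP K a b d := by
  obtain ⟨N, M, e, hne, hN⟩ := h
  obtain ⟨c, hc⟩ := hd
  have hdiv : b / d = c := by rw [hc]; exact Int.mul_ediv_cancel_left c hd0
  have hcK : (b : K) = d * c := by exact_mod_cast congrArg (fun z : ℤ => (z : K)) hc
  rw [hdiv] at hN
  by_cases he0 : e = 0
  · subst he0
    have hM : M ≠ 0 := by
      rcases hne with h | h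
      · exact h
      · exact absurd rfl h
    refine lp_one hT hdK ⟨N / M ^ 2, ?_⟩
    have hN2 : N ^ 2 = d * M ^ 4 := by rw [hN]; ring
    field_simp
    linear_combination -hN2
  · by_cases hM : M = 0
    · subst hM
      have hN2 : N ^ 2 = c * e ^ 4 := by rw [hN]; ring
      refine lp_T hT hdK hb ⟨d * N / e ^ 2, ?_⟩
      rw [hcK]
      field_simp
      linear_combination -hN2
    · refine ⟨d * (M / e) ^ 2, d * M * N / e ^ 3, M / e, ?_, ?_, rfl⟩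
      · exact mul_ne_zero hdK (pow_ne_zero 2 (div_ne_zero hM he0))
      · rw [div_pow, mul_pow, hN, hcK]
        field_simp

end field

/-- small multiples -/
theorem small (p : ℕ) [hp : Fact p.Prime] (y : ℚ_[p]) : ∃ n : ℕ, ∀ m, n ≤ m →
    ‖(p : ℚ_[p]) ^ m * y‖ ≤ 1 := by
  have hp1 : (1 : ℝ) < p := by exact_mod_cast hp.out.one_lt
  obtain ⟨n, hn⟩ := pow_unbounded_of_one_lt ‖y‖ hp1
  refine ⟨n, fun m hm => ?_⟩
  rw [norm_mul, norm_pow, Padic.norm_p, inv_pow]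
  have h1 : (p : ℝ) ^ n ≤ (p : ℝ) ^ m := pow_le_pow_right₀ hp1.le hm
  have h2 : (0 : ℝ) < (p : ℝ) ^ m := by positivity
  rw [inv_mul_le_iff₀ h2, mul_one]
  linarith

/-- a point which is not of order two -/
theorem pc_of_lp {p : ℕ} [hp : Fact p.Prime] {a b z : ℤ} (hab : a ^ 2 - 4 * b ≠ 0)
    (h : LP ℚ_[p] a b z) : PC a b p z := by
  obtain ⟨X, Y, r, hX, hY, hr⟩ := h
  by_cases hY0 : Y = 0
  · have hq : X ^ 2 + a * X + b = 0 := by
      have h1 : X * (X ^ 2 + a * X + b) = 0 := by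
        rw [hY0] at hY
        linear_combination -hY
      exact (mul_eq_zero.1 h1).resolve_left hX
    have hq2 : (2 * X + a) ^ 2 = ((a ^ 2 - 4 * b : ℤ) : ℚ_[p]) := by
      push_cast
      linear_combination 4 * hq
    have hq0 : (2 * X + a) ≠ 0 := by
      intro h0
      rw [h0] at hq2
      have : ((a ^ 2 - 4 * b : ℤ) : ℚ_[p]) = 0 := by rw [← hq2]; ring
      exact hab (by exact_mod_cast this)
    obtain ⟨q, hqd⟩ : ∃ q : ℚ_[p], q = 2 * X + a := ⟨_, rfl⟩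
    rw [← hqd] at hq0
    obtain ⟨n1, hn1⟩ := small p q
    obtain ⟨n2, hn2⟩ := small p X
    obtain ⟨n, hna, hnb⟩ : ∃ n, n1 ≤ n ∧ n2 ≤ n := ⟨max n1 n2, le_max_left _ _, le_max_right _ _⟩
    have hp0 : (p : ℚ_[p]) ≠ 0 := by exact_mod_cast hp.out.ne_zero
    have hsq : ∀ t : ℚ_[p], ‖(p : ℚ_[p]) ^ n * t‖ ≤ 1 →
        ∃ u : ℚ_[p], u ≠ 0 ∧ 1 + t * (2 * (p : ℚ_[p]) ^ (n + 1)) ^ 2 = u ^ 2 := by
      intro t ht
      obtain ⟨w, hw⟩ : ∃ w : ℤ_[p], (w : ℚ_[p]) = (p : ℚ_[p]) ^ n * t := ⟨⟨_, ht⟩, rfl⟩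
      obtain ⟨u, hu⟩ := hens p (p ^ (n + 1) * w)
      have hc4 : ((4 : ℤ_[p]) : ℚ_[p]) = 4 := rfl
      have h1 := congrArg (fun w : ℤ_[p] => (w : ℚ_[p])) hu
      push_cast at h1
      rw [hc4, hw] at h1
      refine ⟨u, ?_, ?_⟩
      · intro h0
        have hu0 : u = 0 := by
          apply PadicInt.ext
          rw [h0]
          rfl
        rw [hu0, mul_zero] at hu
        have h2 := congrArg (PadicInt.toZMod (p := p)) hu
        simp only [map_add, map_one, map_mul, map_natCast, map_zero, CharP.cast_eq_zero,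
          mul_zero, zero_mul, add_zero] at h2
        exact one_ne_zero h2
      · linear_combination h1
    obtain ⟨u, hu0, hu⟩ := hsq q (hn1 n hna)
    obtain ⟨v, hv0, hv⟩ := hsq X (hn2 n hnb)
    set s : ℚ_[p] := 2 * (p : ℚ_[p]) ^ (n + 1) with hs
    have hs0 : s ≠ 0 := mul_ne_zero two_ne_zero (pow_ne_zero _ hp0)
    refine ⟨X * u ^ 2, X * q * s * u * v,
      mul_ne_zero (mul_ne_zero (mul_ne_zero (mul_ne_zero hX hq0) hs0) hu0) hv0, ?_,
      z * r * u, ?_⟩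
    · have e1 : (X * q * s * u * v) ^ 2 = X ^ 2 * q ^ 2 * s ^ 2 * u ^ 2 * v ^ 2 := by ring
      rw [e1, ← hu, ← hv, hqd]
      linear_combination (-(X * (1 + (2 * X + a) * s ^ 2))) * hq
    · rw [hr]
      ring
  · refine ⟨X, Y, hY0, hY, z * r, ?_⟩
    rw [hr]
    ring

end Pool.Agent.X99.CK
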