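import Pool.Agent.X99.CK.Loc

/-!
# The classes of the kernel are everywhere locally soluble, on both curves
-/

set_option autoImplicit false
set_option linter.style.haveILetI false

open Finset

namespace Pool.Agent.X99.CK

open Pool.Agent.X99.C49
open Pool.Agent.Y700 (PC)
open Pool.Agent.Z702 (LocI padic_sq padic_sq2)
open Pool.Agent.Z864.LQ (hens)

/-- the place two -/
theorem locA_two {M d : ℤ} (hM : M % 4 = 1) (hd : d % 4 = 1) :
    LP ℚ_[2] (21 * M) (112 * M ^ 2) d := by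
  have hd0 : (d : ℚ_[2]) ≠ 0 := by
    have : d ≠ 0 := by omega
    exact_mod_cast this
  have hM0 : (M : ℚ_[2]) ≠ 0 := by
    have : M ≠ 0 := by omega
    exact_mod_cast this
  have h : d % 8 = 1 ∨ d % 8 = 5 := by omega
  rcases h with h | h
  · exact lp_one (tp_padic 2 _ _) hd0 (padic_sq2 h)
  · have h2 : M % 8 = 1 ∨ M % 8 = 5 := by omega
    have hM2 : (M ^ 2) % 8 = 1 := by
      rw [pow_two, Int.mul_emod]
      rcases h2 with h3 | h3 <;> rw [h3] <;> norm_num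
    have hM3 : (M ^ 3) % 8 = M % 8 := by
      rw [pow_succ, Int.mul_emod, hM2, one_mul]
      omega
    rcases h2 with h2 | h2
    · obtain ⟨m, hm⟩ := padic_sq2 (n := 9849 * M ^ 3) (by
        rw [Int.mul_emod, hM3, h2]
        norm_num)
      obtain ⟨k, hk⟩ := padic_sq2 (n := 21 * M * d) (by
        rw [Int.mul_emod, Int.mul_emod 21, h2, h]
        norm_num)
      refine ⟨336 * M, 64 * m, 4 * k / d, mul_ne_zero (by norm_num) hM0, ?_, ?_⟩
      · push_cast at hm ⊢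
        linear_combination (-4096 : ℚ_[2]) * hm
      · push_cast at hk
        field_simp
        linear_combination (16 : ℚ_[2]) * hk
    · obtain ⟨m, hm⟩ := padic_sq2 (n := 53 * M ^ 3) (by
        rw [Int.mul_emod, hM3, h2]
        norm_num)
      obtain ⟨k, hk⟩ := padic_sq2 (n := M * d) (by
        rw [Int.mul_emod, h2, h]
        norm_num)
      refine ⟨4 * M, 4 * m, 2 * k / d, mul_ne_zero (by norm_num) hM0, ?_, ?_⟩
      · push_cast at hm ⊢
        linear_combination (-16 : ℚ_[2]) * hm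
      · push_cast at hk
        field_simp
        linear_combination (4 : ℚ_[2]) * hk

/-- the primes which divide `d` -/
theorem locA_P {p : ℕ} [hp : Fact p.Prime] (h4 : p % 4 = 1) (h7 : IsSquare (-7 : ZMod p))
    (p7 : p ≠ 7) {M' d' c : ℤ} (hM : ¬ (p : ℤ) ∣ M') (hd : ¬ (p : ℤ) ∣ d') (hc : M' = c * d')
    (hiff : IsSquare (c : ZMod p) ↔ n4 p = 0) :
    LP ℚ_[p] (21 * (p * M')) (112 * (p * M') ^ 2) (p * d') := by
  have p2 : p ≠ 2 := by rintro rfl; omega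
  have h20 : (2 : ZMod p) ≠ 0 := by exact_mod_cast cast_ne0 (p := p) Nat.prime_two p2
  have h70 : (7 : ZMod p) ≠ 0 := by exact_mod_cast cast_ne0 (p := p) (by norm_num : (7 : ℕ).Prime) p7
  have hM0 : (M' : ZMod p) ≠ 0 := by
    intro h
    rw [ZMod.intCast_zmod_eq_zero_iff_dvd] at h
    exact hM h
  have hd0 : (d' : ZMod p) ≠ 0 := by
    intro h
    rw [ZMod.intCast_zmod_eq_zero_iff_dvd] at h
    exact hd h
  have hc0 : (c : ZMod p) ≠ 0 := by
    intro h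
    apply hM0
    rw [hc]
    push_cast
    rw [h, zero_mul]
  obtain ⟨g, hg⟩ : IsSquare (-7 : ℤ_[p]) := by
    apply Pool.Agent.Y474.Z.sq_of p2
    · rw [map_neg, map_ofNat]; exact neg_ne_zero.2 h70
    · rw [map_neg, map_ofNat]; exact h7
  set gb : ZMod p := PadicInt.toZMod g with hgb
  have hgb2 : gb * gb = -7 := by
    rw [hgb, ← map_mul, ← hg, map_neg, map_ofNat]
  obtain ⟨ρ, hρ⟩ : ∃ ρ : ZMod p, 2 * ρ = gb - 21 := ⟨(gb - 21) / 2, by field_simp⟩
  have hρr : ρ ^ 2 + 21 * ρ + 112 = 0 := by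
    have h1 : 4 * (ρ ^ 2 + 21 * ρ + 112) = 0 := by
      linear_combination (2 * ρ + (gb - 21) + 42) * hρ + hgb2
    have h3 : (4 : ZMod p) ≠ 0 := by
      rw [show (4 : ZMod p) = 2 * 2 by norm_num]
      exact mul_ne_zero h20 h20
    exact (mul_eq_zero.1 h1).resolve_left h3
  have hρ0 : ρ ≠ 0 := by
    rintro rfl
    have : (2 : ZMod p) ^ 4 * 7 = 0 := by linear_combination hρr
    exact mul_ne_zero (pow_ne_zero 4 h20) h70 this
  have hρs := root_a h4 hρr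
  have hgb21 : gb - 21 ≠ 0 := by
    rw [← hρ]
    exact mul_ne_zero h20 hρ0
  have hsq : IsSquare (2 * (M' : ZMod p) * (d' : ZMod p) * (gb - 21)) := by
    have h1 : IsSquare ((c : ZMod p) * ρ) := (sq_mul_iff hc0 hρ0).2 (hiff.trans hρs.symm)
    have e : 2 * (M' : ZMod p) * (d' : ZMod p) * (gb - 21) =
        (2 * (d' : ZMod p)) ^ 2 * ((c : ZMod p) * ρ) := by
      rw [hc, ← hρ]
      push_cast
      ring
    rw [e]
    exact (IsSquare.sq _).mul h1
  obtain ⟨t, ht⟩ : IsSquare (2 * (M' : ℤ_[p]) * (d' : ℤ_[p]) * (g - 21)) := by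
    have e1 : PadicInt.toZMod (2 * (M' : ℤ_[p]) * (d' : ℤ_[p]) * (g - 21)) =
        2 * (M' : ZMod p) * (d' : ZMod p) * (gb - 21) := by
      rw [map_mul, map_mul, map_mul, map_intCast, map_intCast, map_sub, map_ofNat, map_ofNat]
    apply Pool.Agent.Y474.Z.sq_of p2
    · rw [e1]
      exact mul_ne_zero (mul_ne_zero (mul_ne_zero h20 hM0) hd0) hgb21
    · rw [e1]
      exact hsq
  -- over `ℚ_p`
  obtain ⟨G, hG⟩ : ∃ G : ℚ_[p], G = algebraMap ℤ_[p] ℚ_[p] g := ⟨_, rfl⟩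
  obtain ⟨T, hT⟩ : ∃ T : ℚ_[p], T = algebraMap ℤ_[p] ℚ_[p] t := ⟨_, rfl⟩
  have hg' : (-7 : ℚ_[p]) = G * G := by
    have := congrArg (algebraMap ℤ_[p] ℚ_[p]) hg
    rwa [map_mul, map_neg, map_ofNat, ← hG] at this
  have ht' : 2 * (M' : ℚ_[p]) * (d' : ℚ_[p]) * (G - 21) = T * T := by
    have := congrArg (algebraMap ℤ_[p] ℚ_[p]) ht
    rwa [map_mul, map_mul, map_mul, map_mul, map_sub, map_intCast, map_intCast, map_ofNat,
      map_ofNat, ← hG, ← hT] at this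
  have hp0 : (p : ℚ_[p]) ≠ 0 := by exact_mod_cast hp.out.ne_zero
  have hM0' : (M' : ℚ_[p]) ≠ 0 := by
    have : M' ≠ 0 := by rintro rfl; exact hM (dvd_zero _)
    exact_mod_cast this
  have hd0' : (d' : ℚ_[p]) ≠ 0 := by
    have : d' ≠ 0 := by rintro rfl; exact hd (dvd_zero _)
    exact_mod_cast this
  have hs0 : G - 21 ≠ 0 := by
    intro h
    have h1 : (G - 21) * (G + 21) = -448 := by
      linear_combination -hg'
    rw [h, zero_mul] at h1
    have h2 : (448 : ℚ_[p]) = 0 := by linear_combination h1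
    exact absurd h2 (by exact_mod_cast (by norm_num : (448 : ℕ) ≠ 0))
  refine ⟨(p : ℚ_[p]) * M' * (G - 21) / 2, 0, T / (2 * d'), ?_, ?_, ?_⟩
  · exact div_ne_zero (mul_ne_zero (mul_ne_zero hp0 hM0') hs0) two_ne_zero
  · push_cast
    linear_combination (((p : ℚ_[p]) * M') ^ 3 * (G - 21) / 8) * hg'
  · push_cast
    field_simp
    linear_combination ht'

/-- **local points** from a kernel vector, on the first curve -/
theorem locA {Q P J : Finset ℕ} (H : Dat Q P) (hJ : Ker Q P J) :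
    (∀ (l : ℕ) [Fact l.Prime], LP ℚ_[l] (21 * (Mn Q P : ℤ)) (112 * (Mn Q P : ℤ) ^ 2)
      ((∏ q ∈ J, q : ℕ) : ℤ)) ∧
    LP ℝ (21 * (Mn Q P : ℤ)) (112 * (Mn Q P : ℤ) ^ 2) ((∏ q ∈ J, q : ℕ) : ℤ) := by
  classical
  obtain ⟨hJP, k1, k2⟩ := hJ
  have hpr := H.pr
  have hJpr : ∀ p ∈ J, p.Prime := fun p hp => (H.hP p (hJP hp)).1
  have hM4 := Mn4 H
  have hd4 := prodJ4 H hJP
  have hMpos' : (0 : ℤ) ≤ (Mn Q P : ℤ) := Int.natCast_nonneg _
  set M : ℤ := (Mn Q P : ℤ) with hM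
  set d : ℤ := ((∏ q ∈ J, q : ℕ) : ℤ) with hd
  have hM0 : M ≠ 0 := by omega
  have hMpos : 0 < M := by omega
  have hM2 : 0 < M ^ 2 := by positivity
  have hd0 : d ≠ 0 := by omega
  have hdpos : 0 < d := by
    have : 0 ≤ d := by rw [hd]; positivity
    omega
  have hb : (112 * M ^ 2 : ℤ) ≠ 0 := by positivity
  have q1 : ∀ (l : ℕ) [Fact l.Prime], (IsSquare (d : ℚ_[l]) ∨
      IsSquare ((d : ℚ_[l]) * ((112 * M ^ 2 : ℤ) : ℚ_[l]))) →
      LP ℚ_[l] (21 * M) (112 * M ^ 2) d := by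
    intro l _ h
    have hdl : (d : ℚ_[l]) ≠ 0 := by exact_mod_cast hd0
    have hbl : ((112 * M ^ 2 : ℤ) : ℚ_[l]) ≠ 0 := by exact_mod_cast hb
    rcases h with h | h
    · exact lp_one (tp_padic l _ _) hdl h
    · exact lp_T (tp_padic l _ _) hdl hbl h
  have hMe : ∀ q ∈ Q ∪ P, M = q * ((∏ r ∈ (Q ∪ P).erase q, r : ℕ) : ℤ) := by
    intro q hq
    rw [hM]
    unfold Mn
    rw [← Finset.mul_prod_erase (Q ∪ P) (fun r : ℕ => r) hq]
    push_cast
    rfl
  refine ⟨fun l hl => ?_, ?_⟩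
  swap
  · refine ⟨d, Real.sqrt ((d : ℝ) ^ 3 + ((21 * M : ℤ) : ℝ) * (d : ℝ) ^ 2 +
      ((112 * M ^ 2 : ℤ) : ℝ) * d), 1, ?_, ?_, by ring⟩
    · exact_mod_cast hd0
    · rw [Real.sq_sqrt]
      have h1 : (0 : ℝ) < d := by exact_mod_cast hdpos
      have h2 : (0 : ℝ) < M := by exact_mod_cast hMpos
      push_cast
      positivity
  by_cases l2 : l = 2
  · subst l2
    exact locA_two hM4 hd4
  by_cases lJ : l ∈ J
  · have hlP : l ∈ P := hJP lJ
    have hlU : l ∈ Q ∪ P := Finset.mem_union_right _ hlP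
    have hl4 := (H.hP l hlP).2.1
    have e2 : (Q ∪ P).erase l = J.erase l ∪ ((Q ∪ P) \ J) := by
      ext k
      simp only [Finset.mem_erase, Finset.mem_union, Finset.mem_sdiff]
      constructor
      · rintro ⟨h1, h2⟩
        by_cases hk : k ∈ J
        · exact Or.inl ⟨h1, hk⟩
        · exact Or.inr ⟨h2, hk⟩
      · rintro (⟨h1, h2⟩ | ⟨h1, h2⟩)
        · exact ⟨h1, Or.inr (hJP h2)⟩
        · refine ⟨?_, h1⟩
          rintro rfl
          exact h2 lJ
    have e3 : Disjoint (J.erase l) ((Q ∪ P) \ J) := by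
      rw [Finset.disjoint_left]
      intro k h1 h2
      exact (Finset.mem_sdiff.1 h2).2 (Finset.mem_of_mem_erase h1)
    have hA : ∀ q ∈ J.erase l, q.Prime ∧ q ≠ l := fun q hq =>
      ⟨hJpr q (Finset.mem_of_mem_erase hq), Finset.ne_of_mem_erase hq⟩
    have hC : ∀ q ∈ (Q ∪ P) \ J, q.Prime ∧ q ≠ l := fun q hq =>
      ⟨(hpr q (Finset.mem_sdiff.1 hq).1).1, fun h0 => (Finset.mem_sdiff.1 hq).2 (h0 ▸ lJ)⟩
    have nd : ∀ S : Finset ℕ, (∀ q ∈ S, q.Prime ∧ q ≠ l) → ¬ (l : ℤ) ∣ ((∏ q ∈ S, q : ℕ) : ℤ) := by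
      intro S hS h0
      rw [Int.natCast_dvd_natCast, ← ZMod.natCast_eq_zero_iff] at h0
      exact prod_ne hS h0
    have h := locA_P (p := l) hl4 (H.hP l hlP).2.2 (by rintro rfl; omega)
      (M' := ((∏ r ∈ (Q ∪ P).erase l, r : ℕ) : ℤ)) (d' := ((∏ r ∈ J.erase l, r : ℕ) : ℤ))
      (c := ((∏ r ∈ (Q ∪ P) \ J, r : ℕ) : ℤ))
      (nd _ fun q hq => ⟨(hpr q (Finset.mem_of_mem_erase hq)).1, Finset.ne_of_mem_erase hq⟩)
      (nd _ hA) (by
        rw [e2, Finset.prod_union e3]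
        push_cast
        ring) (by
        rw [Int.cast_natCast, prod_sq (p := l) hC]
        exact ((z2_add _ _).1 (k2 l lJ)).symm)
    have e6 : d = l * ((∏ r ∈ J.erase l, r : ℕ) : ℤ) := by
      rw [hd, ← Finset.mul_prod_erase J (fun r : ℕ => r) lJ]
      push_cast
      ring
    rw [← hMe l hlU, ← e6] at h
    exact h
  have hJl : ∀ q ∈ J, q.Prime ∧ q ≠ l := fun q hq => ⟨hJpr q hq, fun h0 => lJ (h0 ▸ hq)⟩
  have hdl : ¬ (l : ℤ) ∣ d := by
    intro h0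
    rw [hd, Int.natCast_dvd_natCast, ← ZMod.natCast_eq_zero_iff] at h0
    exact prod_ne hJl h0
  by_cases l7 : l = 7
  · subst l7
    refine q1 7 (Or.inl ?_)
    refine padic_sq (by norm_num) hdl ?_
    rw [hd, Int.cast_natCast]
    exact prod_sq7 fun p hp => sq_mod7 (hJpr p hp) (H.hP p (hJP hp)).2.1 (H.hP p (hJP hp)).2.2
  by_cases hlP : l ∈ P
  · refine q1 l (Or.inl ?_)
    refine padic_sq l2 hdl ?_
    rw [hd, Int.cast_natCast, prod_sq (p := l) hJl]
    exact k1 l (Finset.mem_sdiff.2 ⟨hlP, lJ⟩)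
  have h70 : (7 : ZMod l) ≠ 0 := by exact_mod_cast cast_ne0 (p := l) (by norm_num : (7 : ℕ).Prime) l7
  have h20 : (2 : ZMod l) ≠ 0 := by exact_mod_cast cast_ne0 (p := l) Nat.prime_two l2
  have hdz : (d : ZMod l) ≠ 0 := by
    intro h0
    exact hdl ((ZMod.intCast_zmod_eq_zero_iff_dvd _ _).1 h0)
  by_cases hs : IsSquare (d : ZMod l)
  · exact q1 l (Or.inl (padic_sq l2 hdl hs))
  by_cases hs7 : IsSquare (7 : ZMod l)
  · -- good reduction
    have hlQ : l ∉ Q := by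
      intro h
      apply (H.hQ l h).2.2
      have h1 := (neg_one_sq (p := l) (H.hQ l h).2.1).mul hs7
      have e : (-1 : ZMod l) * 7 = -7 := by ring
      rwa [e] at h1
    have hlM : ¬ (l : ℤ) ∣ M := by
      intro h0
      rw [hM, Int.natCast_dvd_natCast] at h0
      unfold Mn at h0
      rw [Prime.dvd_finsetProd_iff hl.out.prime] at h0
      obtain ⟨r, hr, hdr⟩ := h0
      have h2 := (Nat.prime_dvd_prime_iff_eq hl.out (hpr r hr).1).1 hdr
      subst h2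
      rcases Finset.mem_union.1 hr with h3 | h3
      · exact hlQ h3
      · exact hlP h3
    have hMz : (M : ZMod l) ≠ 0 := by
      intro h0
      exact hlM ((ZMod.intCast_zmod_eq_zero_iff_dvd _ _).1 h0)
    obtain ⟨X, Y, r, hX, hY, hr⟩ := Pool.Agent.Z894.LG.aux l (-42 * M) (-7 * M ^ 2) d l2 (by
        push_cast
        exact mul_ne_zero (neg_ne_zero.2 h70) (pow_ne_zero 2 hMz)) (by
        have e : (((-42 * M : ℤ) : ZMod l)) ^ 2 - 4 * (((-7 * M ^ 2 : ℤ)) : ZMod l) =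
            7 * (16 * (M : ZMod l)) ^ 2 := by
          push_cast
          ring
        rw [e]
        refine (quadraticChar_one_iff_isSquare ?_).2 (hs7.mul (IsSquare.sq _))
        refine mul_ne_zero h70 (pow_ne_zero 2 (mul_ne_zero ?_ hMz))
        rw [show (16 : ZMod l) = 2 ^ 4 by norm_num]
        exact pow_ne_zero 4 h20) hd0
      (quadraticChar_neg_one_iff_not_isSquare.2 hs)
    refine ⟨X / 4, Y / 8, r / 2, div_ne_zero hX (by norm_num), ?_, ?_⟩
    · push_cast at hY ⊢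
      linear_combination (1 / 64 : ℚ_[l]) * hY
    · rw [hr]
      ring
  · refine q1 l (Or.inr ?_)
    have h1 : IsSquare ((d * 7 : ℤ) : ZMod l) := by
      push_cast
      exact (sq_mul_iff hdz h70).2 ⟨fun h => absurd h hs, fun h => absurd h hs7⟩
    have h2 : ¬ (l : ℤ) ∣ d * 7 := by
      rw [← ZMod.intCast_zmod_eq_zero_iff_dvd]
      push_cast
      exact mul_ne_zero hdz h70
    obtain ⟨r, hr⟩ := padic_sq l2 h2 h1
    refine ⟨4 * (M : ℚ_[l]) * r, ?_⟩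
    push_cast at hr ⊢
    linear_combination (16 * (M : ℚ_[l]) ^ 2) * hr

/-- **local points** from a kernel vector, on the second curve -/
theorem locB {Q P J : Finset ℕ} (H : Dat Q P) (hJ : Ker Q P J) :
    (∀ (l : ℕ) [Fact l.Prime], LP ℚ_[l] (-42 * (Mn Q P : ℤ)) (-7 * (Mn Q P : ℤ) ^ 2)
      ((∏ q ∈ J, q : ℕ) : ℤ)) ∧
    LP ℝ (-42 * (Mn Q P : ℤ)) (-7 * (Mn Q P : ℤ) ^ 2) ((∏ q ∈ J, q : ℕ) : ℤ) := by
  obtain ⟨h1, h2⟩ := loc Pool.Agent.Z864.LQ.t_LQ H hJ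
  refine ⟨fun l _ => ?_, ?_⟩
  · obtain ⟨X, Y, r, hX, hY, hr⟩ := h1 l
    refine ⟨X, Y, r, hX, ?_, hr⟩
    push_cast at hY ⊢
    linear_combination hY
  · obtain ⟨X, Y, r, hX, hY, hr⟩ := h2
    refine ⟨X, Y, r, hX, ?_, hr⟩
    push_cast at hY ⊢
    linear_combination hY

end Pool.Agent.X99.CK
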