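import Pool.Agent.Y697.PQ.Jt

/-!
# Several symmetric forms which are completed by the same form: the joint law of the coranks

After `Pool.Agent.Y697.PQ.Jt` (helper697), where all the forms are nonsingular.
-/

set_option autoImplicit false

namespace Pool.Agent.X99.CK

open Finset Module Filter Topology
open Pool.Agent.Y697.PP (Sy Nd YY mem_YY)
open Pool.Agent.Y697.PQ

/-- the factor of the truncated series -/
noncomputable def fk (k : ℕ) : ℝ := cf k / 2 ^ (k * (k - 1) / 2)

theorem fk_pos (k : ℕ) : 0 < fk k := div_pos (cf_pos k) (by positivity)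

/-- the truncated series for the indicator of `r = k` -/
noncomputable def qq (k J r : ℕ) : ℝ :=
  ∑ i ∈ range (J + 1), (-1) ^ i * cf i * (fk k / 2 ^ (k * i)) * ij (k + i) (2 ^ r)

theorem ij_succ (j : ℕ) (x : ℝ) : ij (j + 1) x = ij j x * (x - 2 ^ j) := by
  rw [ij, Finset.prod_range_succ, ← ij]

theorem ij_small {j r : ℕ} (h : r < j) : ij j (2 ^ r) = 0 := by
  unfold ij
  exact Finset.prod_eq_zero (Finset.mem_range.2 h) (sub_self _)

theorem ij_nonneg (j r : ℕ) : 0 ≤ ij j (2 ^ r) := by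
  rcases lt_or_ge r j with h | h
  · rw [ij_small h]
  · unfold ij
    refine Finset.prod_nonneg fun i hi => ?_
    rw [Finset.mem_range] at hi
    have : (2 : ℝ) ^ i ≤ 2 ^ r := pow_le_pow_right₀ (by norm_num) (by omega)
    linarith

theorem ij_add (k i s : ℕ) :
    ij (k + i) (2 ^ (k + s)) = ij k (2 ^ (k + s)) * (2 ^ (k * i) * ij i (2 ^ s)) := by
  induction i with
  | zero => simp [ij]
  | succ i ih =>
    rw [← add_assoc, ij_succ, ih, ij_succ i]
    rw [pow_add 2 k s, pow_add 2 k i, mul_add, mul_one, pow_add 2 (k * i) k]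
    ring

theorem fk_ij (k : ℕ) : fk k * ij k (2 ^ k) = 1 := by
  induction k with
  | zero => simp [fk, cf, ij]
  | succ k ih =>
    have h1 : ij (k + 1) (2 ^ (k + 1)) = (2 ^ (k + 1) - 1) * (2 ^ k * ij k (2 ^ k)) := by
      have h2 := ij_add 1 k k
      rw [add_comm 1 k, one_mul] at h2
      rw [h2]
      unfold ij
      rw [Finset.prod_range_one, pow_zero]
    rw [h1]
    unfold fk at ih ⊢
    rw [tri, pow_add, show cf (k + 1) = cf k / (2 ^ (k + 1) - 1) from rfl]
    have h3 := pm1 k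
    have h4 : (2 : ℝ) ^ (k + 1) - 1 ≠ 0 := by linarith
    have h5 : (2 : ℝ) ^ k ≠ 0 := by positivity
    have h6 : (2 : ℝ) ^ (k * (k - 1) / 2) ≠ 0 := by positivity
    field_simp at ih ⊢
    linarith

theorem qq_eq (k J s : ℕ) : qq k J (k + s) = fk k * ij k (2 ^ (k + s)) * pp J (2 ^ s) := by
  unfold qq
  rw [← pp_eq, Finset.mul_sum]
  refine Finset.sum_congr rfl fun i _ => ?_
  rw [ij_add]
  have h5 : (2 : ℝ) ^ (k * i) ≠ 0 := by positivity
  field_simp

theorem qq_small {k J r : ℕ} (h : r < k) : qq k J r = 0 := by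
  unfold qq
  refine Finset.sum_eq_zero fun i _ => ?_
  rw [ij_small (by omega), mul_zero]

theorem qq_even {J : ℕ} (hJ : Even J) (k r : ℕ) : (if r = k then (1 : ℝ) else 0) ≤ qq k J r := by
  rcases lt_or_ge r k with h | h
  · rw [qq_small h, if_neg h.ne]
  · obtain ⟨s, rfl⟩ := Nat.exists_eq_add_of_le h
    rw [qq_eq]
    split_ifs with h1
    · have h2 : s = 0 := by omega
      subst h2
      rw [add_zero, fk_ij, pow_zero, pp_one, one_mul]
    · have h2 := pp_even hJ s
      rw [if_neg (by omega)] at h2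
      exact mul_nonneg (mul_nonneg (fk_pos k).le (ij_nonneg _ _)) h2

theorem qq_odd {J : ℕ} (hJ : Odd J) (k r : ℕ) : qq k J r ≤ (if r = k then (1 : ℝ) else 0) := by
  rcases lt_or_ge r k with h | h
  · rw [qq_small h, if_neg h.ne]
  · obtain ⟨s, rfl⟩ := Nat.exists_eq_add_of_le h
    rw [qq_eq]
    split_ifs with h1
    · have h2 : s = 0 := by omega
      subst h2
      rw [add_zero, fk_ij, pow_zero, pp_one, one_mul]
    · have h2 := pp_odd hJ s
      rw [if_neg (by omega)] at h2
      exact mul_nonpos_of_nonneg_of_nonpos (mul_nonneg (fk_pos k).le (ij_nonneg _ _)) h2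

theorem tri_k (k i : ℕ) : (k + i) * (k + i - 1) / 2 = k * (k - 1) / 2 + (i * (i - 1) / 2 + k * i) := by
  induction i with
  | zero => simp
  | succ i ih =>
    rw [← add_assoc, tri, ih, tri]
    ring

theorem co_eq (k i : ℕ) :
    cf i * (fk k / 2 ^ (k * i)) * 2 ^ ((k + i) * (k + i - 1) / 2) = cf k * ff i := by
  rw [tri_k, pow_add, pow_add]
  unfold fk ff
  have h5 : (2 : ℝ) ^ (k * i) ≠ 0 := by positivity
  have h6 : (2 : ℝ) ^ (k * (k - 1) / 2) ≠ 0 := by positivity
  field_simp

theorem cf_le_one (k : ℕ) : cf k ≤ 1 := by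
  induction k with
  | zero => simp [cf]
  | succ k ih =>
    rw [cf]
    have h := pm1 k
    rw [div_le_one (by linarith)]
    linarith

open Classical in
theorem sum_qq {V : Type} [AddCommGroup V] [Module (ZMod 2) V] [Fintype V]
    {𝒴 : Finset (LinearMap.BilinForm (ZMod 2) V)} {B : LinearMap.BilinForm (ZMod 2) V} {γ N δ : ℝ}
    (hN : 0 ≤ N) {k J : ℕ}
    (h : ∀ j ≤ k + J, |∑ Y ∈ 𝒴, ij j (2 ^ finrank (ZMod 2) (LinearMap.ker (B + Y))) -
      γ * 2 ^ (j * (j - 1) / 2) * N| ≤ 2 ^ (j * (j - 1) / 2) * N * δ) (hδ : 0 ≤ δ) :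
    |∑ Y ∈ 𝒴, qq k J (finrank (ZMod 2) (LinearMap.ker (B + Y))) -
      γ * cf k * (∑ j ∈ range (J + 1), (-1) ^ j * ff j) * N| ≤ N * ((J + 1) * δ) := by
  have h1 : ∑ Y ∈ 𝒴, qq k J (finrank (ZMod 2) (LinearMap.ker (B + Y))) =
      ∑ i ∈ range (J + 1), (-1) ^ i * (cf i * (fk k / 2 ^ (k * i))) *
        ∑ Y ∈ 𝒴, ij (k + i) (2 ^ finrank (ZMod 2) (LinearMap.ker (B + Y))) := by
    simp only [qq, Finset.mul_sum]
    rw [Finset.sum_comm]
    refine Finset.sum_congr rfl fun i _ => Finset.sum_congr rfl fun Y _ => ?_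
    ring
  have h2 : γ * cf k * (∑ j ∈ range (J + 1), (-1) ^ j * ff j) * N =
      ∑ i ∈ range (J + 1), (-1) ^ i * (cf i * (fk k / 2 ^ (k * i))) *
        (γ * 2 ^ ((k + i) * (k + i - 1) / 2) * N) := by
    rw [Finset.mul_sum, Finset.sum_mul]
    refine Finset.sum_congr rfl fun i _ => ?_
    have := co_eq k i
    linear_combination (- γ * N * (-1) ^ i) * this
  rw [h1, h2, ← Finset.sum_sub_distrib]
  refine (Finset.abs_sum_le_sum_abs _ _).trans ?_
  have h3 : ∀ i ∈ range (J + 1), |(-1) ^ i * (cf i * (fk k / 2 ^ (k * i))) *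
      ∑ Y ∈ 𝒴, ij (k + i) (2 ^ finrank (ZMod 2) (LinearMap.ker (B + Y))) -
      (-1) ^ i * (cf i * (fk k / 2 ^ (k * i))) *
        (γ * 2 ^ ((k + i) * (k + i - 1) / 2) * N)| ≤ N * δ := by
    intro i hi
    rw [Finset.mem_range] at hi
    have h4 := h (k + i) (by omega)
    have h0 : 0 < cf i * (fk k / 2 ^ (k * i)) :=
      mul_pos (cf_pos i) (div_pos (fk_pos k) (by positivity))
    rw [← mul_sub, abs_mul, abs_mul, abs_pow, abs_neg, abs_one, one_pow, one_mul,
      abs_of_pos h0]
    refine (mul_le_mul_of_nonneg_left h4 h0.le).trans ?_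
    have h6 : cf i * (fk k / 2 ^ (k * i)) * (2 ^ ((k + i) * (k + i - 1) / 2) * N * δ) =
        (cf k * ff i) * (N * δ) := by
      rw [← co_eq]
      ring
    rw [h6]
    exact mul_le_of_le_one_left (mul_nonneg hN hδ)
      (mul_le_one₀ (cf_le_one k) (ff_pos i).le (ff_le_one i))
  refine (Finset.sum_le_sum h3).trans (le_of_eq ?_)
  rw [Finset.sum_const, Finset.card_range, nsmul_eq_mul]
  push_cast
  ring

/-- the limit probability of the corank `r` -/
noncomputable def pr (r : ℕ) : ℝ := gi * cf r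

theorem pr_nonneg (r : ℕ) : 0 ≤ pr r :=
  mul_nonneg (le_trans (by norm_num) gi_ge) (cf_pos r).le

theorem pr_le_one (r : ℕ) : pr r ≤ 1 := mul_le_one₀ gi_le (cf_pos r).le (cf_le_one r)

open Classical in
/-- **the joint law of the coranks** -/
theorem thmK (M : ℕ) : ∀ (r : Fin M → ℕ) (ε : ℝ), 0 < ε → ∃ R : ℕ, ∀ (V : Type) [AddCommGroup V]
    [Module (ZMod 2) V] [Fintype V] (W : Submodule (ZMod 2) V)
    (B : Fin M → LinearMap.BilinForm (ZMod 2) V) (d t : ℕ),
    (∀ k, Sy (B k)) → (∀ k, Nd (B k) W) →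
    (∀ k l, k ≠ l → finrank (ZMod 2) (JJ (B k) (B l) W) ≤ d) → finrank (ZMod 2) W ≤ d →
    finrank (ZMod 2) W + t = finrank (ZMod 2) V → d + R ≤ t →
    |(((YY W).filter fun Y => ∀ k, finrank (ZMod 2) (LinearMap.ker (B k + Y)) = r k).card : ℝ) -
      (∏ k, pr (r k)) * (YY W).card| ≤ ε * (YY W).card := by
  induction M with
  | zero =>
    intro r ε hε
    refine ⟨0, ?_⟩
    intro V _ _ _ W B d t _ _ _ _ _ _
    have h1 : ((YY W).filter fun Y => ∀ k : Fin 0,
        finrank (ZMod 2) (LinearMap.ker (B k + Y)) = r k) = YY W :=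
      Finset.filter_true_of_mem fun Y _ k => k.elim0
    rw [h1, Finset.univ_eq_empty, Finset.prod_empty, one_mul, sub_self, abs_zero]
    positivity
  | succ M ih =>
    intro r ε hε
    obtain ⟨n₀, hn₀⟩ := (Metric.tendsto_atTop.1 gi_tendsto) (ε / 3) (by positivity)
    set J : ℕ := 2 * n₀ + 1 with hJ
    set η : ℝ := ε / (3 * (J + 2)) with hη
    have hη0 : 0 < η := by positivity
    set k₀ : ℕ := r 0 with hk₀
    obtain ⟨R₁, hR₁⟩ := ih (fun k => r k.succ) η hη0
    obtain ⟨R₂, hR₂⟩ : ∃ R₂ : ℕ, ((M : ℝ) + 1) * 2 ^ (k₀ + J + 1) * (J + 2) * 3 / ε < 2 ^ R₂ :=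
      pow_unbounded_of_one_lt _ (by norm_num)
    refine ⟨R₁ + R₂ + 2 * (k₀ + J + 1), ?_⟩
    intro V _ _ _ W B d t hSy hNd hJJ hWd ht hR
    have hfin : Module.Finite (ZMod 2) V := Module.Finite.of_finite
    obtain ⟨G, hG⟩ : ∃ G : LinearMap.BilinForm (ZMod 2) V → Prop,
        ∀ Y, G Y ↔ ∀ k : Fin M, finrank (ZMod 2) (LinearMap.ker (B k.succ + Y)) = r k.succ :=
      ⟨_, fun _ => Iff.rfl⟩
    set γ : ℝ := ∏ k : Fin M, pr (r k.succ) with hγ
    have hγ0 : 0 ≤ γ := Finset.prod_nonneg fun k _ => pr_nonneg _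
    have hγ1 : γ ≤ 1 := Finset.prod_le_one (fun k _ => pr_nonneg _) fun k _ => pr_le_one _
    set N : ℝ := ((YY W).card : ℝ) with hNdef
    have hN0 : 0 ≤ N := Nat.cast_nonneg _
    -- the exceptional set
    set Z : Finset V := (univ.filter fun x => x ∈ W) ∪
      (univ : Finset (Fin M)).biUnion fun k =>
        (univ.filter fun p : V × V => p ∈ JJ (B 0) (B k.succ) W).image Prod.fst with hZ
    have hcard : ∀ (E : Type) [AddCommGroup E] [Module (ZMod 2) E] [Fintype E]
        (S : Submodule (ZMod 2) E), (univ.filter fun x => x ∈ S).card = 2 ^ finrank (ZMod 2) S := by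
      intro E _ _ _ S
      have hfinE : Module.Finite (ZMod 2) E := Module.Finite.of_finite
      have h1 : (univ.filter fun x => x ∈ S).card = Nat.card S := by
        rw [Nat.card_eq_fintype_card, ← Fintype.card_coe]
        exact Fintype.card_congr (Equiv.subtypeEquivRight fun x => by simp)
      rw [h1, Module.natCard_eq_pow_finrank (K := ZMod 2), Nat.card_zmod]
    have hZc : Z.card ≤ (M + 1) * 2 ^ d := by
      have h1 : (univ.filter fun x => x ∈ W).card ≤ 2 ^ d := by
        rw [hcard V W]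
        exact Nat.pow_le_pow_right (by norm_num) hWd
      have h2 : ((univ : Finset (Fin M)).biUnion fun k =>
          (univ.filter fun p : V × V => p ∈ JJ (B 0) (B k.succ) W).image Prod.fst).card ≤
          M * 2 ^ d := by
        refine Finset.card_biUnion_le.trans ?_
        have h3 : ∀ k ∈ (univ : Finset (Fin M)), ((univ.filter fun p : V × V =>
            p ∈ JJ (B 0) (B k.succ) W).image Prod.fst).card ≤ 2 ^ d := by
          intro k _
          refine Finset.card_image_le.trans ?_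
          rw [hcard (V × V) (JJ (B 0) (B k.succ) W)]
          exact Nat.pow_le_pow_right (by norm_num) (hJJ 0 k.succ (Fin.succ_ne_zero k).symm)
        refine (Finset.sum_le_sum h3).trans (le_of_eq ?_)
        rw [Finset.sum_const, Finset.card_univ, Fintype.card_fin, smul_eq_mul]
      refine (Finset.card_union_le _ _).trans ?_
      rw [add_mul, one_mul]
      omega
    set δ : ℝ := η + Z.card * 2 ^ (k₀ + J + 1) / 2 ^ t with hδ
    have hδ0 : 0 ≤ δ := by positivity
    -- the estimate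
    have hest : ∀ j ≤ k₀ + J + 1, |∑ Y ∈ (YY W).filter G,
        ij j (2 ^ finrank (ZMod 2) (LinearMap.ker (B 0 + Y))) -
        γ * 2 ^ (j * (j - 1) / 2) * N| ≤ 2 ^ (j * (j - 1) / 2) * N * δ := by
      intro j hj
      have h1 := est (hSy 0) (hNd 0) ht G (γ := γ) (ε := η) hγ0
        hγ1 hη0.le (j := j) (by omega) Z
        (fun w hw => Finset.mem_union_left _ (Finset.mem_filter.2 ⟨Finset.mem_univ _, hw⟩)) ?_
      · refine h1.trans ?_
        apply mul_le_mul_of_nonneg_left _ (by positivity)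
        rw [hδ]
        have h2 : (2 : ℝ) ^ j ≤ 2 ^ (k₀ + J + 1) := pow_le_pow_right₀ (by norm_num) hj
        gcongr
      · intro v hvN hLI hvZ hd Y₀ hY₀ hY₀U
        have hY' := mem_YY.1 hY₀
        have hUW : ∀ u ∈ Submodule.span (ZMod 2) (Set.range v), ∀ w ∈ W, B 0 u w = 0 := by
          intro u hu
          have : Submodule.span (ZMod 2) (Set.range v) ≤ Nn (B 0) W := by
            rw [Submodule.span_le]
            rintro x ⟨i, rfl⟩
            exact hvN i
          exact mem_Nn.1 (this hu)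
        have hfr := finrank_sup_span hLI hd
        have h2 := hR₁ V (W ⊔ Submodule.span (ZMod 2) (Set.range v))
          (fun k => B k.succ + Y₀) (d + j) (t - j)
          (fun k => (hSy k.succ).add hY'.1) (fun k => ?_) (fun k l hkl => ?_) (by omega) (by omega)
          (by omega)
        · have h3 : ((YY (W ⊔ Submodule.span (ZMod 2) (Set.range v))).filter
              fun Y => G (Y₀ + Y)) =
              (YY (W ⊔ Submodule.span (ZMod 2) (Set.range v))).filter
              fun Y => ∀ k : Fin M,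
                finrank (ZMod 2) (LinearMap.ker (B k.succ + Y₀ + Y)) = r k.succ := by
            ext Y
            simp only [Finset.mem_filter, hG]
            refine and_congr_right fun _ => forall_congr' fun k => ?_
            rw [← add_assoc]
          rw [h3]
          exact h2
        · refine nd_JJ (hNd k.succ) hY₀ hY₀U hUW ?_
          intro u hu hu0 b hb
          obtain ⟨c, rfl⟩ := (Submodule.mem_span_range_iff_exists_fun (ZMod 2)).1 hu
          refine hvZ c (fun hc => hu0 (by rw [hc]; simp)) ?_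
          rw [hZ]
          refine Finset.mem_union_right _ (Finset.mem_biUnion.2 ⟨k, Finset.mem_univ _, ?_⟩)
          exact Finset.mem_image.2 ⟨_, Finset.mem_filter.2 ⟨Finset.mem_univ _, hb⟩, rfl⟩
        · have h3 := finrank_JJ (B := B k.succ) (B' := B l.succ) hY₀ v
          have h4 := hJJ k.succ l.succ (fun h => hkl (Fin.succ_injective _ h))
          omega
    have hδ' : (J + 2) * δ ≤ 2 * ε / 3 := by
      have h1 : ((J : ℝ) + 2) * η = ε / 3 := by
        rw [hη]
        field_simp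
      have h2 : (Z.card : ℝ) * 2 ^ (k₀ + J + 1) / 2 ^ t ≤ (M + 1) * 2 ^ (k₀ + J + 1) / 2 ^ R₂ := by
        rw [div_le_div_iff₀ (by positivity) (by positivity)]
        have h3 : (Z.card : ℝ) ≤ (M + 1) * 2 ^ d := by exact_mod_cast hZc
        have h4 : (2 : ℝ) ^ d * 2 ^ R₂ ≤ 2 ^ t := by
          rw [← pow_add]
          exact pow_le_pow_right₀ (by norm_num) (by omega)
        calc (Z.card : ℝ) * 2 ^ (k₀ + J + 1) * 2 ^ R₂ ≤
              (M + 1) * 2 ^ d * 2 ^ (k₀ + J + 1) * 2 ^ R₂ := by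
              gcongr
          _ = (M + 1) * 2 ^ (k₀ + J + 1) * (2 ^ d * 2 ^ R₂) := by ring
          _ ≤ _ := by gcongr
      have h3 : ((J : ℝ) + 2) * ((M + 1) * 2 ^ (k₀ + J + 1) / 2 ^ R₂) ≤ ε / 3 := by
        rw [← mul_div_assoc, div_le_div_iff₀ (by positivity) (by norm_num)]
        rw [div_lt_iff₀ hε] at hR₂
        nlinarith
      have h4 : ((J : ℝ) + 2) * δ =
          (J + 2) * η + (J + 2) * (Z.card * 2 ^ (k₀ + J + 1) / 2 ^ t) := by
        rw [hδ]
        ring
      have h5 : ((J : ℝ) + 2) * (Z.card * 2 ^ (k₀ + J + 1) / 2 ^ t) ≤ ε / 3 :=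
        (mul_le_mul_of_nonneg_left h2 (by positivity)).trans h3
      rw [h4, h1]
      linarith
    -- the count
    have hcnt : (((YY W).filter fun Y => ∀ k,
        finrank (ZMod 2) (LinearMap.ker (B k + Y)) = r k).card : ℝ) =
        ∑ Y ∈ (YY W).filter G,
          (if finrank (ZMod 2) (LinearMap.ker (B 0 + Y)) = k₀ then (1 : ℝ) else 0) := by
      rw [← Finset.sum_filter, Finset.sum_const, nsmul_eq_mul, mul_one, Finset.filter_filter]
      congr 2
      ext Y
      simp only [Finset.mem_filter, hG]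
      rw [Fin.forall_fin_succ, and_comm (a := finrank (ZMod 2) _ = r 0)]
    have hsum : ∀ n, n₀ ≤ n → |∑ i ∈ range n, (-1) ^ i * ff i - gi| ≤ ε / 3 := by
      intro n hn
      have := hn₀ n hn
      rw [Real.dist_eq] at this
      exact this.le
    have hprod : ∏ k, pr (r k) = γ * cf k₀ * gi := by
      rw [Fin.prod_univ_succ, pr]
      ring
    have hgc : γ * cf k₀ ≤ 1 := mul_le_one₀ hγ1 (cf_pos _).le (cf_le_one _)
    have hgc0 : 0 ≤ γ * cf k₀ := mul_nonneg hγ0 (cf_pos _).le
    have hmain : ∀ I, I ≤ J + 1 → n₀ ≤ I + 1 →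
        |∑ Y ∈ (YY W).filter G, qq k₀ I (finrank (ZMod 2) (LinearMap.ker (B 0 + Y))) -
          (∏ k, pr (r k)) * N| ≤ ε * N := by
      intro I hI hI'
      have h1 := sum_qq (γ := γ) (N := N) (δ := δ) hN0 (k := k₀) (J := I)
        (fun j hj => hest j (by omega)) hδ0
      have h2 := hsum (I + 1) hI'
      have h3 : |γ * cf k₀ * (∑ j ∈ range (I + 1), (-1) ^ j * ff j) * N -
          (∏ k, pr (r k)) * N| ≤ ε / 3 * N := by
        have h4 : γ * cf k₀ * (∑ j ∈ range (I + 1), (-1) ^ j * ff j) * N -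
            (∏ k, pr (r k)) * N =
            γ * cf k₀ * ((∑ j ∈ range (I + 1), (-1) ^ j * ff j) - gi) * N := by
          rw [hprod]
          ring
        rw [h4, abs_mul, abs_mul, abs_of_nonneg hN0, abs_of_nonneg hgc0]
        apply mul_le_mul_of_nonneg_right _ hN0
        calc γ * cf k₀ * |(∑ j ∈ range (I + 1), (-1) ^ j * ff j) - gi| ≤ 1 * (ε / 3) :=
              mul_le_mul hgc h2 (abs_nonneg _) zero_le_one
          _ = _ := one_mul _
      have h5 : N * (((I : ℝ) + 1) * δ) ≤ N * (2 * ε / 3) := by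
        apply mul_le_mul_of_nonneg_left _ hN0
        refine le_trans ?_ hδ'
        apply mul_le_mul_of_nonneg_right _ hδ0
        have : (I : ℝ) ≤ J + 1 := by exact_mod_cast hI
        linarith
      have h6 := abs_sub_le
        (∑ Y ∈ (YY W).filter G, qq k₀ I (finrank (ZMod 2) (LinearMap.ker (B 0 + Y))))
        (γ * cf k₀ * (∑ j ∈ range (I + 1), (-1) ^ j * ff j) * N) ((∏ k, pr (r k)) * N)
      have h7 := h1.trans h5
      linarith
    have hlo := hmain J (by omega) (by omega)
    have hhi := hmain (J + 1) le_rfl (by omega)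
    have hJo : Odd J := ⟨n₀, hJ⟩
    have hJe : Even (J + 1) := hJo.add_one
    have h1 : ∑ Y ∈ (YY W).filter G, qq k₀ J (finrank (ZMod 2) (LinearMap.ker (B 0 + Y))) ≤
        ∑ Y ∈ (YY W).filter G,
          (if finrank (ZMod 2) (LinearMap.ker (B 0 + Y)) = k₀ then (1 : ℝ) else 0) :=
      Finset.sum_le_sum fun Y _ => qq_odd hJo _ _
    have h2 : ∑ Y ∈ (YY W).filter G,
          (if finrank (ZMod 2) (LinearMap.ker (B 0 + Y)) = k₀ then (1 : ℝ) else 0) ≤
        ∑ Y ∈ (YY W).filter G, qq k₀ (J + 1) (finrank (ZMod 2) (LinearMap.ker (B 0 + Y))) :=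
      Finset.sum_le_sum fun Y _ => qq_even hJe _ _
    rw [hcnt]
    rw [abs_le] at hlo hhi ⊢
    constructor <;> linarith

end Pool.Agent.X99.CK
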